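import Pool.Agent.W886.AM.Stm0

set_option autoImplicit false

open Finset

namespace Pool.Agent.W446.AMAMP

theorem second_moment {Ω : Type} [Fintype Ω] (g : Ω → ℤ) (h0 : ∑ x, g x = 0) (t : ℕ) :
    (∑ f : Fin t → Ω, ∑ i, g (f i) = 0) ∧
    (Fintype.card Ω : ℤ) * ∑ f : Fin t → Ω, (∑ i, g (f i)) ^ 2 =
      t * (Fintype.card Ω : ℤ) ^ t * ∑ x, (g x) ^ 2 := by
  induction t with
  | zero => simp
  | succ t ih =>
    obtain ⟨ih1, ih2⟩ := ih
    constructor
    · rw [← (Fin.consEquiv (fun _ => Ω)).sum_comp, Fintype.sum_prod_type]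
      have h : ∀ x : Ω, ∑ f : Fin t → Ω, ∑ i, g ((Fin.consEquiv (fun _ => Ω)) (x, f) i) =
          (Fintype.card Ω : ℤ) ^ t * g x := by
        intro x
        have h1 : ∀ f : Fin t → Ω, ∑ i, g ((Fin.consEquiv (fun _ => Ω)) (x, f) i) =
            g x + ∑ i, g (f i) := by
          intro f
          rw [Fin.sum_univ_succ]
          simp [Fin.consEquiv]
        rw [Finset.sum_congr rfl (fun f _ => h1 f), Finset.sum_add_distrib, ih1]
        simp
      rw [Finset.sum_congr rfl (fun x _ => h x), ← Finset.mul_sum, h0, mul_zero]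
    · rw [← (Fin.consEquiv (fun _ => Ω)).sum_comp, Fintype.sum_prod_type]
      have h : ∀ x : Ω, ∑ f : Fin t → Ω, (∑ i, g ((Fin.consEquiv (fun _ => Ω)) (x, f) i)) ^ 2 =
          (Fintype.card Ω : ℤ) ^ t * g x ^ 2 + ∑ f : Fin t → Ω, (∑ i, g (f i)) ^ 2 := by
        intro x
        have h1 : ∀ f : Fin t → Ω, (∑ i, g ((Fin.consEquiv (fun _ => Ω)) (x, f) i)) ^ 2 =
            g x ^ 2 + 2 * g x * (∑ i, g (f i)) + (∑ i, g (f i)) ^ 2 := by
          intro f
          rw [Fin.sum_univ_succ]
          simp [Fin.consEquiv]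
          ring
        rw [Finset.sum_congr rfl (fun f _ => h1 f), Finset.sum_add_distrib,
          Finset.sum_add_distrib, ← Finset.mul_sum, ih1]
        simp
      rw [Finset.sum_congr rfl (fun x _ => h x), Finset.sum_add_distrib, ← Finset.mul_sum,
        Finset.sum_const, Finset.card_univ, nsmul_eq_mul, mul_add, mul_comm (Fintype.card Ω : ℤ)
        (_ * _), ih2]
      push_cast
      ring

open Classical in
theorem cheb {Ω : Type} [Fintype Ω] (B : Finset Ω) (h : 3 * B.card ≤ Fintype.card Ω)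
    (hN : 0 < Fintype.card Ω) (c t : ℕ) (hc : 0 < c) (ht : t = 2 * c) :
    c * (univ.filter fun f : Fin t → Ω =>
      c ≤ (univ.filter fun i => f i ∈ B).card).card ≤ 4 * Fintype.card Ω ^ t := by
  obtain ⟨N, hNdef⟩ : ∃ N : ℤ, N = (Fintype.card Ω : ℤ) := ⟨_, rfl⟩
  obtain ⟨a, hadef⟩ : ∃ a : ℤ, a = (B.card : ℤ) := ⟨_, rfl⟩
  obtain ⟨C, hC⟩ : ∃ C : ℤ, C = (c : ℤ) := ⟨_, rfl⟩
  have hC0 : 0 < C := by rw [hC]; exact_mod_cast hc
  have htC : (t : ℤ) = 2 * C := by rw [hC, ht]; push_cast; ring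
  have hN' : 0 < N := by rw [hNdef]; exact_mod_cast hN
  have ha0 : 0 ≤ a := by rw [hadef]; positivity
  have h3 : 3 * a ≤ N := by rw [hNdef, hadef]; exact_mod_cast h
  have hNa : 0 < N - 2 * a := by linarith
  set g : Ω → ℤ := fun x => N * (if x ∈ B then 1 else 0) - a with hg
  have hind : ∑ x : Ω, (if x ∈ B then (1 : ℤ) else 0) = a := by
    rw [Finset.sum_ite_mem, Finset.univ_inter, hadef]
    simp
  have hg0 : ∑ x, g x = 0 := by
    simp only [hg]
    rw [Finset.sum_sub_distrib, ← Finset.mul_sum, hind, Finset.sum_const, Finset.card_univ,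
      nsmul_eq_mul, ← hNdef]
    ring
  have hg2 : ∑ x, (g x) ^ 2 = N * a * (N - a) := by
    have h1 : ∀ x, (g x) ^ 2 = (N ^ 2 - 2 * N * a) * (if x ∈ B then 1 else 0) + a ^ 2 := by
      intro x
      simp only [hg]
      split_ifs <;> ring
    rw [Finset.sum_congr rfl (fun x _ => h1 x), Finset.sum_add_distrib, ← Finset.mul_sum, hind,
      Finset.sum_const, Finset.card_univ, nsmul_eq_mul, ← hNdef]
    ring
  obtain ⟨_, hsm⟩ := second_moment g hg0 t
  rw [hg2, ← hNdef, htC] at hsm
  set S := univ.filter fun f : Fin t → Ω => c ≤ (univ.filter fun i => f i ∈ B).card with hS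
  have hsum : ∀ f : Fin t → Ω, ∑ i, g (f i) =
      N * ((univ.filter fun i => f i ∈ B).card : ℤ) - 2 * C * a := by
    intro f
    simp only [hg]
    rw [Finset.sum_sub_distrib, ← Finset.mul_sum, Finset.sum_boole, Finset.sum_const,
      Finset.card_univ, Fintype.card_fin, nsmul_eq_mul, htC]
  have hlow : (S.card : ℤ) * (C * (N - 2 * a)) ^ 2 ≤
      ∑ f : Fin t → Ω, (∑ i, g (f i)) ^ 2 := by
    calc (S.card : ℤ) * (C * (N - 2 * a)) ^ 2 = ∑ f ∈ S, (C * (N - 2 * a)) ^ 2 := by
          rw [Finset.sum_const, nsmul_eq_mul]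
      _ ≤ ∑ f ∈ S, (∑ i, g (f i)) ^ 2 := by
          apply Finset.sum_le_sum
          intro f hf
          rw [hS, Finset.mem_filter] at hf
          have hX : C ≤ ((univ.filter fun i => f i ∈ B).card : ℤ) := by
            rw [hC]
            exact_mod_cast hf.2
          rw [hsum f]
          apply pow_le_pow_left₀
          · positivity
          · nlinarith
      _ ≤ ∑ f : Fin t → Ω, (∑ i, g (f i)) ^ 2 := by
          apply Finset.sum_le_sum_of_subset_of_nonneg (Finset.subset_univ _)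
          intro f _ _
          positivity
  have hgoal : C * (S.card : ℤ) ≤ 4 * N ^ t := by
    obtain ⟨P, hP⟩ : ∃ P : ℤ, P = N ^ t := ⟨_, rfl⟩
    have hP0 : 0 ≤ P := by rw [hP]; positivity
    rw [← hP] at hsm ⊢
    obtain ⟨s, hs⟩ : ∃ s : ℤ, s = (S.card : ℤ) := ⟨_, rfl⟩
    rw [← hs] at hlow ⊢
    obtain ⟨T, hT⟩ : ∃ T : ℤ, T = ∑ f : Fin t → Ω, (∑ i, g (f i)) ^ 2 := ⟨_, rfl⟩
    rw [← hT] at hlow hsm
    have hsm' : N * T = N * (2 * C * P * (a * (N - a))) := by
      rw [hsm]
      ring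
    have hT2 : T = 2 * C * P * (a * (N - a)) := mul_left_cancel₀ (ne_of_gt hN') hsm'
    have h4 : a * (N - a) ≤ 2 * (N - 2 * a) ^ 2 := by nlinarith
    have h5 : 0 < C * (N - 2 * a) ^ 2 := by positivity
    have h6 : s * (C * (N - 2 * a)) ^ 2 ≤ 2 * C * P * (2 * (N - 2 * a) ^ 2) := by
      refine hlow.trans ?_
      rw [hT2]
      exact mul_le_mul_of_nonneg_left h4 (by positivity)
    have h7 : (C * (N - 2 * a) ^ 2) * (C * s) ≤ (C * (N - 2 * a) ^ 2) * (4 * P) := by
      calc (C * (N - 2 * a) ^ 2) * (C * s) = s * (C * (N - 2 * a)) ^ 2 := by ring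
        _ ≤ 2 * C * P * (2 * (N - 2 * a) ^ 2) := h6
        _ = (C * (N - 2 * a) ^ 2) * (4 * P) := by ring
    exact le_of_mul_le_mul_left h7 h5
  have h8 : ((c * S.card : ℕ) : ℤ) ≤ ((4 * Fintype.card Ω ^ t : ℕ) : ℤ) := by
    push_cast
    rw [← hNdef, ← hC]
    exact hgoal
  exact Int.ofNat_le.mp h8

theorem len_chunk {p j m : ℕ} {r : List Bool} (hr : r.length = m * p) (hj : j < m) :
    ((r.drop (j * p)).take p).length = p := by
  rw [List.length_take, List.length_drop, hr]
  have h1 : (j + 1) * p ≤ m * p := Nat.mul_le_mul_right _ hj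
  rw [Nat.add_mul, one_mul] at h1
  omega

theorem chunk_of {p j m : ℕ} (hj : j < m) (r : Fin (m * p) → Bool) :
    ((List.ofFn r).drop (j * p)).take p =
      List.ofFn (fun l : Fin p => r (finProdFinEquiv (⟨j, hj⟩, l))) := by
  apply List.ext_getElem
  · rw [len_chunk (m := m) (by simp) hj]
    simp
  · intro k h1 h2
    simp only [List.getElem_take, List.getElem_drop, List.getElem_ofFn]
    congr 1
    apply Fin.ext
    simp [finProdFinEquiv]
    ring

open Classical in
theorem gen (m : ℕ) (E : List Bool → Prop) (b : Prop) (c t : ℕ) (hc : 0 < c) (ht : t = 2 * c)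
    (h : 3 * Nat.card {w : Fin m → Bool // ¬ (E (List.ofFn w) ↔ b)} ≤ 2 ^ m) :
    c * Nat.card {w : Fin (t * m) → Bool //
      ¬ (c < Set.ncard {i : ℕ | i < t ∧ E (((List.ofFn w).drop (i * m)).take m)} ↔ b)} ≤
      4 * 2 ^ (t * m) := by
  let e : (Fin (t * m) → Bool) ≃ (Fin t → Fin m → Bool) :=
    (Equiv.arrowCongr finProdFinEquiv.symm (Equiv.refl Bool)).trans (Equiv.curry _ _ _)
  have he : ∀ (r : Fin (t * m) → Bool) (j : Fin t),
      ((List.ofFn r).drop (j * m)).take m = List.ofFn (e r j) := by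
    intro r j
    rw [chunk_of j.2]
    rfl
  set B : Finset (Fin m → Bool) := univ.filter fun w => ¬ (E (List.ofFn w) ↔ b) with hB
  rw [Nat.card_eq_fintype_card, Fintype.card_subtype] at h
  have hcard : Fintype.card (Fin m → Bool) = 2 ^ m := by simp
  have h1 : 3 * B.card ≤ Fintype.card (Fin m → Bool) := by
    rw [hcard]
    exact h
  have h2 := cheb B h1 (by rw [hcard]; positivity) c t hc ht
  rw [hcard, ← pow_mul, mul_comm m t] at h2
  refine le_trans (Nat.mul_le_mul_left c ?_) h2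
  rw [Nat.card_eq_fintype_card, Fintype.card_subtype]
  apply Finset.card_le_card_of_injOn (fun w => e w)
  · intro w hw
    rw [Finset.mem_coe, Finset.mem_filter] at hw
    rw [Finset.mem_coe, Finset.mem_filter]
    refine ⟨mem_univ _, ?_⟩
    suffices hgoal : c ≤ (univ.filter fun i => e w i ∈ B).card by
      convert hgoal
    have hn : Set.ncard {i : ℕ | i < t ∧ E (((List.ofFn w).drop (i * m)).take m)} =
        (univ.filter fun i : Fin t => E (List.ofFn (e w i))).card := by
      have himg : {i : ℕ | i < t ∧ E (((List.ofFn w).drop (i * m)).take m)} =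
          (fun i : Fin t => (i : ℕ)) '' ((univ.filter fun i : Fin t => E (List.ofFn (e w i)) :
            Finset (Fin t)) : Set (Fin t)) := by
        ext i
        simp only [Set.mem_ofPred_eq, Set.mem_image, Finset.mem_coe, Finset.mem_filter,
          Finset.mem_univ, true_and]
        constructor
        · rintro ⟨hi, hE⟩
          refine ⟨⟨i, hi⟩, ?_, rfl⟩
          rw [← he]
          exact hE
        · rintro ⟨j, hj, rfl⟩
          refine ⟨j.2, ?_⟩
          rw [he]
          exact hj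
      rw [himg, Set.ncard_image_of_injective _ Fin.val_injective, Set.ncard_coe_finset]
    have hw2 := hw.2
    rw [hn] at hw2
    have hsplit : (univ.filter fun i : Fin t => E (List.ofFn (e w i))).card +
        (univ.filter fun i : Fin t => ¬ E (List.ofFn (e w i))).card = t := by
      rw [Finset.card_filter_add_card_filter_not]
      simp
    by_cases hb : b
    · have hle : ¬ (c < (univ.filter fun i : Fin t => E (List.ofFn (e w i))).card) := by
        intro hlt
        exact hw2 ⟨fun _ => hb, fun _ => hlt⟩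
      have heq : (univ.filter fun i => e w i ∈ B) =
          (univ.filter fun i : Fin t => ¬ E (List.ofFn (e w i))) := by
        ext i
        simp [hB, hb]
      rw [heq]
      omega
    · have hlt : c < (univ.filter fun i : Fin t => E (List.ofFn (e w i))).card := by
        by_contra hlt
        exact hw2 ⟨fun h => absurd h hlt, fun h => absurd h hb⟩
      have heq : (univ.filter fun i => e w i ∈ B) =
          (univ.filter fun i : Fin t => E (List.ofFn (e w i))) := by
        ext i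
        simp [hB, hb]
      rw [heq]
      omega
  · intro w _ w' _ hww
    exact e.injective hww

theorem amp (m : ℕ) (E : List Bool → Prop) (b : Prop)
    (h : 3 * Nat.card {w : Fin m → Bool // ¬ (E (List.ofFn w) ↔ b)} ≤ 2 ^ m) :
    256 * Nat.card {w : Fin (2048 * m) → Bool //
      ¬ (1024 < Set.ncard {i : ℕ | i < 2048 ∧ E (((List.ofFn w).drop (i * m)).take m)} ↔ b)} ≤
      2 ^ (2048 * m) := by
  have h1 := gen m E b 1024 2048 (by norm_num) (by norm_num) h
  obtain ⟨X, hX⟩ : ∃ X : ℕ, X = Nat.card {w : Fin (2048 * m) → Bool //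
      ¬ (1024 < Set.ncard {i : ℕ | i < 2048 ∧ E (((List.ofFn w).drop (i * m)).take m)} ↔ b)} :=
    ⟨_, rfl⟩
  rw [← hX] at h1 ⊢
  obtain ⟨Y, hY⟩ : ∃ Y : ℕ, Y = 2 ^ (2048 * m) := ⟨_, rfl⟩
  rw [← hY] at h1 ⊢
  omega

theorem task : Pool.Agent.W886.AM.S_AMP := fun m E b h => amp m E b h

end Pool.Agent.W446.AMAMP
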