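import Pool.Agent.W217.BE.Stm2

set_option autoImplicit false

namespace Pool.Agent.W446.BEG2FALSE

open Pool.Agent.W217.BE
open Polynomial

section chi

variable {A κ : Type} [CommRing A] [Field κ] (χ : A →+* κ) {k : ℕ}

/-- the evaluation of the variable 0 at 1 -/
noncomputable def gg (A : Type) [CommRing A] (k : ℕ) :
    MvPolynomial (Fin (k + 1)) A →+* MvPolynomial (Fin k) A :=
  (Polynomial.evalRingHom 1).comp
    ((MvPolynomial.finSuccEquiv A k).toRingEquiv.toRingHom)

theorem gg_apply (s : MvPolynomial (Fin (k + 1)) A) :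
    gg A k s = (MvPolynomial.finSuccEquiv A k s).eval 1 := rfl

theorem gg_C (a : A) : gg A k (MvPolynomial.C a) = MvPolynomial.C a := by
  rw [gg_apply, MvPolynomial.finSuccEquiv_apply, MvPolynomial.eval₂Hom_C]
  simp

theorem gg_X0 : gg A k (MvPolynomial.X 0) = 1 := by
  rw [gg_apply, MvPolynomial.finSuccEquiv_X_zero, Polynomial.eval_X]

theorem gg_X1 (j : Fin k) : gg A k (MvPolynomial.X j.succ) = MvPolynomial.X j := by
  rw [gg_apply, MvPolynomial.finSuccEquiv_X_succ, Polynomial.eval_C]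

theorem chi_gg (J : Fin (k + 1) → Bool) (hJ : J 0 = false) (s : MvPolynomial (Fin (k + 1)) A) :
    chiJ χ J s = chiJ χ (fun j => J (Fin.succ j)) (gg A k s) := by
  have h : chiJ χ J = (chiJ χ (fun j => J (Fin.succ j))).comp (gg A k) := by
    apply MvPolynomial.ringHom_ext
    · intro a
      rw [RingHom.comp_apply, gg_C]
      unfold chiJ
      rw [MvPolynomial.eval₂Hom_C, MvPolynomial.eval₂Hom_C]
    · intro i
      rw [RingHom.comp_apply]
      refine Fin.cases ?_ (fun j => ?_) i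
      · rw [gg_X0, map_one]
        unfold chiJ
        rw [MvPolynomial.eval₂Hom_X', hJ]
        simp
      · rw [gg_X1]
        unfold chiJ
        rw [MvPolynomial.eval₂Hom_X', MvPolynomial.eval₂Hom_X']
  rw [h, RingHom.comp_apply]

theorem gg_monomial (α : Fin (k + 1) →₀ ℕ) (a : A) :
    gg A k (MvPolynomial.monomial α a) = MvPolynomial.monomial α.tail a := by
  rw [MvPolynomial.monomial_eq, MvPolynomial.monomial_eq, map_mul, gg_C]
  congr 1
  rw [Finsupp.prod_fintype _ _ (fun i => pow_zero _), Finsupp.prod_fintype _ _ (fun i => pow_zero _),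
    map_prod, Fin.prod_univ_succ, map_pow, gg_X0, one_pow, one_mul]
  apply Finset.prod_congr rfl
  intro j _
  rw [map_pow, gg_X1]
  rfl

end chi

theorem cons_succ {k : ℕ} (t : ℤ) (b : Fin k → ℤ) (j : Fin k) :
    (Fin.cons t b : Fin (k + 1) → ℤ) + Pi.single j.succ 1 = Fin.cons t (b + Pi.single j 1) := by
  funext i
  refine Fin.cases ?_ (fun l => ?_) i
  · simp [(Fin.succ_ne_zero j).symm]
  · simp [Pi.single_apply]

theorem cons_zero {k : ℕ} (t : ℤ) (b : Fin k → ℤ) :
    (Fin.cons t b : Fin (k + 1) → ℤ) + Pi.single 0 1 = Fin.cons (t + 1) b := by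
  funext i
  refine Fin.cases ?_ (fun l => ?_) i
  · simp
  · simp

section sh

variable {A : Type} [CommRing A] {k : ℕ} {M : Type} [AddCommGroup M] [Module A M]
  [Module (MvPolynomial (Fin (k + 1)) A) M] (ℳ : (Fin (k + 1) → ℤ) → Submodule A M)
  (hX : ∀ j a x, x ∈ ℳ a →
      (MvPolynomial.X j : MvPolynomial (Fin (k + 1)) A) • x ∈ ℳ (a + Pi.single j 1))

include hX

theorem sh0s (t : ℤ) (j : Fin k) (x : M) (hx : x ∈ ⨆ b : Fin k → ℤ, ℳ (Fin.cons t b)) :
    (MvPolynomial.X j.succ : MvPolynomial (Fin (k + 1)) A) • x ∈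
      ⨆ b : Fin k → ℤ, ℳ (Fin.cons t b) := by
  refine Submodule.iSup_induction (fun b : Fin k → ℤ => ℳ (Fin.cons t b))
    (motive := fun x => (MvPolynomial.X j.succ : MvPolynomial (Fin (k + 1)) A) • x ∈
      ⨆ b : Fin k → ℤ, ℳ (Fin.cons t b)) hx ?_ ?_ ?_
  · intro b x hx
    have h := hX j.succ _ x hx
    rw [cons_succ] at h
    exact Submodule.mem_iSup_of_mem (p := fun b : Fin k → ℤ => ℳ (Fin.cons t b))
      (b + Pi.single j 1) h
  · rw [smul_zero]
    exact Submodule.zero_mem _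
  · intro x y hx hy
    rw [smul_add]
    exact Submodule.add_mem _ hx hy

theorem sh00 (t : ℤ) (x : M) (hx : x ∈ ⨆ b : Fin k → ℤ, ℳ (Fin.cons t b)) :
    (MvPolynomial.X 0 : MvPolynomial (Fin (k + 1)) A) • x ∈
      ⨆ b : Fin k → ℤ, ℳ (Fin.cons (t + 1) b) := by
  refine Submodule.iSup_induction (fun b : Fin k → ℤ => ℳ (Fin.cons t b))
    (motive := fun x => (MvPolynomial.X 0 : MvPolynomial (Fin (k + 1)) A) • x ∈
      ⨆ b : Fin k → ℤ, ℳ (Fin.cons (t + 1) b)) hx ?_ ?_ ?_
  · intro b x hx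
    have h := hX 0 _ x hx
    rw [cons_zero] at h
    exact Submodule.mem_iSup_of_mem (p := fun b : Fin k → ℤ => ℳ (Fin.cons (t + 1) b)) b h
  · rw [smul_zero]
    exact Submodule.zero_mem _
  · intro x y hx hy
    rw [smul_add]
    exact Submodule.add_mem _ hx hy

theorem sh1s (b b' : Fin k → ℤ) (j : Fin k) (hb : b' = b + Pi.single j 1) (x : M)
    (hx : x ∈ ⨆ t : ℤ, ℳ (Fin.cons t b)) :
    (MvPolynomial.X j.succ : MvPolynomial (Fin (k + 1)) A) • x ∈ ⨆ t : ℤ, ℳ (Fin.cons t b') := by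
  refine Submodule.iSup_induction (fun t : ℤ => ℳ (Fin.cons t b))
    (motive := fun x => (MvPolynomial.X j.succ : MvPolynomial (Fin (k + 1)) A) • x ∈
      ⨆ t : ℤ, ℳ (Fin.cons t b')) hx ?_ ?_ ?_
  · intro t x hx
    have h := hX j.succ _ x hx
    rw [cons_succ, ← hb] at h
    exact Submodule.mem_iSup_of_mem (p := fun t : ℤ => ℳ (Fin.cons t b')) t h
  · rw [smul_zero]
    exact Submodule.zero_mem _
  · intro x y hx hy
    rw [smul_add]
    exact Submodule.add_mem _ hx hy

theorem sh10 (b : Fin k → ℤ) (x : M) (hx : x ∈ ⨆ t : ℤ, ℳ (Fin.cons t b)) :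
    (MvPolynomial.X 0 : MvPolynomial (Fin (k + 1)) A) • x ∈
      ⨆ t : ℤ, ℳ (Fin.cons t b) := by
  refine Submodule.iSup_induction (fun t : ℤ => ℳ (Fin.cons t b))
    (motive := fun x => (MvPolynomial.X 0 : MvPolynomial (Fin (k + 1)) A) • x ∈
      ⨆ t : ℤ, ℳ (Fin.cons t b)) hx ?_ ?_ ?_
  · intro t x hx
    have h := hX 0 _ x hx
    rw [cons_zero] at h
    exact Submodule.mem_iSup_of_mem (p := fun t : ℤ => ℳ (Fin.cons t b)) (t + 1) h
  · rw [smul_zero]
    exact Submodule.zero_mem _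
  · intro x y hx hy
    rw [smul_add]
    exact Submodule.add_mem _ hx hy

end sh

theorem core (hISO : ISO) (hDEHOM : DEHOM) (hDNZ : DNZ) (hZREG : ZREG) (hREGR0 : REGR0)
    (hREGR1 : REGR1) (hQGR : QGR) (hINTCAR : INTCAR)
    (A κ : Type) [CommRing A] [Field κ] (χ : A →+* κ) (c k : ℕ)
    (J : Fin (k + 1) → Bool) (hJ : J 0 = false) (ih : G2 χ c (fun j => J (Fin.succ j)))
    (M : Type) [AddCommGroup M] [Module A M] [Module (MvPolynomial (Fin (k + 1)) A) M]
    [IsScalarTower A (MvPolynomial (Fin (k + 1)) A) M]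
    [Module.Finite (MvPolynomial (Fin (k + 1)) A) M]
    [Module (MvPolynomial (Fin k) A)[X] M] [Module (MvPolynomial (Fin k) A) M]
    [IsScalarTower (MvPolynomial (Fin k) A) (MvPolynomial (Fin k) A)[X] M]
    (hc : ∀ (s : MvPolynomial (Fin (k + 1)) A) (x : M), MvPolynomial.finSuccEquiv A k s • x = s • x)
    (M' : Type) [AddCommGroup M'] [Module A M'] [Module (MvPolynomial (Fin k) A) M']
    [IsScalarTower A (MvPolynomial (Fin k) A) M']
    (ρ : M →+ M') (hρs : Function.Surjective ρ)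
    (hρ : ∀ (s : (MvPolynomial (Fin k) A)[X]) x, ρ (s • x) = s.eval 1 • ρ x)
    (hker : ∀ x, ρ x = 0 → ∃ y, x = (X - 1 : (MvPolynomial (Fin k) A)[X]) • y)
    (ℳ : (Fin (k + 1) → ℤ) → Submodule A M) (hint : DirectSum.IsInternal ℳ)
    (hX : ∀ j a x, x ∈ ℳ a →
      (MvPolynomial.X j : MvPolynomial (Fin (k + 1)) A) • x ∈ ℳ (a + Pi.single j 1))
    (hNZ : NZ (chiJ χ J) M) (hNIL : NIL χ J M) (hBASE : BASEH χ c J M) :
    HB (chiJ χ J) M (fun i => (c + ∑ j, if J j = true then 1 else 0).choose i) := by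
  classical
  have hρR : ∀ (s : MvPolynomial (Fin (k + 1)) A) (x : M), ρ (s • x) = gg A k s • ρ x := by
    intro s x
    rw [← hc, hρ, gg_apply]
  have hA : ∀ (a : A) (x : M), a • x = (MvPolynomial.C a : MvPolynomial (Fin (k + 1)) A) • x := by
    intro a x
    rw [← MvPolynomial.algebraMap_eq, algebraMap_smul]
  have hA' : ∀ (a : A) (y : M'), a • y = (MvPolynomial.C a : MvPolynomial (Fin k) A) • y := by
    intro a x
    rw [← MvPolynomial.algebraMap_eq, algebraMap_smul]
  have hCX : ∀ (q : MvPolynomial (Fin k) A) (x : M),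
      q • x = (Polynomial.C q : (MvPolynomial (Fin k) A)[X]) • x := by
    intro q x
    rw [← Polynomial.algebraMap_eq, algebraMap_smul]
  have hCa : ∀ (a : A) (x : M), (MvPolynomial.C a : MvPolynomial (Fin k) A) • x = a • x := by
    intro a x
    rw [hCX, hA, ← hc]
    congr 1
    rw [MvPolynomial.finSuccEquiv_apply, MvPolynomial.eval₂Hom_C]
    rfl
  have hCj : ∀ (j : Fin k) (x : M), (MvPolynomial.X j : MvPolynomial (Fin k) A) • x =
      (MvPolynomial.X j.succ : MvPolynomial (Fin (k + 1)) A) • x := by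
    intro j x
    rw [hCX, ← hc, MvPolynomial.finSuccEquiv_X_succ]
  have hX0 : ∀ (x : M), (X : (MvPolynomial (Fin k) A)[X]) • x =
      (MvPolynomial.X 0 : MvPolynomial (Fin (k + 1)) A) • x := by
    intro x
    rw [← hc, MvPolynomial.finSuccEquiv_X_zero]
  -- regularity
  have hsm : ∀ (t : ℤ) (q : MvPolynomial (Fin k) A) (x : M),
      x ∈ (⨆ b : Fin k → ℤ, ℳ (Fin.cons t b)) → q • x ∈ (⨆ b : Fin k → ℤ, ℳ (Fin.cons t b)) := by
    intro t q
    induction q using MvPolynomial.induction_on with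
    | C a =>
      intro x hx
      rw [hCa]
      exact Submodule.smul_mem _ _ hx
    | add p q hp hq =>
      intro x hx
      rw [add_smul]
      exact Submodule.add_mem _ (hp x hx) (hq x hx)
    | mul_X p j hp =>
      intro x hx
      rw [mul_smul, hCj]
      exact hp _ (sh0s ℳ hX t j x hx)
  let N : ℤ → Submodule (MvPolynomial (Fin k) A) M := fun t =>
    { carrier := {x | x ∈ (⨆ b : Fin k → ℤ, ℳ (Fin.cons t b))}
      add_mem' := fun hx hy =>
        Submodule.add_mem (⨆ b : Fin k → ℤ, ℳ (Fin.cons t b)) hx hy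
      zero_mem' := Submodule.zero_mem (⨆ b : Fin k → ℤ, ℳ (Fin.cons t b))
      smul_mem' := fun q x hx => hsm t q x hx }
  have hN : DirectSum.IsInternal N :=
    hINTCAR A (MvPolynomial (Fin k) A) ℤ M (fun t => ⨆ b : Fin k → ℤ, ℳ (Fin.cons t b)) N
      (fun i x => Iff.rfl) (hREGR0 A k M ℳ hint).1
  have hreg : ∀ x : M, (X - 1 : (MvPolynomial (Fin k) A)[X]) • x = 0 → x = 0 := by
    refine hZREG (MvPolynomial (Fin k) A) M N hN ?_
    intro t x hx
    rw [hX0]
    exact sh00 ℳ hX t x hx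
  -- the grading of M'
  let φA : M →ₗ[A] M :=
    { toFun := fun x => (MvPolynomial.X 0 : MvPolynomial (Fin (k + 1)) A) • x - x
      map_add' := fun x y => by
        rw [smul_add]
        abel
      map_smul' := fun a x => by
        rw [RingHom.id_apply, smul_sub, hA a x, hA a, smul_smul, smul_smul, mul_comm] }
  let ρA : M →ₗ[A] M' :=
    { toFun := ρ
      map_add' := map_add ρ
      map_smul' := fun a x => by
        rw [RingHom.id_apply, hA a x, hρR, gg_C, ← hA'] }
  have hkerA : LinearMap.ker ρA = LinearMap.range φA := by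
    ext x
    rw [LinearMap.mem_ker, LinearMap.mem_range]
    constructor
    · intro h
      obtain ⟨y, hy⟩ := hker x h
      refine ⟨y, ?_⟩
      rw [hy, sub_smul, one_smul, hX0]
      rfl
    · rintro ⟨y, rfl⟩
      show ρ ((MvPolynomial.X 0 : MvPolynomial (Fin (k + 1)) A) • y - y) = 0
      rw [map_sub, hρR, gg_X0, one_smul, sub_self]
  have hD := hREGR1 A k M ℳ hint
  have hint' := hQGR A (Fin k → ℤ) M M' (fun b : Fin k → ℤ => ⨆ t : ℤ, ℳ (Fin.cons t b)) φA ρA hD
    (fun b x hx => Submodule.sub_mem _ (sh10 ℳ hX b x hx) hx) hρs hkerA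
  have hX' : ∀ (j : Fin k) (b b' : Fin k → ℤ) (hb : b' = b + Pi.single j 1) (y : M'),
      y ∈ (⨆ t : ℤ, ℳ (Fin.cons t b)).map ρA →
      (MvPolynomial.X j : MvPolynomial (Fin k) A) • y ∈
        (⨆ t : ℤ, ℳ (Fin.cons t b')).map ρA := by
    intro j b b' hb y hy
    obtain ⟨x, hx, rfl⟩ := hy
    refine ⟨(MvPolynomial.X j.succ : MvPolynomial (Fin (k + 1)) A) • x,
      sh1s ℳ hX b b' j hb x hx, ?_⟩
    show ρ _ = _ • ρ x
    rw [hρR, gg_X1]
  -- finiteness
  have hfin : Module.Finite (MvPolynomial (Fin k) A)[X] M := by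
    let σ : MvPolynomial (Fin (k + 1)) A →+* (MvPolynomial (Fin k) A)[X] :=
      (MvPolynomial.finSuccEquiv A k).toRingEquiv.toRingHom
    have : RingHomSurjective σ := ⟨(MvPolynomial.finSuccEquiv A k).surjective⟩
    let f : M →ₛₗ[σ] M :=
      { toFun := fun x => x
        map_add' := fun x y => rfl
        map_smul' := fun s x => (hc s x).symm }
    exact Module.Finite.of_surjective f (fun x => ⟨x, rfl⟩)
  have hfin' : Module.Finite (MvPolynomial (Fin k) A) M' := by
    let σ : (MvPolynomial (Fin k) A)[X] →+* MvPolynomial (Fin k) A := Polynomial.evalRingHom 1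
    have : RingHomSurjective σ := ⟨fun a => ⟨Polynomial.C a, Polynomial.eval_C⟩⟩
    let f : M →ₛₗ[σ] M' :=
      { toFun := ρ
        map_add' := map_add ρ
        map_smul' := fun s x => hρ s x }
    exact Module.Finite.of_surjective f hρs
  -- nonvanishing
  have hNZX : NZ ((chiJ χ (fun j => J (Fin.succ j))).comp (Polynomial.evalRingHom 1)) M := by
    obtain ⟨x, hx⟩ := hNZ
    refine ⟨x, fun s hs => ?_⟩
    have h1 := hx ((MvPolynomial.finSuccEquiv A k).symm s) ?_
    · rw [← hc, AlgEquiv.apply_symm_apply] at h1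
      exact h1
    · rw [chi_gg χ J hJ, gg_apply, AlgEquiv.apply_symm_apply]
      exact hs
  have hNZ' : NZ (chiJ χ (fun j => J (Fin.succ j))) M' :=
    hDNZ _ _ _ M M' ρ hρs hρ hker hNZX
  have hNIL' : NIL χ (fun j => J (Fin.succ j)) M' := by
    intro j hj
    obtain ⟨n, s, hs, hkill⟩ := hNIL j.succ hj
    refine ⟨n, gg A k s, ?_, ?_⟩
    · rw [← chi_gg χ J hJ]
      exact hs
    · intro y
      obtain ⟨x, rfl⟩ := hρs y
      have h := congrArg ρ (hkill x)
      rw [hρR, map_mul, map_pow, gg_X1, map_zero] at h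
      exact h
  have hBASE' : BASEH χ c (fun j => J (Fin.succ j)) M' := by
    intro N _ _ _ hNN hkil
    refine hBASE N hNN (fun a ha => hkil a ?_)
    obtain ⟨α, hα, hkill⟩ := ha
    refine ⟨α.tail, fun j hj => hα j.succ hj, fun y => ?_⟩
    obtain ⟨x, rfl⟩ := hρs y
    have h := congrArg ρ (hkill x)
    rw [hρR, gg_monomial, map_zero] at h
    exact h
  have hHB' := ih M' (fun b => (⨆ t : ℤ, ℳ (Fin.cons t b)).map ρA) hint'
    (fun j b y hy => hX' j b (b + Pi.single j 1) rfl y hy) hNZ' hNIL' hBASE'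
  have hHBX := hDEHOM _ _ _ M M' ρ _ hρs hρ hker hreg hHB'
  have hfinal := hISO (MvPolynomial (Fin k) A)[X] (MvPolynomial (Fin (k + 1)) A) κ
    (MvPolynomial.finSuccEquiv A k).symm.toRingEquiv
    ((chiJ χ (fun j => J (Fin.succ j))).comp (Polynomial.evalRingHom 1)) (chiJ χ J) M M
    (AddEquiv.refl M) _ ?_ ?_ hHBX
  · have hsum : (∑ j, if J j = true then 1 else 0) =
        ∑ j : Fin k, if J (Fin.succ j) = true then 1 else 0 := by
      rw [Fin.sum_univ_succ, hJ]
      simp
    rw [hsum]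
    exact hfinal
  · intro s
    rw [chi_gg χ J hJ, gg_apply]
    show chiJ χ _ (Polynomial.eval 1 (MvPolynomial.finSuccEquiv A k
      ((MvPolynomial.finSuccEquiv A k).symm s))) = _
    rw [AlgEquiv.apply_symm_apply]
    rfl
  · intro s x
    show s • x = (MvPolynomial.finSuccEquiv A k).symm s • x
    rw [← hc, AlgEquiv.apply_symm_apply]

theorem main : ISO → DEHOM → DNZ → ZREG → REGR0 → REGR1 → QGR → INTCAR → G2FALSE := by
  intro hISO hDEHOM hDNZ hZREG hREGR0 hREGR1 hQGR hINTCAR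
  intro A κ _ _ _ χ c k J hJ ih
  intro M _ _ _ _ _ ℳ hint hX hNZ hNIL hBASE
  letI iP : Module (MvPolynomial (Fin k) A)[X] M :=
    Module.compHom M ((MvPolynomial.finSuccEquiv A k).symm.toRingEquiv.toRingHom)
  letI iC : Module (MvPolynomial (Fin k) A) M :=
    Module.compHom M (Polynomial.C : MvPolynomial (Fin k) A →+* (MvPolynomial (Fin k) A)[X])
  have iT : IsScalarTower (MvPolynomial (Fin k) A) (MvPolynomial (Fin k) A)[X] M := by
    refine ⟨fun q p x => ?_⟩
    rw [Polynomial.smul_eq_C_mul, mul_smul]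
    rfl
  have hc : ∀ (s : MvPolynomial (Fin (k + 1)) A) (x : M),
      MvPolynomial.finSuccEquiv A k s • x = s • x := by
    intro s x
    show (MvPolynomial.finSuccEquiv A k).symm (MvPolynomial.finSuccEquiv A k s) • x = s • x
    rw [AlgEquiv.symm_apply_apply]
  let φ : M →ₗ[MvPolynomial (Fin k) A] M :=
    { toFun := fun x => (X - 1 : (MvPolynomial (Fin k) A)[X]) • x
      map_add' := fun x y => smul_add _ _ _
      map_smul' := fun q x => by
        rw [RingHom.id_apply]
        show (X - 1 : (MvPolynomial (Fin k) A)[X]) • ((Polynomial.C q :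
          (MvPolynomial (Fin k) A)[X]) • x) = (Polynomial.C q :
          (MvPolynomial (Fin k) A)[X]) • ((X - 1 : (MvPolynomial (Fin k) A)[X]) • x)
        rw [smul_smul, smul_smul, mul_comm] }
  letI iA : Module A (M ⧸ LinearMap.range φ) :=
    Module.compHom (M ⧸ LinearMap.range φ) (algebraMap A (MvPolynomial (Fin k) A))
  have iT' : IsScalarTower A (MvPolynomial (Fin k) A) (M ⧸ LinearMap.range φ) := by
    refine ⟨fun q p x => ?_⟩
    rw [Algebra.smul_def, mul_smul]
    rfl
  refine core hISO hDEHOM hDNZ hZREG hREGR0 hREGR1 hQGR hINTCAR A κ χ c k J hJ ih M hc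
    (M ⧸ LinearMap.range φ) (LinearMap.range φ).mkQ.toAddMonoidHom
    (Submodule.mkQ_surjective _) ?_ ?_ ℳ hint hX hNZ hNIL hBASE
  · -- semilinearity
    intro s x
    show (LinearMap.range φ).mkQ (s • x) = s.eval 1 • (LinearMap.range φ).mkQ x
    have h1 : s • x = (s.eval 1) • x + (s - Polynomial.C (s.eval 1)) • x := by
      rw [sub_smul]
      show s • x = (Polynomial.C (s.eval 1) : (MvPolynomial (Fin k) A)[X]) • x +
        (s • x - (Polynomial.C (s.eval 1) : (MvPolynomial (Fin k) A)[X]) • x)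
      abel
    rw [h1, map_add, map_smul]
    have h2 : (LinearMap.range φ).mkQ ((s - Polynomial.C (s.eval 1)) • x) = 0 := by
      rw [Submodule.mkQ_apply, Submodule.Quotient.mk_eq_zero]
      obtain ⟨q, hq⟩ := Polynomial.X_sub_C_dvd_sub_C_eval (a := (1 : MvPolynomial (Fin k) A))
        (p := s)
      refine ⟨q • x, ?_⟩
      show (X - 1 : (MvPolynomial (Fin k) A)[X]) • (q • x) = _
      rw [hq, smul_smul, Polynomial.C_1]
    rw [h2, add_zero]
  · intro x hx
    have hx' : (LinearMap.range φ).mkQ x = 0 := hx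
    rw [Submodule.mkQ_apply, Submodule.Quotient.mk_eq_zero] at hx'
    obtain ⟨y, hy⟩ := hx'
    exact ⟨y, hy.symm⟩

end Pool.Agent.W446.BEG2FALSE
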