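import Mathlib

/-!
# An algebraic criterion: congruence modulo a prime with a free commutative monoid algebra
-/

namespace Pool.Agent.W446.SC

open Module

variable {S A : Type} [CommRing A] [Algebra ℚ A] (e : Basis (Multiset S) ℚ A)
  (wt : Multiset S → ℕ)

/-- the lattice spanned by the basis vectors of weight `n` -/
def Lat (n : ℕ) : AddSubgroup A := AddSubgroup.closure {x | ∃ κ, wt κ = n ∧ e κ = x}

theorem lat_int {n : ℕ} {x : A} (hx : x ∈ Lat e wt n) (κ : Multiset S) :
    ∃ a : ℤ, e.repr x κ = a := by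
  classical
  unfold Lat at hx
  induction hx using AddSubgroup.closure_induction with
  | mem x h =>
    obtain ⟨μ, _, rfl⟩ := h
    rw [e.repr_self, Finsupp.single_apply]
    split_ifs
    · exact ⟨1, by simp⟩
    · exact ⟨0, by simp⟩
  | zero => exact ⟨0, by simp⟩
  | add x y _ _ hx hy =>
    obtain ⟨a, ha⟩ := hx
    obtain ⟨b, hb⟩ := hy
    exact ⟨a + b, by rw [map_add, Finsupp.add_apply, ha, hb]; push_cast; rfl⟩
  | neg x _ hx =>
    obtain ⟨a, ha⟩ := hx
    exact ⟨-a, by rw [map_neg, Finsupp.neg_apply, ha]; push_cast; rfl⟩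

theorem lat_span {n : ℕ} {x : A} (hx : x ∈ Lat e wt n) :
    x ∈ Submodule.span ℚ (Set.range fun κ : {κ // wt κ = n} => e κ.1) := by
  unfold Lat at hx
  induction hx using AddSubgroup.closure_induction with
  | mem x h =>
    obtain ⟨μ, hμ, rfl⟩ := h
    exact Submodule.subset_span ⟨⟨μ, hμ⟩, rfl⟩
  | zero => exact zero_mem _
  | add x y _ _ hx hy => exact add_mem hx hy
  | neg x _ hx => exact neg_mem hx

/-- the monomials in the elements `e {s}` -/
noncomputable def mon (μ : Multiset S) : A := (μ.map fun s => e {s}).prod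

variable {l : ℕ}

theorem lat_mul (hmul : ∀ μ ν, ∃ x ∈ Lat e wt (wt μ + wt ν), e μ * e ν = e (μ + ν) + (l : A) * x)
    (hadd : ∀ μ ν, wt (μ + ν) = wt μ + wt ν) {m n : ℕ} {x y : A} (hx : x ∈ Lat e wt m)
    (hy : y ∈ Lat e wt n) : x * y ∈ Lat e wt (m + n) := by
  unfold Lat at hx
  induction hx using AddSubgroup.closure_induction with
  | mem x h =>
    obtain ⟨μ, hμ, rfl⟩ := h
    unfold Lat at hy
    induction hy using AddSubgroup.closure_induction with
    | mem y h =>
      obtain ⟨ν, hν, rfl⟩ := h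
      obtain ⟨z, hz, h2⟩ := hmul μ ν
      rw [h2]
      refine add_mem (AddSubgroup.subset_closure ⟨μ + ν, by rw [hadd, hμ, hν], rfl⟩) ?_
      rw [hμ, hν] at hz
      rw [← nsmul_eq_mul]
      exact nsmul_mem hz _
    | zero => rw [mul_zero]; exact zero_mem _
    | add x y _ _ hx hy => rw [mul_add]; exact add_mem hx hy
    | neg x _ hx => rw [mul_neg]; exact neg_mem hx
  | zero => rw [zero_mul]; exact zero_mem _
  | add x y _ _ hx hy => rw [add_mul]; exact add_mem hx hy
  | neg x _ hx => rw [neg_mul]; exact neg_mem hx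

theorem mon_eq (hmul : ∀ μ ν, ∃ x ∈ Lat e wt (wt μ + wt ν), e μ * e ν = e (μ + ν) + (l : A) * x)
    (hadd : ∀ μ ν, wt (μ + ν) = wt μ + wt ν) (h1 : e 0 = 1) (μ : Multiset S) :
    ∃ x ∈ Lat e wt (wt μ), mon e μ = e μ + (l : A) * x := by
  induction μ using Multiset.induction with
  | empty => exact ⟨0, zero_mem _, by simp [mon, h1]⟩
  | cons s μ ih =>
    obtain ⟨x, hx, hμ⟩ := ih
    obtain ⟨y, hy, h2⟩ := hmul {s} μ
    have hw : wt (s ::ₘ μ) = wt {s} + wt μ := by rw [← hadd, Multiset.singleton_add]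
    refine ⟨y + e {s} * x, ?_, ?_⟩
    · rw [hw]
      exact add_mem hy (lat_mul e wt hmul hadd (AddSubgroup.subset_closure ⟨{s}, rfl, rfl⟩) hx)
    · have h3 : mon e (s ::ₘ μ) = e {s} * mon e μ := by
        unfold mon
        rw [Multiset.map_cons, Multiset.prod_cons]
      rw [h3, hμ, mul_add, h2, Multiset.singleton_add]
      ring

theorem mon_dvd (hl : 2 ≤ l)
    (hmon : ∀ μ, ∃ x ∈ Lat e wt (wt μ), mon e μ = e μ + (l : A) * x) (k : ℕ) :
    ∀ a : Multiset S →₀ ℤ, Finsupp.linearCombination ℤ (mon e) a = 0 →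
      ∀ κ, ((l : ℤ) ^ k) ∣ a κ := by
  classical
  induction k with
  | zero => intro a _ κ; simp
  | succ k ih =>
    intro a ha
    choose x hx hm using hmon
    choose b hb using fun μ κ => lat_int e wt (hx μ) κ
    have hl0 : (l : ℤ) ≠ 0 := by
      have : (0 : ℤ) < l := by exact_mod_cast (by omega : 0 < l)
      exact this.ne'
    -- divisibility by `l`
    have hdiv : ∀ κ, (l : ℤ) ∣ a κ := by
      intro κ
      have h1 := congrArg (fun y => e.repr y κ) ha
      simp only [Finsupp.linearCombination_apply, Finsupp.sum, map_sum, map_zero,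
        Finsupp.coe_zero, Pi.zero_apply, Finsupp.finsetSum_apply] at h1
      have h2 : ∀ μ, e.repr (a μ • mon e μ) κ =
          ((a μ * (if μ = κ then 1 else 0) + l * (a μ * b μ κ) : ℤ) : ℚ) := by
        intro μ
        rw [hm μ]
        have h3 : a μ • (e μ + (l : A) * x μ) =
            ((a μ : ℤ) : ℚ) • e μ + ((a μ : ℚ) * (l : ℚ)) • x μ := by
          rw [smul_add, mul_smul, Int.cast_smul_eq_zsmul, Nat.cast_smul_eq_nsmul,
            Int.cast_smul_eq_zsmul, nsmul_eq_mul]
        rw [h3, map_add, map_smul, map_smul, Finsupp.add_apply, Finsupp.smul_apply,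
          Finsupp.smul_apply, hb, e.repr_self, Finsupp.single_apply]
        push_cast
        simp only [smul_eq_mul]
        ring
      rw [Finset.sum_congr rfl (fun μ _ => h2 μ), ← Int.cast_sum, Finset.sum_add_distrib,
        ← Finset.mul_sum] at h1
      have h4 : ∑ μ ∈ a.support, a μ * (if μ = κ then 1 else 0) = a κ := by
        simp only [mul_ite, mul_one, mul_zero, Finset.sum_ite_eq', Finsupp.mem_support_iff]
        split_ifs with h
        · rfl
        · exact (not_not.1 h).symm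
      rw [h4] at h1
      have h5 : a κ + l * ∑ μ ∈ a.support, a μ * b μ κ = 0 := by exact_mod_cast h1
      exact ⟨-∑ μ ∈ a.support, a μ * b μ κ, by linear_combination h5⟩
    -- divide
    let a' : Multiset S →₀ ℤ := a.mapRange (fun z => z / l) (by simp)
    have ha' : a = (l : ℤ) • a' := by
      ext κ
      rw [Finsupp.smul_apply, Finsupp.mapRange_apply, smul_eq_mul]
      exact (Int.mul_ediv_cancel' (hdiv κ)).symm
    have h0 : Finsupp.linearCombination ℤ (mon e) a' = 0 := by
      rw [ha', map_smul] at ha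
      have h6 : ((l : ℤ) : ℚ) • Finsupp.linearCombination ℤ (mon e) a' = 0 := by
        rw [Int.cast_smul_eq_zsmul]
        exact ha
      have hl1 : ((l : ℤ) : ℚ) ≠ 0 := by exact_mod_cast hl0
      exact (smul_eq_zero.1 h6).resolve_left hl1
    intro κ
    rw [ha', Finsupp.smul_apply, smul_eq_mul, pow_succ']
    exact mul_dvd_mul_left _ (ih a' h0 κ)

theorem mon_linInd (hl : 2 ≤ l)
    (hmon : ∀ μ, ∃ x ∈ Lat e wt (wt μ), mon e μ = e μ + (l : A) * x) :
    LinearIndependent ℚ (mon e) := by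
  rw [← LinearIndependent.iff_fractionRing ℤ ℚ, linearIndependent_iff]
  intro a ha
  ext κ
  by_contra hne
  have h1 := fun k => mon_dvd e wt hl hmon k a ha κ
  have h2 : ∀ k : ℕ, (l : ℤ) ^ k ≤ |a κ| := fun k =>
    Int.le_of_dvd (abs_pos.2 hne) ((dvd_abs _ _).2 (h1 k))
  have h3 : ∀ k : ℕ, (k : ℤ) < (l : ℤ) ^ k := by
    intro k
    have : k < l ^ k := Nat.lt_pow_self (by omega)
    exact_mod_cast this
  have h4 := h3 (a κ).natAbs
  have h5 := h2 (a κ).natAbs
  have h6 : ((a κ).natAbs : ℤ) = |a κ| := Int.natCast_natAbs _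
  omega

theorem mon_span (hl : 2 ≤ l)
    (hmon : ∀ μ, ∃ x ∈ Lat e wt (wt μ), mon e μ = e μ + (l : A) * x)
    (hfin : ∀ n, {κ | wt κ = n}.Finite) : ⊤ ≤ Submodule.span ℚ (Set.range (mon e)) := by
  rw [← e.span_eq, Submodule.span_le]
  rintro _ ⟨κ, rfl⟩
  have hF : Fintype {μ // wt μ = wt κ} := (hfin (wt κ)).fintype
  let u : {μ // wt μ = wt κ} → A := fun μ => e μ.1
  let v : {μ // wt μ = wt κ} → A := fun μ => mon e μ.1
  have hu : LinearIndependent ℚ u := e.linearIndependent.comp _ Subtype.val_injective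
  have hv : LinearIndependent ℚ v := (mon_linInd e wt hl hmon).comp _ Subtype.val_injective
  have hle : Submodule.span ℚ (Set.range v) ≤ Submodule.span ℚ (Set.range u) := by
    rw [Submodule.span_le]
    rintro _ ⟨μ, rfl⟩
    obtain ⟨x, hx, h⟩ := hmon μ.1
    rw [μ.2] at hx
    change mon e μ.1 ∈ _
    rw [h]
    refine add_mem (Submodule.subset_span ⟨μ, rfl⟩) ?_
    rw [← nsmul_eq_mul]
    exact nsmul_mem (lat_span e wt hx) _
  have hfd : FiniteDimensional ℚ (Submodule.span ℚ (Set.range u)) :=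
    FiniteDimensional.span_of_finite ℚ (Set.finite_range u)
  have heq := Submodule.eq_of_le_of_finrank_le hle (by
    rw [finrank_span_eq_card hu, finrank_span_eq_card hv])
  have h1 : e κ ∈ Submodule.span ℚ (Set.range u) := Submodule.subset_span ⟨⟨κ, rfl⟩, rfl⟩
  rw [← heq] at h1
  refine Submodule.span_mono ?_ h1
  rintro _ ⟨μ, rfl⟩
  exact ⟨μ.1, rfl⟩

/-- the criterion -/
theorem aeval_bijective (hl : 2 ≤ l)
    (hmul : ∀ μ ν, ∃ x ∈ Lat e wt (wt μ + wt ν), e μ * e ν = e (μ + ν) + (l : A) * x)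
    (hadd : ∀ μ ν, wt (μ + ν) = wt μ + wt ν) (h1 : e 0 = 1)
    (hfin : ∀ n, {κ | wt κ = n}.Finite) :
    Function.Bijective (MvPolynomial.aeval (R := ℚ) fun s : S => e {s}) := by
  classical
  have hmon := mon_eq e wt hmul hadd h1
  let b : Basis (Multiset S) ℚ A := Basis.mk (mon_linInd e wt hl hmon) (mon_span e wt hl hmon hfin)
  let E := (MvPolynomial.basisMonomials S ℚ).equiv b (Multiset.toFinsupp (α := S)).symm.toEquiv
  have hE : (MvPolynomial.aeval (R := ℚ) fun s : S => e {s}).toLinearMap = E.toLinearMap := by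
    refine (MvPolynomial.basisMonomials S ℚ).ext fun d => ?_
    rw [LinearEquiv.coe_coe, Basis.equiv_apply, Basis.mk_apply, MvPolynomial.coe_basisMonomials,
      AlgHom.toLinearMap_apply, MvPolynomial.aeval_monomial, map_one, one_mul]
    change _ = mon e (Finsupp.toMultiset d)
    unfold mon
    rw [Finsupp.toMultiset_map, Finsupp.prod_toMultiset, Finsupp.prod_mapDomain_index]
    · intro s
      exact pow_zero _
    · intro s a c
      exact pow_add _ _ _
  have h2 : ⇑(MvPolynomial.aeval (R := ℚ) fun s : S => e {s}) = ⇑E := by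
    funext p
    exact LinearMap.congr_fun hE p
  rw [h2]
  exact E.bijective

end Pool.Agent.W446.SC
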