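import Pool.Agent.W446.SCFrame

/-!
# Counting factorisations
-/

namespace Pool.Agent.W446.SC

variable {F : Type} [Field F]

section one

variable {Q : Type} [AddCommGroup Q] [Module F Q]
variable {Q' : Type} [AddCommGroup Q'] [Module F Q']

theorem Framed.map {z : GLInf F} {g : Q ≃ₗ[F] Q} {g' : Q' ≃ₗ[F] Q'} {p : V F →ₗ[F] Q}
    {i : Q →ₗ[F] V F} (h : Framed z g p i) (k : Q ≃ₗ[F] Q') (hk : ∀ q, k (g q) = g' (k q)) :
    Framed z g' (k.toLinearMap ∘ₗ p) (i ∘ₗ k.symm.toLinearMap) := by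
  refine ⟨fun v => ?_, fun q => ?_⟩
  · simp only [LinearMap.comp_apply, LinearEquiv.coe_coe, LinearEquiv.symm_apply_apply, h.a]
  · simp only [LinearMap.comp_apply, LinearEquiv.coe_coe, h.b, map_sub, hk,
      LinearEquiv.apply_symm_apply]

theorem cls_eq_iff [Module.Finite F Q] [Module.Finite F Q'] {g : Q ≃ₗ[F] Q}
    {g' : Q' ≃ₗ[F] Q'} : cls g = cls g' ↔ ∃ k : Q ≃ₗ[F] Q', ∀ q, k (g q) = g' (k q) := by
  constructor
  · intro h
    have h1 := std_framed (Module.finBasis F Q) 0 g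
    have h2 : ConjClasses.mk (std (Module.finBasis F Q) 0 g) = cls g' := h
    obtain ⟨hl, p', i', h3⟩ := mk_eq_cls_iff.1 h2
    have hr : Module.finrank F Q = Module.finrank F Q' := by rw [← hl, len_std]
    obtain ⟨hp', hi'⟩ := surj_inj h3.a hl.ge
    obtain ⟨k, hk1, hk2⟩ := framings_torsor hr h1.a h3.a (std_surj _ 0 g) hp' hi'
    refine ⟨k, fun q => ?_⟩
    have e1 := h3.b (k q)
    rw [hk2, hk1, h1.b, map_sub] at e1
    exact sub_left_injective e1
  · rintro ⟨k, hk⟩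
    have h1 := (std_framed (Module.finBasis F Q) 0 g).map k hk
    exact mk_eq_cls_iff.2 ⟨by rw [len_std, k.finrank_eq], _, _, h1⟩

/-- the centraliser of `g` -/
def Cent (g : Q ≃ₗ[F] Q) : Type := {k : Q ≃ₗ[F] Q // ∀ q, k (g q) = g (k q)}

/-- the order of the centraliser of `g` -/
noncomputable def cent (g : Q ≃ₗ[F] Q) : ℕ := Nat.card (Cent g)

theorem cent_eq_of_conj {g : Q ≃ₗ[F] Q} {g' : Q' ≃ₗ[F] Q'} (k : Q ≃ₗ[F] Q')
    (hk : ∀ q, k (g q) = g' (k q)) : cent g = cent g' := by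
  have hk' : ∀ q, k.symm (g' q) = g (k.symm q) := fun q => by
    apply k.injective
    rw [hk, k.apply_symm_apply, k.apply_symm_apply]
  refine Nat.card_congr
    { toFun := fun x => ⟨k.symm.trans (x.1.trans k), fun q => ?_⟩
      invFun := fun x => ⟨k.trans (x.1.trans k.symm), fun q => ?_⟩
      left_inv := fun x => ?_
      right_inv := fun x => ?_ }
  · simp only [LinearEquiv.trans_apply, hk', x.2, hk]
  · simp only [LinearEquiv.trans_apply, hk', x.2, hk]
  · apply Subtype.ext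
    ext q
    simp
  · apply Subtype.ext
    ext q
    simp

/-- the framings of type `g` -/
def Fr (z : GLInf F) (g : Q ≃ₗ[F] Q) : Type :=
  {t : (V F →ₗ[F] Q) × (Q →ₗ[F] V F) // Framed z g t.1 t.2}

theorem card_fr_pos [Module.Finite F Q] {z : GLInf F} {g : Q ≃ₗ[F] Q}
    (h : ConjClasses.mk z = cls g) : Nat.card (Fr z g) = cent g := by
  obtain ⟨hl, p, i, hf⟩ := mk_eq_cls_iff.1 h
  obtain ⟨hp, hi⟩ := surj_inj hf.a hl.ge
  symm
  refine Nat.card_eq_of_bijective
    (fun x : Cent g => (⟨(x.1.toLinearMap ∘ₗ p, i ∘ₗ x.1.symm.toLinearMap),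
      hf.map x.1 x.2⟩ : Fr z g)) ⟨?_, ?_⟩
  · intro x y hxy
    have h1 := congrArg (fun t => t.1.1) hxy
    apply Subtype.ext
    ext q
    obtain ⟨v, rfl⟩ := hp q
    exact congrArg (fun f => f v) h1
  · rintro ⟨⟨p', i'⟩, hf'⟩
    obtain ⟨hp', hi'⟩ := surj_inj hf'.a hl.ge
    obtain ⟨k, hk1, hk2⟩ := framings_torsor rfl hf.a hf'.a hp hp' hi'
    have hk : ∀ q, k (g q) = g (k q) := fun q => by
      have e1 := hf'.b (k q)
      simp only at e1 hk1 hk2
      rw [hk2, hk1, hf.b, map_sub] at e1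
      exact sub_left_injective e1
    refine ⟨⟨k, hk⟩, Subtype.ext (Prod.ext ?_ ?_)⟩
    · exact LinearMap.ext fun v => (hk1 v).symm
    · refine LinearMap.ext fun q => ?_
      have := hk2 (k.symm q)
      simp only [LinearEquiv.apply_symm_apply] at this
      exact this.symm

theorem isEmpty_fr [Module.Finite F Q] {z : GLInf F} {g : Q ≃ₗ[F] Q}
    (hl : len z = Module.finrank F Q) (h : ConjClasses.mk z ≠ cls g) : IsEmpty (Fr z g) :=
  ⟨fun t => h (mk_eq_cls_iff.2 ⟨hl, t.1.1, t.1.2, t.2⟩)⟩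

theorem finite_cent [Finite F] [Module.Finite F Q] (g : Q ≃ₗ[F] Q) : Finite (Cent g) := by
  have : Finite Q := Module.finite_of_finite F
  have : Finite (Q ≃ₗ[F] Q) := Finite.of_injective (fun e => (e : Q → Q)) DFunLike.coe_injective
  exact Subtype.finite

theorem cent_pos [Finite F] [Module.Finite F Q] (g : Q ≃ₗ[F] Q) : 0 < cent g := by
  have := finite_cent g
  have : Nonempty (Cent g) := ⟨⟨LinearEquiv.refl F Q, fun q => rfl⟩⟩
  exact Nat.card_pos

theorem finite_fr [Finite F] [Module.Finite F Q] {z : GLInf F} {g : Q ≃ₗ[F] Q}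
    (hl : len z = Module.finrank F Q) : Finite (Fr z g) := by
  by_cases h : ConjClasses.mk z = cls g
  · apply Nat.finite_of_card_ne_zero
    rw [card_fr_pos h]
    exact (cent_pos g).ne'
  · have := isEmpty_fr hl h
    infer_instance

end one

section two

theorem prodApp {M N P : Type} [AddCommGroup M] [Module F M] [AddCommGroup N] [Module F N]
    [AddCommGroup P] [Module F P] (f : M →ₗ[F] N) (g : M →ₗ[F] P) (v : M) :
    (f.prod g) v = (f v, g v) := rfl

variable {A : Type} [AddCommGroup A] [Module F A]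
variable {B : Type} [AddCommGroup B] [Module F B]

/-- the automorphism `[[c + s r, s d], [r, d]]` of `B × A` -/
noncomputable def gmat (c : B ≃ₗ[F] B) (d : A ≃ₗ[F] A) (r : B →ₗ[F] A) (s : A →ₗ[F] B) :
    (B × A) ≃ₗ[F] (B × A) :=
  LinearEquiv.ofLinearMap
    ((c.toLinearMap ∘ₗ LinearMap.fst F B A +
        s ∘ₗ (r ∘ₗ LinearMap.fst F B A + d.toLinearMap ∘ₗ LinearMap.snd F B A)).prod
      (r ∘ₗ LinearMap.fst F B A + d.toLinearMap ∘ₗ LinearMap.snd F B A))
    ((c.symm.toLinearMap ∘ₗ (LinearMap.fst F B A - s ∘ₗ LinearMap.snd F B A)).prod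
      (d.symm.toLinearMap ∘ₗ (LinearMap.snd F B A -
        r ∘ₗ c.symm.toLinearMap ∘ₗ (LinearMap.fst F B A - s ∘ₗ LinearMap.snd F B A))))
    (by
      refine LinearMap.ext fun x => ?_
      obtain ⟨x, y⟩ := x
      simp)
    (by
      refine LinearMap.ext fun x => ?_
      obtain ⟨x, y⟩ := x
      simp)

theorem gmat_apply (c : B ≃ₗ[F] B) (d : A ≃ₗ[F] A) (r : B →ₗ[F] A) (s : A →ₗ[F] B) (x : B × A) :
    gmat c d r s x = (c x.1 + s (r x.1 + d x.2), r x.1 + d x.2) := rfl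

/-- the left side of the bijection -/
def Lhs (c : B ≃ₗ[F] B) (d : A ≃ₗ[F] A) (z : GLInf F) : Type :=
  {t : (GLInf F × GLInf F) ×
      (((V F →ₗ[F] B) × (B →ₗ[F] V F)) × ((V F →ₗ[F] A) × (A →ₗ[F] V F))) //
    t.1.1 * t.1.2 = z ∧ Framed t.1.1 c t.2.1.1 t.2.1.2 ∧ Framed t.1.2 d t.2.2.1 t.2.2.2}

/-- the right side of the bijection -/
def Rhs (c : B ≃ₗ[F] B) (d : A ≃ₗ[F] A) (z : GLInf F) : Type :=
  {t : ((B →ₗ[F] A) × (A →ₗ[F] B)) × ((V F →ₗ[F] B × A) × (B × A →ₗ[F] V F)) //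
    Framed z (gmat c d t.1.1 t.1.2) t.2.1 t.2.2}

/-- the map from left to right -/
noncomputable def toRhs (c : B ≃ₗ[F] B) (d : A ≃ₗ[F] A) (z : GLInf F) (t : Lhs c d z) :
    Rhs c d z :=
  ⟨((t.1.2.2.1 ∘ₗ t.1.2.1.2, t.1.2.1.1 ∘ₗ t.1.2.2.2),
    ((t.1.2.1.1 + (t.1.2.1.1 ∘ₗ t.1.2.2.2) ∘ₗ t.1.2.2.1).prod t.1.2.2.1,
      t.1.2.1.2.coprod t.1.2.2.2)), by
    obtain ⟨⟨⟨x, y⟩, ⟨⟨p1, i1⟩, ⟨p2, i2⟩⟩⟩, hxy, h1, h2⟩ := t
    simp only at hxy h1 h2 ⊢
    refine ⟨fun v => ?_, fun q => ?_⟩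
    · have hz : z.1 v = x.1 (y.1 v) := by rw [← hxy]; rfl
      have e2 : y.1 v = v + i2 (p2 v) := by rw [h2.a]; abel
      have e1 : x.1 (y.1 v) = y.1 v + i1 (p1 (y.1 v)) := by rw [h1.a]; abel
      rw [hz, e1, e2]
      simp only [prodApp, LinearMap.add_apply, LinearMap.comp_apply,
        LinearMap.coprod_apply, map_add]
      abel
    · obtain ⟨x', y'⟩ := q
      rw [gmat_apply]
      simp only [prodApp, LinearMap.add_apply, LinearMap.comp_apply,
        LinearMap.coprod_apply, map_add, h1.b, h2.b, map_sub, Prod.mk_sub_mk, Prod.mk_add_mk, Prod.mk.injEq]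
      constructor <;> abel⟩

theorem toRhs_injective (c : B ≃ₗ[F] B) (d : A ≃ₗ[F] A) (z : GLInf F) :
    Function.Injective (toRhs c d z) := by
  rintro ⟨⟨⟨x, y⟩, ⟨⟨p1, i1⟩, ⟨p2, i2⟩⟩⟩, hxy, h1, h2⟩
    ⟨⟨⟨x', y'⟩, ⟨⟨p1', i1'⟩, ⟨p2', i2'⟩⟩⟩, hxy', h1', h2'⟩ h
  have h := congrArg Subtype.val h
  simp only [toRhs, Prod.mk.injEq] at h
  obtain ⟨⟨hr, hs⟩, hp, hi⟩ := h
  simp only at hxy h1 h2 hxy' h1' h2'
  have hp2 : p2 = p2' := LinearMap.ext fun v => by
    have := congrArg (fun f => (f v).2) hp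
    simpa using this
  have hi1 : i1 = i1' := LinearMap.ext fun v => by
    have := congrArg (fun f => f (v, 0)) hi
    simpa using this
  have hi2 : i2 = i2' := LinearMap.ext fun v => by
    have := congrArg (fun f => f (0, v)) hi
    simpa using this
  have hp1 : p1 = p1' := LinearMap.ext fun v => by
    have := congrArg (fun f => (f v).1) hp
    simp only [prodApp, LinearMap.add_apply] at this
    rw [hs, hp2] at this
    exact add_left_injective _ this
  subst hp2 hi1 hi2 hp1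
  have hx : x = x' := GLInf.ext' fun v => by
    have a1 := h1.a v
    rw [h1'.a] at a1
    exact (sub_left_injective a1).symm
  have hy : y = y' := GLInf.ext' fun v => by
    have a1 := h2.a v
    rw [h2'.a] at a1
    exact (sub_left_injective a1).symm
  subst hx hy
  rfl

theorem toRhs_surjective [Module.Finite F A] [Module.Finite F B] (c : B ≃ₗ[F] B)
    (d : A ≃ₗ[F] A) {z : GLInf F} (hz : len z = Module.finrank F (B × A)) :
    Function.Surjective (toRhs c d z) := by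
  rintro ⟨⟨⟨r, s⟩, ⟨p, i⟩⟩, h⟩
  simp only at h
  obtain ⟨hp, hi⟩ := surj_inj h.a hz.ge
  obtain ⟨n, hn⟩ := z.2
  have hkill := h.kill hi hn
  have hlow := h.low hp hn
  set p2 : V F →ₗ[F] A := LinearMap.snd F B A ∘ₗ p with hp2
  set p1 : V F →ₗ[F] B := LinearMap.fst F B A ∘ₗ p - s ∘ₗ p2 with hp1
  set i1 : B →ₗ[F] V F := i ∘ₗ LinearMap.inl F B A with hi1
  set i2 : A →ₗ[F] V F := i ∘ₗ LinearMap.inr F B A with hi2
  have hb1 : ∀ x : B, p (i1 x) = (c x - x + s (r x), r x) := fun x => by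
    rw [hi1, LinearMap.comp_apply, h.b, gmat_apply]
    ext
    · simp
      abel
    · simp
  have hb2 : ∀ y : A, p (i2 y) = (s (d y), d y - y) := fun y => by
    rw [hi2, LinearMap.comp_apply, h.b, gmat_apply]
    ext <;> simp
  have b11 : ∀ x, p1 (i1 x) = c x - x := fun x => by
    rw [hp1, hp2]
    simp [hb1]
  have b21 : ∀ x, p2 (i1 x) = r x := fun x => by
    rw [hp2]
    simp [hb1]
  have b22 : ∀ y, p2 (i2 y) = d y - y := fun y => by
    rw [hp2]
    simp [hb2]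
  have b12 : ∀ y, p1 (i2 y) = s y := fun y => by
    rw [hp1, hp2]
    simp [hb2]
  have hk2 : Kill n p2 := fun j hj => by
    rw [hp2, LinearMap.comp_apply, hkill j hj, map_zero]
  have hk1 : Kill n p1 := fun j hj => by
    rw [hp1, LinearMap.sub_apply, LinearMap.comp_apply, LinearMap.comp_apply, hk2 j hj,
      hkill j hj, map_zero, map_zero, sub_zero]
  have hl1 : Low n i1 := fun q j hj => hlow _ j hj
  have hl2 : Low n i2 := fun q j hj => hlow _ j hj
  have hps : ∀ v, p v = (p1 v + s (p2 v), p2 v) := fun v => by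
    rw [hp1, hp2]
    ext <;> simp
  have his : ∀ x y, i (x, y) = i1 x + i2 y := fun x y => by
    rw [hi1, hi2, LinearMap.comp_apply, LinearMap.comp_apply, ← map_add]
    simp
  refine ⟨⟨((mkG p1 i1 c b11 n hl1 hk1, mkG p2 i2 d b22 n hl2 hk2), ((p1, i1), (p2, i2))),
    ?_, framed_mkG p1 i1 c b11 n hl1 hk1, framed_mkG p2 i2 d b22 n hl2 hk2⟩, ?_⟩
  · refine GLInf.ext' fun v => ?_
    have e1 : (mkG p1 i1 c b11 n hl1 hk1 * mkG p2 i2 d b22 n hl2 hk2).1 v =
      (mkG p1 i1 c b11 n hl1 hk1).1 ((mkG p2 i2 d b22 n hl2 hk2).1 v) := rfl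
    have e2 : z.1 v = v + i (p v) := by rw [h.a]; abel
    simp only
    rw [e1, mkG_apply, mkG_apply, e2, hps, his, map_add, map_add, map_add, b12]
    abel
  · apply Subtype.ext
    simp only [toRhs]
    have hs : p1 ∘ₗ i2 = s := LinearMap.ext b12
    have hr : p2 ∘ₗ i1 = r := LinearMap.ext b21
    rw [hs, hr]
    refine Prod.ext rfl (Prod.ext ?_ ?_)
    · refine LinearMap.ext fun v => ?_
      simp only [prodApp, LinearMap.add_apply, LinearMap.comp_apply]
      exact (hps v).symm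
    · refine LinearMap.ext fun v => ?_
      obtain ⟨x, y⟩ := v
      simp only [LinearMap.coprod_apply]
      exact (his x y).symm

theorem card_lhs_eq [Module.Finite F A] [Module.Finite F B] (c : B ≃ₗ[F] B)
    (d : A ≃ₗ[F] A) {z : GLInf F} (hz : len z = Module.finrank F (B × A)) :
    Nat.card (Lhs c d z) = Nat.card (Rhs c d z) :=
  Nat.card_eq_of_bijective _ ⟨toRhs_injective c d z, toRhs_surjective c d hz⟩

end two

theorem len_mul_le (x y : GLInf F) : len (x * y) ≤ len x + len y := by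
  have h1 : LinearMap.range (defect (x * y)) ≤
      LinearMap.range (defect x) ⊔ LinearMap.range (defect y) := by
    rintro _ ⟨v, rfl⟩
    have h2 : defect (x * y) v = defect x (y.1 v) + defect y v := by
      simp only [defect_apply]
      have : (x * y).1 v = x.1 (y.1 v) := rfl
      rw [this]
      abel
    rw [h2]
    exact add_mem (Submodule.mem_sup_left ⟨_, rfl⟩) (Submodule.mem_sup_right ⟨_, rfl⟩)
  have hx := finite_range x
  have hy := finite_range y
  have hs : Module.Finite F ↥(LinearMap.range (defect x) ⊔ LinearMap.range (defect y)) :=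
    Submodule.finiteDimensional_sup _ _
  have h3 : len (x * y) ≤
      Module.finrank F ↥(LinearMap.range (defect x) ⊔ LinearMap.range (defect y)) :=
    Submodule.finrank_mono h1
  have h4 := Submodule.finrank_add_le_finrank_add_finrank (LinearMap.range (defect x))
    (LinearMap.range (defect y))
  exact h3.trans h4

theorem len_le_of_factor {Q : Type} [AddCommGroup Q] [Module F Q] [Module.Finite F Q]
    {z : GLInf F} {p : V F →ₗ[F] Q} {i : Q →ₗ[F] V F} (h : ∀ v, i (p v) = z.1 v - v) :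
    len z ≤ Module.finrank F Q := by
  have h1 : LinearMap.range (defect z) ≤ LinearMap.range i := by
    rintro _ ⟨v, rfl⟩
    exact ⟨p v, h v⟩
  have hfi : Module.Finite F (LinearMap.range i) := Module.Finite.range i
  exact (Submodule.finrank_mono h1).trans (LinearMap.finrank_range_le i)

section three

variable {A : Type} [AddCommGroup A] [Module F A] [Module.Finite F A]
variable {B : Type} [AddCommGroup B] [Module F B] [Module.Finite F B]

/-- `Rhs` as a disjoint union -/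
def rhsEquiv (c : B ≃ₗ[F] B) (d : A ≃ₗ[F] A) (z : GLInf F) :
    Rhs c d z ≃ Σ rs : (B →ₗ[F] A) × (A →ₗ[F] B), Fr z (gmat c d rs.1 rs.2) where
  toFun t := ⟨t.1.1, ⟨t.1.2, t.2⟩⟩
  invFun t := ⟨(t.1, t.2.1), t.2.2⟩
  left_inv _ := rfl
  right_inv _ := rfl

/-- the pairs `(x, y)` in the classes of `c` and `d` with product `z` -/
def Idx (c : B ≃ₗ[F] B) (d : A ≃ₗ[F] A) (z : GLInf F) : Type :=
  {p : GLInf F × GLInf F //
    ConjClasses.mk p.1 = cls c ∧ ConjClasses.mk p.2 = cls d ∧ p.1 * p.2 = z}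

theorem lhs_cls {c : B ≃ₗ[F] B} {d : A ≃ₗ[F] A} {z : GLInf F}
    (hz : len z = Module.finrank F (B × A)) (t : Lhs c d z) :
    ConjClasses.mk t.1.1.1 = cls c ∧ ConjClasses.mk t.1.1.2 = cls d := by
  obtain ⟨⟨⟨x, y⟩, ⟨⟨p1, i1⟩, ⟨p2, i2⟩⟩⟩, hxy, h1, h2⟩ := t
  simp only at hxy h1 h2 ⊢
  have e1 := len_le_of_factor h1.a
  have e2 := len_le_of_factor h2.a
  have e3 := len_mul_le x y
  rw [hxy, hz, Module.finrank_prod] at e3
  exact ⟨mk_eq_cls_iff.2 ⟨by omega, _, _, h1⟩, mk_eq_cls_iff.2 ⟨by omega, _, _, h2⟩⟩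

/-- `Lhs` as a disjoint union -/
def lhsEquiv (c : B ≃ₗ[F] B) (d : A ≃ₗ[F] A) (z : GLInf F)
    (hz : len z = Module.finrank F (B × A)) :
    Lhs c d z ≃ Σ p : Idx c d z, Fr p.1.1 c × Fr p.1.2 d where
  toFun t := ⟨⟨t.1.1, (lhs_cls hz t).1, (lhs_cls hz t).2, t.2.1⟩,
    ⟨t.1.2.1, t.2.2.1⟩, ⟨t.1.2.2, t.2.2.2⟩⟩
  invFun t := ⟨(t.1.1, (t.2.1.1, t.2.2.1)), t.1.2.2.2, t.2.1.2, t.2.2.2⟩
  left_inv _ := rfl
  right_inv _ := rfl

variable [Finite F]

theorem finite_hom {M N : Type} [AddCommGroup M] [Module F M] [AddCommGroup N] [Module F N]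
    [Module.Finite F M] [Module.Finite F N] : Finite (M →ₗ[F] N) := by
  have : Finite M := Module.finite_of_finite F
  have : Finite N := Module.finite_of_finite F
  exact Finite.of_injective (fun e => (e : M → N)) DFunLike.coe_injective

theorem finite_rhs (c : B ≃ₗ[F] B) (d : A ≃ₗ[F] A) {z : GLInf F}
    (hz : len z = Module.finrank F (B × A)) : Finite (Rhs c d z) := by
  have h1 : Finite (B →ₗ[F] A) := finite_hom
  have h2 : Finite (A →ₗ[F] B) := finite_hom
  have h3 : ∀ rs : (B →ₗ[F] A) × (A →ₗ[F] B), Finite (Fr z (gmat c d rs.1 rs.2)) :=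
    fun rs => finite_fr hz
  exact Finite.of_equiv _ (rhsEquiv c d z).symm

theorem card_lhs (c : B ≃ₗ[F] B) (d : A ≃ₗ[F] A) {z : GLInf F}
    (hz : len z = Module.finrank F (B × A)) :
    Nat.card (Lhs c d z) = numFact (cls c) (cls d) z * (cent c * cent d) := by
  have hR := finite_rhs c d hz
  have hL : Finite (Lhs c d z) := Finite.of_injective _ (toRhs_injective c d z)
  have hS : Finite (Σ p : Idx c d z, Fr p.1.1 c × Fr p.1.2 d) :=
    Finite.of_equiv _ (lhsEquiv c d z hz)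
  have hcard : ∀ p : Idx c d z, Nat.card (Fr p.1.1 c × Fr p.1.2 d) = cent c * cent d := by
    intro p
    rw [Nat.card_prod, card_fr_pos p.2.1, card_fr_pos p.2.2.1]
  have hne : ∀ p : Idx c d z, Nonempty (Fr p.1.1 c × Fr p.1.2 d) := by
    intro p
    have : 0 < Nat.card (Fr p.1.1 c × Fr p.1.2 d) := by
      rw [hcard]
      exact Nat.mul_pos (cent_pos c) (cent_pos d)
    exact (Nat.card_pos_iff.1 this).1
  have hI : Finite (Idx c d z) := by
    refine Finite.of_surjective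
      (Sigma.fst : (Σ p : Idx c d z, Fr p.1.1 c × Fr p.1.2 d) → Idx c d z) ?_
    intro p
    obtain ⟨x⟩ := hne p
    exact ⟨⟨p, x⟩, rfl⟩
  let _ : Fintype (Idx c d z) := Fintype.ofFinite _
  have hfin : ∀ p : Idx c d z, Finite (Fr p.1.1 c × Fr p.1.2 d) := by
    intro p
    apply Nat.finite_of_card_ne_zero
    rw [hcard]
    exact (Nat.mul_pos (cent_pos c) (cent_pos d)).ne'
  rw [Nat.card_congr (lhsEquiv c d z hz), Nat.card_sigma, Finset.sum_congr rfl
    (fun p _ => hcard p), Finset.sum_const, Finset.card_univ, smul_eq_mul,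
    ← Nat.card_eq_fintype_card]
  rfl

/-- the number of `(r, s)` such that `[[c + s r, s d], [r, d]]` lies in the class `E` -/
noncomputable def cnt (c : B ≃ₗ[F] B) (d : A ≃ₗ[F] A) (E : ConjClasses (GLInf F)) : ℕ :=
  Nat.card {rs : (B →ₗ[F] A) × (A →ₗ[F] B) // cls (gmat c d rs.1 rs.2) = E}

theorem card_rhs {Q : Type} [AddCommGroup Q] [Module F Q] [Module.Finite F Q]
    (c : B ≃ₗ[F] B) (d : A ≃ₗ[F] A) {z : GLInf F} (g : Q ≃ₗ[F] Q)
    (hg : ConjClasses.mk z = cls g)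
    (hz : len z = Module.finrank F (B × A)) :
    Nat.card (Rhs c d z) = cnt c d (ConjClasses.mk z) * cent g := by
  classical
  have h1 : Finite (B →ₗ[F] A) := finite_hom
  have h2 : Finite (A →ₗ[F] B) := finite_hom
  let _ : Fintype ((B →ₗ[F] A) × (A →ₗ[F] B)) := Fintype.ofFinite _
  have h3 : ∀ rs : (B →ₗ[F] A) × (A →ₗ[F] B), Finite (Fr z (gmat c d rs.1 rs.2)) :=
    fun rs => finite_fr hz
  have h4 : ∀ rs : (B →ₗ[F] A) × (A →ₗ[F] B), Nat.card (Fr z (gmat c d rs.1 rs.2)) =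
      if cls (gmat c d rs.1 rs.2) = ConjClasses.mk z then cent g else 0 := by
    intro rs
    split_ifs with h
    · rw [card_fr_pos h.symm]
      obtain ⟨k, hk⟩ := cls_eq_iff.1 (h.trans hg)
      exact cent_eq_of_conj k hk
    · have := isEmpty_fr hz (fun h' => h h'.symm)
      exact Nat.card_of_isEmpty
  rw [Nat.card_congr (rhsEquiv c d z), Nat.card_sigma, Finset.sum_congr rfl
    (fun p _ => h4 p), Finset.sum_ite, Finset.sum_const_zero, add_zero, Finset.sum_const,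
    smul_eq_mul, cnt, Nat.card_eq_fintype_card, Fintype.card_subtype]

/-- the fundamental counting identity -/
theorem numFact_mul {Q : Type} [AddCommGroup Q] [Module F Q] [Module.Finite F Q]
    (c : B ≃ₗ[F] B) (d : A ≃ₗ[F] A) {z : GLInf F} (g : Q ≃ₗ[F] Q)
    (hg : ConjClasses.mk z = cls g) (hz : len z = Module.finrank F B + Module.finrank F A) :
    numFact (cls c) (cls d) z * (cent c * cent d) = cnt c d (ConjClasses.mk z) * cent g := by
  have hz' : len z = Module.finrank F (B × A) := by rw [hz, Module.finrank_prod]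
  rw [← card_lhs c d hz', card_lhs_eq c d hz', card_rhs c d g hg hz']

omit [Finite F] in
theorem gmat_scale (c : B ≃ₗ[F] B) (d : A ≃ₗ[F] A) (a : Fˣ) (r : B →ₗ[F] A) (s : A →ₗ[F] B) :
    cls (gmat c d ((a : F) • r) (((a⁻¹ : Fˣ) : F) • s)) = cls (gmat c d r s) := by
  symm
  rw [cls_eq_iff]
  refine ⟨(LinearEquiv.refl F B).prodCongr (LinearEquiv.smulOfUnit a), fun q => ?_⟩
  obtain ⟨x, y⟩ := q
  have hsm : ∀ y : A, (LinearEquiv.smulOfUnit a : A ≃ₗ[F] A) y = (a : F) • y := fun y => rfl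
  rw [gmat_apply, gmat_apply]
  simp only [LinearEquiv.prodCongr_apply, LinearEquiv.refl_apply, hsm,
    LinearMap.smul_apply, map_add, map_smul, smul_add, smul_smul,
    Units.mul_inv, one_smul]

omit [Finite F] in
theorem gmat_zero (c : B ≃ₗ[F] B) (d : A ≃ₗ[F] A) : gmat c d 0 0 = c.prodCongr d := by
  refine LinearEquiv.ext fun q => ?_
  rw [gmat_apply]
  simp

/-- the scaling action of the units on the pairs `(r, s)` -/
@[reducible] noncomputable def scaleAct (c : B ≃ₗ[F] B) (d : A ≃ₗ[F] A) (E : ConjClasses (GLInf F))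
    (P : Subgroup Fˣ) :
    MulAction P {rs : (B →ₗ[F] A) × (A →ₗ[F] B) // cls (gmat c d rs.1 rs.2) = E} where
  smul a t := ⟨((((a : Fˣ) : F) • t.1.1, (((a : Fˣ)⁻¹ : Fˣ) : F) • t.1.2)),
    by rw [gmat_scale]; exact t.2⟩
  one_smul t := by
    apply Subtype.ext
    change ((((1 : P) : Fˣ) : F) • t.1.1, ((((1 : P) : Fˣ)⁻¹ : Fˣ) : F) • t.1.2) = t.1
    simp
  mul_smul a b t := by
    apply Subtype.ext
    change ((((a * b : P) : Fˣ) : F) • t.1.1, ((((a * b : P) : Fˣ)⁻¹ : Fˣ) : F) • t.1.2) =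
      (((a : Fˣ) : F) • ((b : Fˣ) : F) • t.1.1,
        (((a : Fˣ)⁻¹ : Fˣ) : F) • (((b : Fˣ)⁻¹ : Fˣ) : F) • t.1.2)
    simp only [Subgroup.coe_mul, mul_inv, Units.val_mul, mul_smul]

theorem cnt_modEq (c : B ≃ₗ[F] B) (d : A ≃ₗ[F] A) (E : ConjClasses (GLInf F)) {l : ℕ}
    (hl : l.Prime) (hlF : l ∣ Nat.card Fˣ) :
    cnt c d E ≡ (open Classical in if cls (c.prodCongr d) = E then 1 else 0) [MOD l] := by
  classical
  have h1 : Finite (B →ₗ[F] A) := finite_hom
  have h2 : Finite (A →ₗ[F] B) := finite_hom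
  have : Fact l.Prime := ⟨hl⟩
  obtain ⟨u, hu⟩ := exists_prime_orderOf_dvd_card' (G := Fˣ) l hlF
  have hu1 : (u : F) ≠ 1 := by
    intro h
    have h1 : u = 1 := Units.ext h
    rw [h1, orderOf_one] at hu
    exact hl.one_lt.ne hu
  have hP : IsPGroup l (Subgroup.zpowers u) := by
    apply IsPGroup.of_card (n := 1)
    rw [Nat.card_zpowers, hu, pow_one]
  let _ := scaleAct c d E (Subgroup.zpowers u)
  have key := hP.card_modEq_card_fixedPoints
    {rs : (B →ₗ[F] A) × (A →ₗ[F] B) // cls (gmat c d rs.1 rs.2) = E}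
  refine key.trans ?_
  have hfix : ∀ t : {rs : (B →ₗ[F] A) × (A →ₗ[F] B) // cls (gmat c d rs.1 rs.2) = E},
      t ∈ MulAction.fixedPoints (Subgroup.zpowers u)
        {rs : (B →ₗ[F] A) × (A →ₗ[F] B) // cls (gmat c d rs.1 rs.2) = E} ↔ t.1 = (0, 0) := by
    intro t
    constructor
    · intro ht
      have h3 := congrArg Subtype.val (ht ⟨u, Subgroup.mem_zpowers u⟩)
      have h4 : ((u : F) • t.1.1, ((u⁻¹ : Fˣ) : F) • t.1.2) = t.1 := h3
      have h5 : (u : F) • t.1.1 = t.1.1 := congrArg Prod.fst h4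
      have h6 : ((u⁻¹ : Fˣ) : F) • t.1.2 = t.1.2 := congrArg Prod.snd h4
      refine Prod.ext ?_ ?_
      · have h7 : ((u : F) - 1) • t.1.1 = 0 := by rw [sub_smul, one_smul, h5, sub_self]
        exact (smul_eq_zero.1 h7).resolve_left (sub_ne_zero.2 hu1)
      · have h8 : (u : F) • t.1.2 = t.1.2 := by
          conv_lhs => rw [← h6]
          rw [smul_smul, Units.mul_inv, one_smul]
        have h7 : ((u : F) - 1) • t.1.2 = 0 := by rw [sub_smul, one_smul, h8, sub_self]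
        exact (smul_eq_zero.1 h7).resolve_left (sub_ne_zero.2 hu1)
    · intro ht a
      apply Subtype.ext
      change ((((a : Fˣ) : F) • t.1.1, (((a : Fˣ)⁻¹ : Fˣ) : F) • t.1.2)) = t.1
      rw [ht]
      simp
  split_ifs with hE
  · have : Nat.card (MulAction.fixedPoints (Subgroup.zpowers u)
        {rs : (B →ₗ[F] A) × (A →ₗ[F] B) // cls (gmat c d rs.1 rs.2) = E}) = 1 := by
      rw [Nat.card_eq_one_iff_unique]
      refine ⟨⟨fun a b => ?_⟩, ⟨⟨⟨(0, 0), by rw [gmat_zero]; exact hE⟩, (hfix _).2 rfl⟩⟩⟩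
      apply Subtype.ext
      apply Subtype.ext
      rw [(hfix a.1).1 a.2, (hfix b.1).1 b.2]
    rw [this]
  · have : IsEmpty (MulAction.fixedPoints (Subgroup.zpowers u)
        {rs : (B →ₗ[F] A) × (A →ₗ[F] B) // cls (gmat c d rs.1 rs.2) = E}) := by
      refine ⟨fun t => hE ?_⟩
      have h3 := t.1.2
      rw [(hfix t.1).1 t.2] at h3
      simpa [gmat_zero] using h3
    rw [Nat.card_of_isEmpty]

end three

end Pool.Agent.W446.SC
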