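import Mathlib

/-!
# The stable center of the finite general linear groups: definitions

`GLInf F` is the union of the groups `GL_n(F)`, realised as the group of those linear
automorphisms of the space `ℕ →₀ F` of finitely supported sequences which, for some `n`, have
the block form `diag(g, 1)` with `g` an invertible `n × n` matrix (`stage F n`).
`len z` is the reflection length `rank (z - 1)`.
-/

namespace Pool.Agent.W446.SC

open Polynomial

variable (F : Type) [Field F]

/-- The copy of `GL_n(F)` inside the automorphisms of `F^∞ = (ℕ →₀ F)`: the automorphisms `g`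
whose matrix is `diag(g', 1)` with an `n × n` block `g'`, that is, `g` fixes the standard basis
vectors `e_i`, `i ≥ n` (columns), and does not change the coordinates `j ≥ n` (rows). -/
def stage (n : ℕ) : Subgroup ((ℕ →₀ F) ≃ₗ[F] (ℕ →₀ F)) where
  carrier := {g | (∀ i, n ≤ i → g (Finsupp.single i 1) = Finsupp.single i 1) ∧
      ∀ (v : ℕ →₀ F) (j : ℕ), n ≤ j → g v j = v j}
  mul_mem' := by
    rintro a b ⟨ha1, ha2⟩ ⟨hb1, hb2⟩
    refine ⟨fun i hi => ?_, fun v j hj => ?_⟩
    · rw [LinearEquiv.mul_apply, hb1 i hi, ha1 i hi]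
    · rw [LinearEquiv.mul_apply, ha2 _ j hj, hb2 v j hj]
  one_mem' := ⟨fun _ _ => rfl, fun _ _ _ => rfl⟩
  inv_mem' := by
    rintro a ⟨ha1, ha2⟩
    refine ⟨fun i hi => ?_, fun v j hj => ?_⟩
    · have h := ha1 i hi
      calc a⁻¹ (Finsupp.single i 1) = a⁻¹ (a (Finsupp.single i 1)) := by rw [h]
        _ = Finsupp.single i 1 := by
          rw [← LinearEquiv.mul_apply, inv_mul_cancel]; rfl
    · have h := ha2 (a⁻¹ v) j hj
      rw [← LinearEquiv.mul_apply, mul_inv_cancel] at h
      exact h.symm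

theorem stage_mono {n m : ℕ} (h : n ≤ m) : stage F n ≤ stage F m := fun _ hg =>
  ⟨fun i hi => hg.1 i (h.trans hi), fun v j hj => hg.2 v j (h.trans hj)⟩

/-- The union of the groups `GL_n(F)` (embedded by `g ↦ diag(g, 1)`), as a subgroup of the group
of linear automorphisms of `F^∞`. -/
def glInf : Subgroup ((ℕ →₀ F) ≃ₗ[F] (ℕ →₀ F)) where
  carrier := {g | ∃ n, g ∈ stage F n}
  mul_mem' := by
    rintro a b ⟨n, ha⟩ ⟨m, hb⟩
    exact ⟨max n m, mul_mem (stage_mono F (le_max_left n m) ha)
      (stage_mono F (le_max_right n m) hb)⟩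
  one_mem' := ⟨0, one_mem _⟩
  inv_mem' := by
    rintro a ⟨n, ha⟩
    exact ⟨n, inv_mem ha⟩

/-- The group `GL_n(F)`. -/
def GLn (n : ℕ) : Type := stage F n

noncomputable instance (n : ℕ) : Group (GLn F n) := (stage F n).toGroup

/-- The group `GL_∞(F)`, the union of the groups `GL_n(F)`. -/
def GLInf : Type := glInf F

noncomputable instance : Group (GLInf F) := (glInf F).toGroup

variable {F}

/-- The linear map `z - 1`. -/
noncomputable def defect (z : GLInf F) : (ℕ →₀ F) →ₗ[F] (ℕ →₀ F) :=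
  (z.1 : (ℕ →₀ F) →ₗ[F] (ℕ →₀ F)) - LinearMap.id

/-- The reflection length `ℓ(z) = rank (z - 1)`. -/
noncomputable def len (z : GLInf F) : ℕ := Module.finrank F (LinearMap.range (defect z))

theorem defect_apply (z : GLInf F) (v : ℕ →₀ F) : defect z v = z.1 v - v := rfl

theorem defect_conj (z k : GLInf F) :
    defect (k * z * k⁻¹) = (k.1 : (ℕ →₀ F) →ₗ[F] (ℕ →₀ F)) ∘ₗ defect z ∘ₗ
      ((k⁻¹).1 : (ℕ →₀ F) →ₗ[F] (ℕ →₀ F)) := by
  refine LinearMap.ext fun v => ?_
  simp only [LinearMap.comp_apply, defect_apply, LinearEquiv.coe_coe]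
  rw [map_sub]
  congr 1
  have h : (k.1) ((k⁻¹).1 v) = (k * k⁻¹).1 v := rfl
  rw [h, mul_inv_cancel]
  rfl

theorem len_conj (z k : GLInf F) : len (k * z * k⁻¹) = len z := by
  unfold len
  rw [defect_conj]
  have h1 : LinearMap.range ((k.1 : (ℕ →₀ F) →ₗ[F] (ℕ →₀ F)) ∘ₗ defect z ∘ₗ
      ((k⁻¹).1 : (ℕ →₀ F) →ₗ[F] (ℕ →₀ F))) = (LinearMap.range (defect z)).map
        (k.1 : (ℕ →₀ F) →ₗ[F] (ℕ →₀ F)) := by
    rw [LinearMap.range_comp, LinearMap.range_comp_of_range_eq_top]
    exact LinearMap.range_eq_top.2 (k⁻¹).1.surjective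
  rw [h1]
  exact LinearEquiv.finrank_map_eq k.1 _

/-- The reflection length of a conjugacy class of `GL_∞(F)`. -/
noncomputable def lenC : ConjClasses (GLInf F) → ℕ :=
  Quotient.lift len (by
    intro a b hab
    obtain ⟨c, hc⟩ := isConj_iff.1 (show IsConj a b from hab)
    rw [← hc, len_conj])

@[simp] theorem lenC_mk (z : GLInf F) : lenC (ConjClasses.mk z) = len z := rfl

/-- The number of pairs `(x, y)` with `x` in the class `C`, `y` in the class `D` and `x y = z`. -/
noncomputable def numFact (C D : ConjClasses (GLInf F)) (z : GLInf F) : ℕ :=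
  Nat.card {p : GLInf F × GLInf F //
    ConjClasses.mk p.1 = C ∧ ConjClasses.mk p.2 = D ∧ p.1 * p.2 = z}

/-- The structure constant `a^E_{CD}` (used for `ℓ(E) = ℓ(C) + ℓ(D)` only): the number of ways
to write an element of `E` as a product of an element of `C` and an element of `D`. -/
noncomputable def structConst (C D E : ConjClasses (GLInf F)) : ℕ :=
  numFact C D (Quotient.out E)

/-- `A` with the `ℚ`-basis `K`, indexed by the conjugacy classes of `GL_∞(F)`, is the rational
stable center `ℚ ⊗ 𝒢(q)`: the product is `K_C K_D = ∑_{ℓ(E) = ℓ(C) + ℓ(D)} a^E_{CD} K_E`. -/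
def IsStableCenter {A : Type} [CommRing A] [Algebra ℚ A]
    (K : Module.Basis (ConjClasses (GLInf F)) ℚ A) : Prop :=
  ∀ C D, K C * K D =
    ∑ᶠ E ∈ {E : ConjClasses (GLInf F) | lenC E = lenC C + lenC D}, (structConst C D E : ℚ) • K E

variable (F)

/-- The index set of the single cycle classes: pairs `(f, r)` with `f ≠ t` a monic irreducible
polynomial and `r ≥ 1`. -/
structure Cyc where
  /-- the monic irreducible polynomial, different from `t` -/
  f : F[X]
  /-- the size of the cycle -/
  r : ℕ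
  monic : f.Monic
  irred : Irreducible f
  ne_X : f ≠ X
  pos : 1 ≤ r

variable {F}

/-- The polynomial `h` such that an element of the single cycle class `(r)_f` acts on `F^∞` as
`F[t]/(h) ⊕ (trivial)`: it is `f ^ r` if `f ≠ t - 1` and `(t - 1) ^ (r + 1)` (a unipotent Jordan
block of size `r + 1`) if `f = t - 1`. -/
noncomputable def Cyc.h (s : Cyc F) : F[X] :=
  open Classical in if s.f = X - 1 then (X - 1) ^ (s.r + 1) else s.f ^ s.r

/-- `z` belongs to the single cycle class `(r)_f`: as an `F[t]`-module with `t` acting as `z`,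
the space `F^∞` is isomorphic to `F[t]/(h)` plus an infinite-dimensional space on which `t` acts
as the identity. -/
def IsCycle (s : Cyc F) (z : GLInf F) : Prop :=
  Nonempty (Module.AEval' (z.1 : (ℕ →₀ F) →ₗ[F] (ℕ →₀ F)) ≃ₗ[F[X]]
    ((F[X] ⧸ Ideal.span {s.h}) × Module.AEval' (LinearMap.id : (ℕ →₀ F) →ₗ[F] (ℕ →₀ F))))

end Pool.Agent.W446.SC
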