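import Pool.Agent.W446.SCDefs

/-!
# Framings of finitary automorphisms
-/

namespace Pool.Agent.W446.SC

variable {F : Type} [Field F]

section basic

instance freeSub (W : Submodule F (ℕ →₀ F)) : Module.Free F W :=
  @Module.Free.of_divisionRing F W _ (Submodule.addCommGroup W) _

/-- the space of finitely supported sequences -/
abbrev V (F : Type) [Field F] := ℕ →₀ F

variable {Q : Type} [AddCommGroup Q] [Module F Q]

/-- the coordinates `≥ n` of the values of `i` vanish -/
def Low (n : ℕ) (i : Q →ₗ[F] V F) : Prop := ∀ q j, n ≤ j → i q j = 0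

/-- `p` kills the basis vectors `e_j`, `j ≥ n` -/
def Kill (n : ℕ) (p : V F →ₗ[F] Q) : Prop := ∀ j, n ≤ j → p (Finsupp.single j 1) = 0

theorem Low.mono {n m : ℕ} {i : Q →ₗ[F] V F} (h : Low n i) (hm : n ≤ m) : Low m i :=
  fun q j hj => h q j (hm.trans hj)

theorem Kill.mono {n m : ℕ} {p : V F →ₗ[F] Q} (h : Kill n p) (hm : n ≤ m) : Kill m p :=
  fun j hj => h j (hm.trans hj)

/-- the automorphism `1 + i p` with `p i = g - 1` -/
noncomputable def oneAdd (p : V F →ₗ[F] Q) (i : Q →ₗ[F] V F) (g : Q ≃ₗ[F] Q)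
    (h : ∀ q, p (i q) = g q - q) : V F ≃ₗ[F] V F :=
  LinearEquiv.ofLinearMap (LinearMap.id + i ∘ₗ p) (LinearMap.id - i ∘ₗ g.symm.toLinearMap ∘ₗ p)
    (by
      refine LinearMap.ext fun v => ?_
      simp only [LinearMap.comp_apply, LinearMap.add_apply, LinearMap.sub_apply,
        LinearMap.id_apply, LinearEquiv.coe_coe, map_sub, h, LinearEquiv.apply_symm_apply]
      abel)
    (by
      refine LinearMap.ext fun v => ?_
      simp only [LinearMap.comp_apply, LinearMap.add_apply, LinearMap.sub_apply,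
        LinearMap.id_apply, LinearEquiv.coe_coe, map_add, h, map_sub,
        LinearEquiv.symm_apply_apply]
      abel)

theorem oneAdd_apply (p : V F →ₗ[F] Q) (i : Q →ₗ[F] V F) (g : Q ≃ₗ[F] Q)
    (h : ∀ q, p (i q) = g q - q) (v : V F) : oneAdd p i g h v = v + i (p v) := rfl

theorem oneAdd_mem_stage (p : V F →ₗ[F] Q) (i : Q →ₗ[F] V F) (g : Q ≃ₗ[F] Q)
    (h : ∀ q, p (i q) = g q - q) {n : ℕ} (hi : Low n i) (hp : Kill n p) :
    oneAdd p i g h ∈ stage F n := by
  refine ⟨fun j hj => ?_, fun v j hj => ?_⟩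
  · rw [oneAdd_apply, hp j hj, map_zero, add_zero]
  · rw [oneAdd_apply, Finsupp.add_apply, hi _ j hj, add_zero]

/-- the element `1 + i p` of `GL_∞` -/
noncomputable def mkG (p : V F →ₗ[F] Q) (i : Q →ₗ[F] V F) (g : Q ≃ₗ[F] Q)
    (h : ∀ q, p (i q) = g q - q) (n : ℕ) (hi : Low n i) (hp : Kill n p) : GLInf F :=
  ⟨oneAdd p i g h, n, oneAdd_mem_stage p i g h hi hp⟩

theorem mkG_apply (p : V F →ₗ[F] Q) (i : Q →ₗ[F] V F) (g : Q ≃ₗ[F] Q)
    (h : ∀ q, p (i q) = g q - q) (n : ℕ) (hi : Low n i) (hp : Kill n p) (v : V F) :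
    (mkG p i g h n hi hp).1 v = v + i (p v) := rfl

/-- `(p, i)` is a framing of `z` of type `g` -/
structure Framed (z : GLInf F) (g : Q ≃ₗ[F] Q) (p : V F →ₗ[F] Q) (i : Q →ₗ[F] V F) : Prop where
  a : ∀ v, i (p v) = z.1 v - v
  b : ∀ q, p (i q) = g q - q

theorem framed_mkG (p : V F →ₗ[F] Q) (i : Q →ₗ[F] V F) (g : Q ≃ₗ[F] Q)
    (h : ∀ q, p (i q) = g q - q) (n : ℕ) (hi : Low n i) (hp : Kill n p) :
    Framed (mkG p i g h n hi hp) g p i :=
  ⟨fun v => by rw [mkG_apply]; abel, h⟩

theorem GLInf.ext' {x y : GLInf F} (h : ∀ v, x.1 v = y.1 v) : x = y :=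
  Subtype.ext (LinearEquiv.ext h)

theorem Framed.conj {z : GLInf F} {g : Q ≃ₗ[F] Q} {p : V F →ₗ[F] Q} {i : Q →ₗ[F] V F}
    (h : Framed z g p i) (k : GLInf F) :
    Framed (k * z * k⁻¹) g (p ∘ₗ ((k⁻¹).1 : V F →ₗ[F] V F)) ((k.1 : V F →ₗ[F] V F) ∘ₗ i) := by
  refine ⟨fun v => ?_, fun q => ?_⟩
  · simp only [LinearMap.comp_apply, LinearEquiv.coe_coe, h.a, map_sub]
    congr 1
    have h : (k.1) ((k⁻¹).1 v) = (k * k⁻¹).1 v := rfl
    rw [h, mul_inv_cancel]
    rfl
  · simp only [LinearMap.comp_apply, LinearEquiv.coe_coe]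
    have h1 : ((k⁻¹).1) ((k).1 (i q)) = (k⁻¹ * k).1 (i q) := rfl
    rw [h1, inv_mul_cancel]
    exact h.b q

theorem finite_range (z : GLInf F) : Module.Finite F (LinearMap.range (defect z)) := by
  obtain ⟨n, hn⟩ := z.2
  have hle : LinearMap.range (defect z) ≤ Finsupp.supported F F (Set.Iio n) := by
    rintro _ ⟨v, rfl⟩
    rw [Finsupp.mem_supported']
    intro j hj
    have hj' : n ≤ j := by simpa using hj
    rw [defect_apply, Finsupp.sub_apply, hn.2 v j hj', sub_self]
  have hfin : Module.Finite F (Finsupp.supported F F (Set.Iio n)) :=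
    Module.Finite.equiv (Finsupp.supportedEquivFinsupp (R := F) (M := F) (Set.Iio n)).symm
  exact Submodule.finiteDimensional_of_le hle

theorem len_eq_of_surj_inj {z : GLInf F} {p : V F →ₗ[F] Q} {i : Q →ₗ[F] V F}
    (h : ∀ v, i (p v) = z.1 v - v) (hp : Function.Surjective p) (hi : Function.Injective i) :
    len z = Module.finrank F Q := by
  have h1 : defect z = i ∘ₗ p := LinearMap.ext fun v => (h v).symm
  unfold len
  rw [h1, LinearMap.range_comp_of_range_eq_top i (LinearMap.range_eq_top.2 hp)]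
  exact LinearMap.finrank_range_of_inj hi

theorem surj_inj {z : GLInf F} [Module.Finite F Q] {p : V F →ₗ[F] Q} {i : Q →ₗ[F] V F}
    (h : ∀ v, i (p v) = z.1 v - v) (hz : Module.finrank F Q ≤ len z) :
    Function.Surjective p ∧ Function.Injective i := by
  have h1 : defect z = i ∘ₗ p := LinearMap.ext fun v => (h v).symm
  have h2 : LinearMap.range (defect z) = Submodule.map i (LinearMap.range p) := by
    rw [h1, LinearMap.range_comp]
  have h3 : len z = Module.finrank F (Submodule.map i (LinearMap.range p)) := by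
    unfold len
    rw [h2]
  have hr : len z ≤ Module.finrank F (LinearMap.range p) :=
    h3.le.trans (Submodule.finrank_map_le i (LinearMap.range p))
  have hfi : Module.Finite F (LinearMap.range i) := Module.Finite.range i
  have hr2 : len z ≤ Module.finrank F (LinearMap.range i) :=
    h3.le.trans (Submodule.finrank_mono LinearMap.map_le_range)
  constructor
  · rw [← LinearMap.range_eq_top]
    apply Submodule.eq_top_of_finrank_eq
    have := Submodule.finrank_le (LinearMap.range p)
    omega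
  · rw [← LinearMap.ker_eq_bot, ← Submodule.finrank_eq_zero (R := F)]
    have h4 : Module.finrank F (LinearMap.range i) + Module.finrank F (LinearMap.ker i) =
      Module.finrank F Q := LinearMap.finrank_range_add_finrank_ker i
    omega

/-- every finitary automorphism has framings on every space of the right dimension -/
theorem exists_factor [Module.Finite F Q] (z : GLInf F) (hz : len z = Module.finrank F Q) :
    ∃ (p : V F →ₗ[F] Q) (i : Q →ₗ[F] V F), ∀ v, i (p v) = z.1 v - v := by
  have := finite_range z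
  let e : LinearMap.range (defect z) ≃ₗ[F] Q := LinearEquiv.ofFinrankEq _ _ hz
  refine ⟨e.toLinearMap ∘ₗ (defect z).rangeRestrict,
    (LinearMap.range (defect z)).subtype ∘ₗ e.symm.toLinearMap, fun v => ?_⟩
  simp [defect_apply]

theorem exists_type [Module.Finite F Q] {z : GLInf F} {p : V F →ₗ[F] Q} {i : Q →ₗ[F] V F}
    (h : ∀ v, i (p v) = z.1 v - v) (hi : Function.Injective i) :
    ∃ g : Q ≃ₗ[F] Q, Framed z g p i := by
  have hinj : Function.Injective ⇑(LinearMap.id + p ∘ₗ i : Q →ₗ[F] Q) := by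
    rw [← LinearMap.ker_eq_bot, LinearMap.ker_eq_bot']
    intro q hq
    have h1 : q + p (i q) = 0 := hq
    have h2 : z.1 (i q) = 0 := by
      have h3 := h (i q)
      have h4 : i (p (i q)) = - i q := by
        rw [← map_neg]
        congr 1
        exact eq_neg_of_add_eq_zero_right h1
      rw [h4] at h3
      have : z.1 (i q) = z.1 (i q) - i q + i q := by abel
      rw [this, ← h3]
      abel
    have h5 : i q = 0 := z.1.map_eq_zero_iff.1 h2
    exact hi (by rw [h5, map_zero])
  refine ⟨LinearEquiv.ofInjectiveEndo _ hinj, ⟨h, fun q => ?_⟩⟩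
  rw [LinearEquiv.coe_ofInjectiveEndo]
  simp

/-- two framings differ by an isomorphism -/
theorem framings_torsor {Q' : Type} [AddCommGroup Q'] [Module F Q'] [Module.Finite F Q]
    [Module.Finite F Q'] (hQ : Module.finrank F Q = Module.finrank F Q') {z : GLInf F}
    {p : V F →ₗ[F] Q} {p' : V F →ₗ[F] Q'} {i : Q →ₗ[F] V F} {i' : Q' →ₗ[F] V F}
    (h : ∀ v, i (p v) = z.1 v - v) (h' : ∀ v, i' (p' v) = z.1 v - v)
    (hp : Function.Surjective p) (hp' : Function.Surjective p') (hi' : Function.Injective i') :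
    ∃ k : Q ≃ₗ[F] Q', (∀ v, p' v = k (p v)) ∧ ∀ q, i' (k q) = i q := by
  obtain ⟨r, hr⟩ := LinearMap.exists_rightInverse_of_surjective p (LinearMap.range_eq_top.2 hp)
  have hr' : ∀ q, p (r q) = q := fun q => by
    have := congrArg (fun f => f q) hr
    simpa using this
  have hk : ∀ v, p' (r (p v)) = p' v := by
    intro v
    apply hi'
    rw [h', h']
    have h1 : i (p (r (p v))) = i (p v) := by rw [hr']
    rw [h, h] at h1
    exact h1
  have hs : Function.Surjective (p' ∘ₗ r) := by
    intro q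
    obtain ⟨v, rfl⟩ := hp' q
    exact ⟨p v, hk v⟩
  have hinj : Function.Injective (p' ∘ₗ r) :=
    (LinearMap.injective_iff_surjective_of_finrank_eq_finrank hQ).2 hs
  have hbij : Function.Bijective (p' ∘ₗ r) := ⟨hinj, hs⟩
  refine ⟨LinearEquiv.ofBijective (p' ∘ₗ r) hbij, fun v => ?_, fun q => ?_⟩
  · exact (hk v).symm
  · obtain ⟨v, rfl⟩ := hp q
    have h2 : (LinearEquiv.ofBijective (p' ∘ₗ r) hbij) (p v) = p' (r (p v)) := rfl
    rw [h2, hk, h', h]

/-- truncation to the first `n` coordinates -/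
noncomputable def cut (n : ℕ) : V F →ₗ[F] V F where
  toFun v := v.filter (· < n)
  map_add' _ _ := Finsupp.filter_add
  map_smul' _ _ := Finsupp.filter_smul

theorem cut_apply (n : ℕ) (v : V F) : cut n v = v.filter (· < n) := rfl

theorem cut_of_forall {n : ℕ} {v : V F} (h : ∀ j, n ≤ j → v j = 0) : cut n v = v := by
  ext j
  rw [cut_apply]
  by_cases hj : j < n
  · rw [Finsupp.filter_apply_pos (· < n) v hj]
  · rw [Finsupp.filter_apply_neg (· < n) v hj, h j (not_lt.1 hj)]

theorem Kill.apply_cut {n : ℕ} {p : V F →ₗ[F] Q} (h : Kill n p) (v : V F) :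
    p (cut n v) = p v := by
  induction v using Finsupp.induction_linear with
  | zero => simp
  | add f g hf hg => rw [map_add, map_add, map_add, hf, hg]
  | single j a =>
    rw [cut_apply]
    by_cases hj : j < n
    · rw [Finsupp.filter_single_of_pos (· < n) hj]
    · rw [Finsupp.filter_single_of_neg (· < n) hj, map_zero]
      have : Finsupp.single j a = a • Finsupp.single j (1 : F) := by simp
      rw [this, map_smul, h j (not_lt.1 hj), smul_zero]

theorem low_cut (n : ℕ) : Low n (cut n : V F →ₗ[F] V F) := by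
  intro v j hj
  rw [cut_apply, Finsupp.filter_apply_neg (· < n) v (not_lt.2 hj)]

theorem Kill.comp_cut {n : ℕ} (p : V F →ₗ[F] Q) : Kill n (p ∘ₗ cut n) := by
  intro j hj
  rw [LinearMap.comp_apply, cut_apply, Finsupp.filter_single_of_neg (· < n) (not_lt.2 hj),
    map_zero]

theorem Kill.apply_eq_zero {n : ℕ} {p : V F →ₗ[F] Q} (h : Kill n p) {v : V F}
    (hv : ∀ j, j < n → v j = 0) : p v = 0 := by
  rw [← h.apply_cut]
  have : cut n v = 0 := by
    ext j
    rw [cut_apply]
    by_cases hj : j < n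
    · rw [Finsupp.filter_apply_pos (· < n) v hj, hv j hj]
      rfl
    · rw [Finsupp.filter_apply_neg (· < n) v hj]
      rfl
  rw [this, map_zero]

section coords

variable {m : ℕ} (b : Module.Basis (Fin m) F Q)

theorem shift_inj (k : ℕ) : Function.Injective (fun j : Fin m => k + (j : ℕ)) := by
  intro a c h
  ext
  simpa using h

/-- `Q` in the coordinates `k, …, k + m - 1` -/
noncomputable def inc (k : ℕ) : Q →ₗ[F] V F :=
  (Finsupp.lmapDomain F F (fun j : Fin m => k + (j : ℕ))) ∘ₗ b.repr.toLinearMap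

/-- the coordinates `k, …, k + m - 1` as an element of `Q` -/
noncomputable def pr (k : ℕ) : V F →ₗ[F] Q :=
  b.repr.symm.toLinearMap ∘ₗ
    Finsupp.lcomapDomain (fun j : Fin m => k + (j : ℕ)) (shift_inj k)

theorem inc_apply (k : ℕ) (q : Q) :
    inc b k q = Finsupp.mapDomain (fun j : Fin m => k + (j : ℕ)) (b.repr q) := rfl

theorem inc_coord_same (k : ℕ) (q : Q) (j : Fin m) : inc b k q (k + j) = b.repr q j := by
  rw [inc_apply]
  exact Finsupp.mapDomain_apply (shift_inj k) (b.repr q) j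

theorem inc_coord_zero (k : ℕ) (q : Q) (j : ℕ) (hj : j < k ∨ k + m ≤ j) : inc b k q j = 0 := by
  rw [inc_apply]
  apply Finsupp.mapDomain_of_notMem_range
  rintro ⟨x, hx⟩
  have := x.2
  simp only at hx
  omega

theorem pr_apply (k : ℕ) (v : V F) :
    b.repr (pr b k v) = (Finsupp.lcomapDomain (fun j : Fin m => k + (j : ℕ)) (shift_inj k) :
      V F →ₗ[F] (Fin m →₀ F)) v := by
  simp [pr]

theorem pr_coord (k : ℕ) (v : V F) (j : Fin m) : b.repr (pr b k v) j = v (k + j) := by
  rw [pr_apply]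
  rfl

theorem pr_inc (k : ℕ) (q : Q) : pr b k (inc b k q) = q := by
  apply b.repr.injective
  ext j
  rw [pr_coord, inc_coord_same]

theorem pr_eq_zero (k : ℕ) (v : V F) (h : ∀ j, k ≤ j → j < k + m → v j = 0) :
    pr b k v = 0 := by
  apply b.repr.injective
  ext j
  have := j.2
  rw [pr_coord, h _ (by omega) (by omega), map_zero]
  rfl

theorem pr_inc_zero {k l : ℕ} (h : k + m ≤ l ∨ l + m ≤ k) (q : Q) :
    pr b k (inc b l q) = 0 :=
  pr_eq_zero b k _ fun j h1 h2 => inc_coord_zero b l q j (by omega)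

theorem low_inc {k n : ℕ} (h : k + m ≤ n) : Low n (inc b k) :=
  fun q j hj => inc_coord_zero b k q j (Or.inr (h.trans hj))

theorem kill_pr {k n : ℕ} (h : k + m ≤ n) : Kill n (pr b k) := fun j hj =>
  pr_eq_zero b k _ fun i h1 h2 => Finsupp.single_eq_of_ne (by omega)

/-- the standard element of type `g` -/
noncomputable def std (n : ℕ) (g : Q ≃ₗ[F] Q) : GLInf F :=
  mkG ((g.toLinearMap - LinearMap.id) ∘ₗ pr b n + pr b (n + m)) (inc b n) g
    (fun q => by
      simp [pr_inc, pr_inc_zero b (k := n + m) (l := n) (Or.inr le_rfl)])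
    (n + m + m) (low_inc b (by omega)) (by
      intro j hj
      rw [LinearMap.add_apply, LinearMap.comp_apply, kill_pr b (n := n + m + m) (by omega) j hj,
        kill_pr b (n := n + m + m) (by omega) j hj, map_zero, add_zero])

theorem std_framed (n : ℕ) (g : Q ≃ₗ[F] Q) :
    Framed (std b n g) g ((g.toLinearMap - LinearMap.id) ∘ₗ pr b n + pr b (n + m)) (inc b n) :=
  framed_mkG _ _ _ _ _ _ _

theorem std_surj (n : ℕ) (g : Q ≃ₗ[F] Q) : Function.Surjective
    ((g.toLinearMap - LinearMap.id) ∘ₗ pr b n + pr b (n + m) : V F →ₗ[F] Q) := by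
  intro q
  refine ⟨inc b (n + m) q, ?_⟩
  rw [LinearMap.add_apply, LinearMap.comp_apply, pr_inc, pr_inc_zero b (Or.inl le_rfl), map_zero,
    zero_add]

theorem inc_inj (n : ℕ) : Function.Injective (inc b n) :=
  Function.LeftInverse.injective (pr_inc b n)

theorem len_std (n : ℕ) (g : Q ≃ₗ[F] Q) : len (std b n g) = Module.finrank F Q :=
  len_eq_of_surj_inj (std_framed b n g).a (std_surj b n g) (inc_inj b n)

theorem Framed.conj' {z : GLInf F} {g : Q ≃ₗ[F] Q} {p p' : V F →ₗ[F] Q} {i i' : Q →ₗ[F] V F}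
    (h : Framed z g p i) (k : GLInf F) (hk : ∀ q, k.1 (i q) = i' q)
    (hk' : ∀ v, p' (k.1 v) = p v) : Framed (k * z * k⁻¹) g p' i' := by
  have hkk : ∀ v, k.1 ((k⁻¹).1 v) = v := by
    intro v
    have h : (k.1) ((k⁻¹).1 v) = (k * k⁻¹).1 v := rfl
    rw [h, mul_inv_cancel]
    rfl
  refine ⟨fun v => ?_, fun q => ?_⟩
  · have h1 : (k * z * k⁻¹).1 v = k.1 (z.1 ((k⁻¹).1 v)) := rfl
    have h2 := h.a ((k⁻¹).1 v)
    rw [← hk' , hkk] at h2
    rw [h1, ← hk, h2, map_sub, hkk]
  · rw [← hk, hk', h.b]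

theorem Framed.kill {z : GLInf F} {g : Q ≃ₗ[F] Q} {p : V F →ₗ[F] Q} {i : Q →ₗ[F] V F}
    (h : Framed z g p i) (hi : Function.Injective i) {n : ℕ} (hz : z.1 ∈ stage F n) :
    Kill n p := by
  intro j hj
  apply hi
  rw [h.a, hz.1 j hj, sub_self, map_zero]

theorem Framed.low {z : GLInf F} {g : Q ≃ₗ[F] Q} {p : V F →ₗ[F] Q} {i : Q →ₗ[F] V F}
    (h : Framed z g p i) (hp : Function.Surjective p) {n : ℕ} (hz : z.1 ∈ stage F n) :
    Low n i := by
  intro q j hj
  obtain ⟨v, rfl⟩ := hp q
  rw [h.a, Finsupp.sub_apply, hz.2 v j hj, sub_self]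

theorem isConj_std {z : GLInf F} {g : Q ≃ₗ[F] Q} {p : V F →ₗ[F] Q}
    {i : Q →ₗ[F] V F} (h : Framed z g p i) (hp : Function.Surjective p)
    (hi : Function.Injective i) {n : ℕ} (hz : z.1 ∈ stage F n) : IsConj z (std b n g) := by
  have hkill := h.kill hi hz
  have hlow := h.low hp hz
  obtain ⟨s0, hs0⟩ := LinearMap.exists_leftInverse_of_injective i (LinearMap.ker_eq_bot.2 hi)
  obtain ⟨r0, hr0⟩ := LinearMap.exists_rightInverse_of_surjective p (LinearMap.range_eq_top.2 hp)
  have hs0' : ∀ q, s0 (i q) = q := fun q => by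
    have := congrArg (fun f => f q) hs0
    simpa using this
  have hr0' : ∀ q, p (r0 q) = q := fun q => by
    have := congrArg (fun f => f q) hr0
    simpa using this
  set s : V F →ₗ[F] Q := s0 ∘ₗ cut n with hs
  set r : Q →ₗ[F] V F := cut n ∘ₗ r0 with hr
  have hsi : ∀ q, s (i q) = q := fun q => by
    rw [hs, LinearMap.comp_apply, cut_of_forall (hlow q), hs0']
  have hskill : Kill n s := Kill.comp_cut s0
  have hpr : ∀ q, p (r q) = q := fun q => by
    rw [hr, LinearMap.comp_apply, hkill.apply_cut, hr0']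
  have hrlow : Low n r := fun q j hj => low_cut n (r0 q) j hj
  have hsinc : ∀ k, n ≤ k → ∀ q, s (inc b k q) = 0 := fun k hk q =>
    hskill.apply_eq_zero fun j hj => inc_coord_zero b k q j (Or.inl (by omega))
  have hpinc : ∀ k, n ≤ k → ∀ q, p (inc b k q) = 0 := fun k hk q =>
    hkill.apply_eq_zero fun j hj => inc_coord_zero b k q j (Or.inl (by omega))
  have hpri : ∀ k, n ≤ k → ∀ q, pr b k (i q) = 0 := fun k hk q =>
    pr_eq_zero b k _ fun j h1 h2 => hlow q j (by omega)
  have hprr : ∀ k, n ≤ k → ∀ q, pr b k (r q) = 0 := fun k hk q =>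
    pr_eq_zero b k _ fun j h1 h2 => hrlow q j (by omega)
  -- first step
  let k1 : GLInf F := mkG s (inc b n) (LinearEquiv.refl F Q)
    (fun q => by rw [hsinc n le_rfl]; simp) (n + m + m) (low_inc b (by omega))
    (hskill.mono (by omega))
  have h1 : Framed (k1 * z * k1⁻¹) g p (i + inc b n) := h.conj' k1
    (fun q => by rw [mkG_apply, hsi]; rfl)
    (fun v => by rw [mkG_apply, map_add, hpinc n le_rfl, add_zero])
  -- second step
  let k2 : GLInf F := mkG (pr b n) (-i) (LinearEquiv.refl F Q)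
    (fun q => by rw [LinearMap.neg_apply, map_neg, hpri n le_rfl]; simp) (n + m + m)
    (fun q j hj => by
      rw [LinearMap.neg_apply, Finsupp.neg_apply, hlow q j (by omega), neg_zero])
    (kill_pr b (by omega))
  have hk2 : ∀ v, k2.1 v = v + (-i) (pr b n v) := fun v => rfl
  have h2 := h1.conj' k2 (p' := p + (g.toLinearMap - LinearMap.id) ∘ₗ pr b n) (i' := inc b n)
    (fun q => by
      rw [hk2, LinearMap.add_apply, map_add, hpri n le_rfl, pr_inc, zero_add,
        LinearMap.neg_apply]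
      abel)
    (fun v => by
      rw [hk2, LinearMap.add_apply, LinearMap.comp_apply]
      simp only [map_add, LinearMap.neg_apply, map_neg, hpri n le_rfl, h.b, neg_zero, add_zero,
        LinearMap.sub_apply, LinearEquiv.coe_coe, LinearMap.id_apply]
      abel)
  -- third step
  let k3 : GLInf F := mkG (pr b (n + m)) (-r) (LinearEquiv.refl F Q)
    (fun q => by rw [LinearMap.neg_apply, map_neg, hprr (n + m) (by omega)]; simp) (n + m + m)
    (fun q j hj => by
      rw [LinearMap.neg_apply, Finsupp.neg_apply, hrlow q j (by omega), neg_zero])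
    (kill_pr b (by omega))
  have hk3 : ∀ v, k3.1 v = v + (-r) (pr b (n + m) v) := fun v => rfl
  have h3 := h2.conj' k3
    (p' := p + (g.toLinearMap - LinearMap.id) ∘ₗ pr b n + pr b (n + m)) (i' := inc b n)
    (fun q => by
      rw [hk3, pr_inc_zero b (Or.inr le_rfl), map_zero, add_zero])
    (fun v => by
      rw [hk3, LinearMap.add_apply, LinearMap.add_apply, LinearMap.comp_apply,
        LinearMap.add_apply, LinearMap.comp_apply]
      simp only [map_add, LinearMap.neg_apply, map_neg, hprr n le_rfl,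
        hprr (n + m) (Nat.le_add_right n m), hpr, neg_zero, add_zero]
      abel)
  -- fourth step
  let k4 : GLInf F := mkG p (inc b (n + m)) (LinearEquiv.refl F Q)
    (fun q => by rw [hpinc (n + m) (by omega)]; simp) (n + m + m)
    (low_inc b (by omega)) (hkill.mono (by omega))
  have hk4 : ∀ v, k4.1 v = v + inc b (n + m) (p v) := fun v => rfl
  have h4 := h3.conj' k4
    (p' := (g.toLinearMap - LinearMap.id) ∘ₗ pr b n + pr b (n + m)) (i' := inc b n)
    (fun q => by
      rw [hk4, hpinc n le_rfl, map_zero, add_zero])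
    (fun v => by
      rw [hk4, LinearMap.add_apply, LinearMap.add_apply, LinearMap.comp_apply,
        LinearMap.add_apply, LinearMap.comp_apply]
      simp only [map_add, pr_inc, pr_inc_zero b (k := n) (l := n + m) (Or.inl le_rfl), add_zero]
      abel)
  have h5 : k4 * (k3 * (k2 * (k1 * z * k1⁻¹) * k2⁻¹) * k3⁻¹) * k4⁻¹ = std b n g :=
    GLInf.ext' fun v => by
      have e1 := h4.a v
      have e2 := (std_framed b n g).a v
      rw [e1] at e2
      exact sub_left_injective e2
  rw [← h5, isConj_iff]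
  exact ⟨k4 * k3 * k2 * k1, by group⟩

end coords

/-- two finitary automorphisms with the same type are conjugate -/
theorem isConj_of_framed [Module.Finite F Q] {z z' : GLInf F} {g : Q ≃ₗ[F] Q}
    {p p' : V F →ₗ[F] Q} {i i' : Q →ₗ[F] V F} (h : Framed z g p i) (h' : Framed z' g p' i')
    (hp : Function.Surjective p) (hi : Function.Injective i) (hp' : Function.Surjective p')
    (hi' : Function.Injective i') : IsConj z z' := by
  obtain ⟨n, hn⟩ := z.2
  obtain ⟨n', hn'⟩ := z'.2
  exact (isConj_std (Module.finBasis F Q) h hp hi (stage_mono F (le_max_left n n') hn)).trans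
    (isConj_std (Module.finBasis F Q) h' hp' hi' (stage_mono F (le_max_right n n') hn')).symm

/-- the class of `GL_∞` attached to an automorphism of a finite-dimensional space -/
noncomputable def cls [Module.Finite F Q] (g : Q ≃ₗ[F] Q) : ConjClasses (GLInf F) :=
  ConjClasses.mk (std (Module.finBasis F Q) 0 g)

theorem lenC_cls [Module.Finite F Q] (g : Q ≃ₗ[F] Q) : lenC (cls g) = Module.finrank F Q := by
  rw [cls, lenC_mk, len_std]

theorem mk_eq_cls_iff [Module.Finite F Q] {z : GLInf F} {g : Q ≃ₗ[F] Q} :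
    ConjClasses.mk z = cls g ↔ len z = Module.finrank F Q ∧
      ∃ (p : V F →ₗ[F] Q) (i : Q →ₗ[F] V F), Framed z g p i := by
  constructor
  · intro h
    refine ⟨by rw [← lenC_mk, h, lenC_cls], ?_⟩
    rw [cls, ConjClasses.mk_eq_mk_iff_isConj, isConj_comm, isConj_iff] at h
    obtain ⟨c, hc⟩ := h
    rw [← hc]
    exact ⟨_, _, (std_framed _ 0 g).conj c⟩
  · rintro ⟨hl, p, i, h⟩
    obtain ⟨hp, hi⟩ := surj_inj h.a hl.ge
    rw [cls, ConjClasses.mk_eq_mk_iff_isConj]
    exact isConj_of_framed h (std_framed _ 0 g) hp hi (std_surj _ 0 g) (inc_inj _ 0)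

end basic

end Pool.Agent.W446.SC
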