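import Pool.Agent.W446.SCRing

/-!
# The class sums in the group rings `ℤ[GL_n(F)]`
-/

namespace Pool.Agent.W446.SC

variable {F : Type} [Field F]

/-- the inclusion `GL_n(F) ⊂ GL_∞(F)` -/
def toInf {n : ℕ} (x : GLn F n) : GLInf F := ⟨x.1, n, x.2⟩

instance [Finite F] (n : ℕ) : Finite (GLn F n) := inferInstanceAs (Finite (stage F n))

/-- the class sum `K_C(n)`: the sum in `ℤ[GL_n(F)]` of the elements of `C ∩ GL_n(F)` -/
noncomputable def classSum (n : ℕ) (C : ConjClasses (GLInf F)) : MonoidAlgebra ℤ (GLn F n) :=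
  ∑ᶠ x ∈ {x : GLn F n | ConjClasses.mk (toInf x) = C}, MonoidAlgebra.single x 1

theorem coeff_classSum [Finite F] (n : ℕ) (C : ConjClasses (GLInf F)) (x : GLn F n) :
    (classSum n C).coeff x = open Classical in if ConjClasses.mk (toInf x) = C then 1 else 0 := by
  classical
  have hfin : {x : GLn F n | ConjClasses.mk (toInf x) = C}.Finite := Set.toFinite _
  unfold classSum
  rw [finsum_mem_eq_finite_toFinset_sum _ hfin]
  have h2 : ∀ (s : Finset (GLn F n)) (f : GLn F n → MonoidAlgebra ℤ (GLn F n)),
      (∑ E ∈ s, f E).coeff x = ∑ E ∈ s, (f E).coeff x := by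
    intro s f
    induction s using Finset.induction_on with
    | empty => rfl
    | insert a s ha ih =>
      rw [Finset.sum_insert ha, Finset.sum_insert ha, ← ih]
      rfl
  rw [h2]
  simp only [MonoidAlgebra.coeff_single, Finsupp.single_apply]
  rw [Finset.sum_ite_eq']
  simp

theorem coeff_mul_classSum [Finite F] (n : ℕ) (C D : ConjClasses (GLInf F)) (z : GLn F n) :
    (lenC C + lenC D < len (toInf z) → (classSum n C * classSum n D).coeff z = 0) ∧
    (lenC C + lenC D = len (toInf z) → (classSum n C * classSum n D).coeff z =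
      structConst C D (ConjClasses.mk (toInf z))) := by
  classical
  have hfin : {p : GLn F n × GLn F n | p.1 * p.2 = z}.Finite := Set.toFinite _
  have h1 : (classSum n C * classSum n D).coeff z =
      ∑ p ∈ hfin.toFinset, (classSum n C).coeff p.1 * (classSum n D).coeff p.2 :=
    MonoidAlgebra.coeff_mul_antidiag _ _ _ _ (fun {p} => by simp)
  rw [h1]
  simp only [coeff_classSum]
  constructor
  · intro h
    refine Finset.sum_eq_zero fun p hp => ?_
    have hp' : p.1 * p.2 = z := by simpa using hp
    by_cases h5 : ConjClasses.mk (toInf p.1) = C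
    · by_cases h6 : ConjClasses.mk (toInf p.2) = D
      · exfalso
        have h7 := len_mul_le (toInf p.1) (toInf p.2)
        have h8 : toInf p.1 * toInf p.2 = toInf z := by rw [← hp']; rfl
        rw [h8, ← lenC_mk (toInf p.1), ← lenC_mk (toInf p.2), h5, h6] at h7
        omega
      · rw [if_neg h6, mul_zero]
    · rw [if_neg h5, zero_mul]
  · intro h
    rw [structConst_mk]
    have h4 : ∀ p : GLn F n × GLn F n,
        (if ConjClasses.mk (toInf p.1) = C then (1 : ℤ) else 0) *
          (if ConjClasses.mk (toInf p.2) = D then 1 else 0) =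
          if ConjClasses.mk (toInf p.1) = C ∧ ConjClasses.mk (toInf p.2) = D then 1 else 0 := by
      intro p
      by_cases h5 : ConjClasses.mk (toInf p.1) = C <;>
        by_cases h6 : ConjClasses.mk (toInf p.2) = D <;> simp [h5, h6]
    simp only [h4]
    rw [← Finset.sum_filter, Finset.sum_const, nsmul_eq_mul, mul_one]
    congr 1
    unfold numFact
    rw [← Nat.subtype_card (p := fun p : GLn F n × GLn F n =>
      ConjClasses.mk (toInf p.1) = C ∧ ConjClasses.mk (toInf p.2) = D ∧ p.1 * p.2 = z)
      (Finset.filter (fun p => ConjClasses.mk (toInf p.1) = C ∧ ConjClasses.mk (toInf p.2) = D)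
        hfin.toFinset) (by
        intro p
        rw [Finset.mem_filter]
        have : p ∈ hfin.toFinset ↔ p.1 * p.2 = z := by simp
        rw [this]
        tauto)]
    refine Nat.card_eq_of_bijective
      (fun p => ⟨(toInf p.1.1, toInf p.1.2), p.2.1, p.2.2.1, congrArg toInf p.2.2.2⟩) ⟨?_, ?_⟩
    · intro p q hpq
      have h5 := congrArg (fun t => t.1) hpq
      simp only [Prod.mk.injEq] at h5
      apply Subtype.ext
      refine Prod.ext ?_ ?_
      · exact Subtype.ext (congrArg (fun t : GLInf F => t.1) h5.1)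
      · exact Subtype.ext (congrArg (fun t : GLInf F => t.1) h5.2)
    · rintro ⟨⟨x, y⟩, h5, h6, h7⟩
      simp only at h5 h6 h7
      have h8 : len x + len y = len (toInf z) := by
        rw [← h, ← h5, ← h6, lenC_mk, lenC_mk]
      obtain ⟨hx, hy⟩ := factor_stage h7 h8 z.2
      exact ⟨⟨(⟨x.1, hx⟩, ⟨y.1, hy⟩), h5, h6, Subtype.ext (congrArg (fun t : GLInf F => t.1) h7)⟩,
        rfl⟩

end Pool.Agent.W446.SC
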