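import Pool.Agent.W446.SCStruct
import Pool.Agent.W446.SCAlg

/-!
# The rational stable center is a polynomial algebra
-/

namespace Pool.Agent.W446.SC

open Polynomial Module

variable {F : Type} [Field F]

theorem exists_cls (z : GLInf F) : ∃ g : (Fin (len z) → F) ≃ₗ[F] (Fin (len z) → F),
    ConjClasses.mk z = cls g := by
  have h1 : len z = Module.finrank F (Fin (len z) → F) := by simp
  obtain ⟨p, i, h⟩ := exists_factor (Q := Fin (len z) → F) z h1
  obtain ⟨hp, hi⟩ := surj_inj h h1.ge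
  obtain ⟨g, hg⟩ := exists_type h hi
  exact ⟨g, mk_eq_cls_iff.2 ⟨h1, p, i, hg⟩⟩

theorem finite_len [Finite F] (n : ℕ) : {E : ConjClasses (GLInf F) | lenC E = n}.Finite := by
  have : Finite ((Fin n → F) ≃ₗ[F] (Fin n → F)) :=
    Finite.of_injective (fun e => (e : (Fin n → F) → (Fin n → F))) DFunLike.coe_injective
  refine (Set.finite_range fun g : (Fin n → F) ≃ₗ[F] (Fin n → F) => cls g).subset ?_
  intro E hE
  obtain ⟨z, rfl⟩ := ConjClasses.exists_rep E
  obtain ⟨g, hg⟩ := exists_cls z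
  have hn : len z = n := hE
  subst hn
  exact ⟨g, hg.symm⟩

/-- the family attached to a multiset -/
noncomputable def famOf (μ : Multiset (Cyc F)) : Fin μ.toList.length → Cyc F :=
  fun i => μ.toList.get i

theorem map_famOf (μ : Multiset (Cyc F)) :
    Multiset.map (famOf μ) Finset.univ.val = μ := by
  conv_rhs => rw [← Multiset.coe_toList μ]
  have h1 : (Finset.univ : Finset (Fin μ.toList.length)).val =
    (List.finRange μ.toList.length : Multiset _) := rfl
  rw [h1, Multiset.map_coe]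
  congr 1
  exact List.map_get_finRange μ.toList

/-- the class attached to a multiset of prime powers -/
noncomputable def Ecls (μ : Multiset (Cyc F)) : ConjClasses (GLInf F) := cfam (famOf μ)

/-- the standard automorphism attached to a multiset of prime powers -/
noncomputable def gOf (μ : Multiset (Cyc F)) : MM (famOf μ) ≃ₗ[F] MM (famOf μ) :=
  gX (MM (famOf μ)) (MM_bij (famOf μ))

theorem cls_gOf (μ : Multiset (Cyc F)) : cls (gOf μ) = Ecls μ := rfl

theorem Ecls_bijective [Finite F] :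
    Function.Bijective (Ecls : Multiset (Cyc F) → ConjClasses (GLInf F)) := by
  constructor
  · intro μ ν h
    have := cfam_inj h
    rwa [map_famOf, map_famOf] at this
  · intro E
    obtain ⟨z, rfl⟩ := ConjClasses.exists_rep E
    obtain ⟨g, hg⟩ := exists_cls z
    obtain ⟨ι, _, s, hs⟩ := exists_fam g
    refine ⟨Multiset.map s Finset.univ.val, ?_⟩
    rw [hg, hs]
    exact cfam_congr (map_famOf _)

theorem cls_prod (μ ν : Multiset (Cyc F)) :
    cls ((gOf μ).prodCongr (gOf ν)) = Ecls (μ + ν) := by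
  have h1 : cls ((gOf μ).prodCongr (gOf ν)) = cfam (Sum.elim (famOf μ) (famOf ν)) :=
    cfam_sum (famOf μ) (famOf ν)
  rw [h1]
  apply cfam_congr
  rw [map_famOf]
  have h2 : (Finset.univ : Finset (Fin μ.toList.length ⊕ Fin ν.toList.length)).val =
      Multiset.map Sum.inl Finset.univ.val + Multiset.map Sum.inr Finset.univ.val := rfl
  rw [h2, Multiset.map_add, Multiset.map_map, Multiset.map_map]
  have h3 : (Sum.elim (famOf μ) (famOf ν)) ∘ Sum.inl = famOf μ := rfl
  have h4 : (Sum.elim (famOf μ) (famOf ν)) ∘ Sum.inr = famOf ν := rfl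
  rw [h3, h4, map_famOf, map_famOf]

theorem lenC_add (μ ν : Multiset (Cyc F)) :
    lenC (Ecls (μ + ν)) = lenC (Ecls μ) + lenC (Ecls ν) := by
  rw [← cls_prod, lenC_cls, ← cls_gOf, ← cls_gOf, lenC_cls, lenC_cls, Module.finrank_prod]

theorem Ecls_singleton (s : Cyc F) : Ecls {s} = cls (gX (CM s) (CM_bij s)) := by
  have h1 : Ecls {s} = cfam (fun _ : Unit => s) := by
    apply cfam_congr
    rw [map_famOf]
    rfl
  rw [h1]
  exact cls_gX_eq (LinearEquiv.funUnique Unit F[X] (CM s))

/-- the order of the centraliser -/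
noncomputable def ww (μ : Multiset (Cyc F)) : ℕ := cent (gOf μ)

theorem structConst_mul [Finite F] (μ ν κ : Multiset (Cyc F))
    (h : lenC (Ecls κ) = lenC (Ecls μ) + lenC (Ecls ν)) :
    structConst (Ecls μ) (Ecls ν) (Ecls κ) * (ww μ * ww ν) =
      cnt (gOf μ) (gOf ν) (Ecls κ) * ww κ := by
  have h1 : ConjClasses.mk (Quotient.out (Ecls κ)) = Ecls κ := Quotient.out_eq _
  have h2 : len (Quotient.out (Ecls κ)) =
      Module.finrank F (MM (famOf μ)) + Module.finrank F (MM (famOf ν)) := by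
    have h3 : lenC (ConjClasses.mk (Quotient.out (Ecls κ))) = lenC (Ecls κ) := by rw [h1]
    rw [lenC_mk] at h3
    rw [h3, h, ← cls_gOf, ← cls_gOf, lenC_cls, lenC_cls]
  have h3 := numFact_mul (gOf μ) (gOf ν) (gOf κ) (z := Quotient.out (Ecls κ)) h1 h2
  rw [h1] at h3
  exact h3

theorem one_eq_Ecls : ConjClasses.mk (1 : GLInf F) = Ecls 0 := by
  have hs : Subsingleton (MM (famOf (0 : Multiset (Cyc F)))) := by
    have : IsEmpty (Fin (0 : Multiset (Cyc F)).toList.length) := by
      rw [Multiset.toList_zero]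
      exact Fin.isEmpty
    infer_instance
  rw [← cls_gOf]
  refine mk_eq_cls_iff.2 ⟨?_, 0, 0, ⟨fun v => ?_, fun q => Subsingleton.elim _ _⟩⟩
  · rw [Module.finrank_zero_of_subsingleton]
    unfold len
    have h1 : defect (1 : GLInf F) = 0 := by
      refine LinearMap.ext fun v => ?_
      rw [defect_apply]
      exact sub_self v
    rw [h1, LinearMap.range_zero]
    exact finrank_bot _ _
  · have h1 : (1 : GLInf F).1 v = v := rfl
    rw [h1, sub_self]
    rfl

theorem ww_zero : ww (0 : Multiset (Cyc F)) = 1 := by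
  have hs : Subsingleton (MM (famOf (0 : Multiset (Cyc F)))) := by
    have : IsEmpty (Fin (0 : Multiset (Cyc F)).toList.length) := by
      rw [Multiset.toList_zero]
      exact Fin.isEmpty
    infer_instance
  unfold ww cent
  rw [Nat.card_eq_one_iff_unique]
  refine ⟨⟨fun a b => Subtype.ext (LinearEquiv.ext fun q => Subsingleton.elim _ _)⟩,
    ⟨⟨LinearEquiv.refl F _, fun q => rfl⟩⟩⟩

theorem structConst_one (D E : ConjClasses (GLInf F)) :
    structConst (ConjClasses.mk 1) D E = open Classical in if D = E then 1 else 0 := by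
  classical
  unfold structConst numFact
  have h1 : ConjClasses.mk (Quotient.out E) = E := Quotient.out_eq _
  have h2 : ∀ x : GLInf F, ConjClasses.mk x = ConjClasses.mk 1 → x = 1 := by
    intro x hx
    rw [ConjClasses.mk_eq_mk_iff_isConj, isConj_comm, isConj_iff] at hx
    obtain ⟨c, hc⟩ := hx
    rw [← hc, mul_one, mul_inv_cancel]
  split_ifs with h
  · rw [Nat.card_eq_one_iff_unique]
    refine ⟨⟨fun a b => Subtype.ext ?_⟩, ⟨⟨(1, Quotient.out E), rfl, by rw [h, h1],
      one_mul _⟩⟩⟩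
    obtain ⟨⟨a1, a2⟩, ha1, ha2, ha3⟩ := a
    obtain ⟨⟨b1, b2⟩, hb1, hb2, hb3⟩ := b
    simp only at ha1 ha2 ha3 hb1 hb2 hb3
    have e1 := h2 a1 ha1
    have e2 := h2 b1 hb1
    subst e1 e2
    rw [one_mul] at ha3 hb3
    exact Prod.ext rfl (ha3.trans hb3.symm)
  · have : IsEmpty {p : GLInf F × GLInf F // ConjClasses.mk p.1 = ConjClasses.mk 1 ∧
        ConjClasses.mk p.2 = D ∧ p.1 * p.2 = Quotient.out E} := by
      refine ⟨fun a => h ?_⟩
      obtain ⟨⟨a1, a2⟩, ha1, ha2, ha3⟩ := a
      simp only at ha1 ha2 ha3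
      have e1 := h2 a1 ha1
      subst e1
      rw [one_mul] at ha3
      rw [← ha2, ha3, h1]
    exact Nat.card_of_isEmpty

section alg

variable {A : Type} [CommRing A] [Algebra ℚ A] {K : Basis (ConjClasses (GLInf F)) ℚ A}

theorem K_one [Finite F] (hK : IsStableCenter K) : K (ConjClasses.mk 1) = 1 := by
  classical
  have h1 : ∀ D, K (ConjClasses.mk 1) * K D = K D := by
    intro D
    have hl : lenC (ConjClasses.mk (1 : GLInf F)) = 0 := by
      rw [one_eq_Ecls]
      have := lenC_add (F := F) 0 0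
      rw [add_zero] at this
      omega
    rw [hK, hl, zero_add, finsum_mem_eq_finite_toFinset_sum _ (finite_len _),
      Finset.sum_eq_single D]
    · rw [structConst_one, if_pos rfl, Nat.cast_one, one_smul]
    · intro E _ hE
      rw [structConst_one, if_neg (Ne.symm hE), Nat.cast_zero, zero_smul]
    · intro h
      exact absurd ((finite_len (lenC D)).mem_toFinset.2 rfl) h
  have h2 : LinearMap.mulLeft ℚ (K (ConjClasses.mk 1)) = LinearMap.id :=
    K.ext fun D => by rw [LinearMap.mulLeft_apply, h1, LinearMap.id_apply]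
  have h3 := LinearMap.congr_fun h2 1
  rwa [LinearMap.mulLeft_apply, mul_one, LinearMap.id_apply] at h3

theorem ww_pos [Finite F] (μ : Multiset (Cyc F)) : 0 < ww μ := cent_pos _

/-- the rescaled basis `|C(E)| K_E`, indexed by multisets -/
noncomputable def eB [Finite F] (K : Basis (ConjClasses (GLInf F)) ℚ A) :
    Basis (Multiset (Cyc F)) ℚ A :=
  (K.reindex (Equiv.ofBijective Ecls Ecls_bijective).symm).unitsSMul
    fun μ => Units.mk0 (ww μ : ℚ) (by exact_mod_cast (ww_pos μ).ne')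

theorem eB_apply [Finite F] (K : Basis (ConjClasses (GLInf F)) ℚ A) (μ : Multiset (Cyc F)) :
    eB K μ = (ww μ : ℚ) • K (Ecls μ) := by
  unfold eB
  rw [Basis.unitsSMul_apply, Basis.reindex_apply, Units.smul_def]
  rfl

theorem eB_mul [Finite F] (hK : IsStableCenter K) {l : ℕ} (hl : l.Prime)
    (hlF : l ∣ Nat.card Fˣ) (μ ν : Multiset (Cyc F)) :
    ∃ x ∈ Lat (eB K) (fun κ => lenC (Ecls κ)) (lenC (Ecls μ) + lenC (Ecls ν)),
      eB K μ * eB K ν = eB K (μ + ν) + (l : A) * x := by
  classical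
  set n := lenC (Ecls μ) + lenC (Ecls ν) with hn
  have hI : {κ : Multiset (Cyc F) | lenC (Ecls κ) = n}.Finite :=
    Set.Finite.preimage (Ecls_bijective.1.injOn) (finite_len n)
  have hS : (finite_len (F := F) n).toFinset = hI.toFinset.image Ecls := by
    ext E
    simp only [Set.Finite.mem_toFinset, Finset.mem_image, Set.mem_ofPred_eq]
    constructor
    · intro h
      obtain ⟨κ, rfl⟩ := Ecls_bijective.2 E
      exact ⟨κ, h, rfl⟩
    · rintro ⟨κ, h, rfl⟩
      exact h
  have h1 : eB K μ * eB K ν = ∑ κ ∈ hI.toFinset,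
      (cnt (gOf μ) (gOf ν) (Ecls κ) : ℚ) • eB K κ := by
    rw [eB_apply, eB_apply, smul_mul_smul_comm, hK,
      finsum_mem_eq_finite_toFinset_sum _ (finite_len n), hS,
      Finset.sum_image (Ecls_bijective.1.injOn), Finset.smul_sum]
    refine Finset.sum_congr rfl fun κ hκ => ?_
    have hκ' : lenC (Ecls κ) = lenC (Ecls μ) + lenC (Ecls ν) := hI.mem_toFinset.1 hκ
    rw [eB_apply, smul_smul, smul_smul]
    congr 1
    have := structConst_mul μ ν κ hκ'
    have h2 : ((structConst (Ecls μ) (Ecls ν) (Ecls κ) * (ww μ * ww ν) : ℕ) : ℚ) =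
      ((cnt (gOf μ) (gOf ν) (Ecls κ) * ww κ : ℕ) : ℚ) := by rw [this]
    push_cast at h2
    linarith
  have hd : ∀ κ, ∃ d : ℤ, (cnt (gOf μ) (gOf ν) (Ecls κ) : ℤ) =
      (if κ = μ + ν then 1 else 0) + l * d := by
    intro κ
    have h2 := cnt_modEq (gOf μ) (gOf ν) (Ecls κ) hl hlF
    rw [cls_prod] at h2
    have h3 : (Ecls (μ + ν) = Ecls κ) ↔ κ = μ + ν :=
      ⟨fun h => (Ecls_bijective.1 h).symm, fun h => by rw [h]⟩
    simp only [h3] at h2
    have h4 := (Nat.modEq_iff_dvd.1 h2.symm)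
    obtain ⟨d, hd⟩ := h4
    refine ⟨d, ?_⟩
    push_cast at hd
    linarith
  choose d hd using hd
  refine ⟨∑ κ ∈ hI.toFinset, d κ • eB K κ, ?_, ?_⟩
  · refine sum_mem fun κ hκ => zsmul_mem ?_ _
    exact AddSubgroup.subset_closure ⟨κ, hI.mem_toFinset.1 hκ, rfl⟩
  · rw [h1, Finset.mul_sum]
    have h2 : ∀ κ, (cnt (gOf μ) (gOf ν) (Ecls κ) : ℚ) • eB K κ =
        (if κ = μ + ν then eB K κ else 0) + (l : A) * d κ • eB K κ := by
      intro κ
      have h3 : (cnt (gOf μ) (gOf ν) (Ecls κ) : ℚ) =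
          ((cnt (gOf μ) (gOf ν) (Ecls κ) : ℤ) : ℚ) := by push_cast; rfl
      rw [h3, hd]
      push_cast
      rw [add_smul, mul_smul, Nat.cast_smul_eq_nsmul, Int.cast_smul_eq_zsmul, nsmul_eq_mul]
      congr 1
      split_ifs <;> simp
    rw [Finset.sum_congr rfl (fun κ _ => h2 κ), Finset.sum_add_distrib]
    congr 1
    rw [Finset.sum_ite_eq' hI.toFinset (μ + ν) (fun κ => eB K κ), if_pos]
    exact hI.mem_toFinset.2 (lenC_add μ ν)

/-- **Main theorem.** -/
theorem main_bijective [Finite F] (hF : 3 ≤ Nat.card F) (hK : IsStableCenter K) :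
    Function.Bijective (MvPolynomial.aeval (R := ℚ)
      fun s : Cyc F => K (cls (gX (CM s) (CM_bij s)))) := by
  classical
  have hu : Nat.card Fˣ ≠ 1 := by
    have : Nat.card Fˣ = Nat.card F - 1 := Nat.card_units F
    omega
  obtain ⟨l, hl, hlF⟩ := Nat.exists_prime_and_dvd hu
  have h1 : eB K 0 = 1 := by
    rw [eB_apply, ww_zero, Nat.cast_one, one_smul, ← one_eq_Ecls, K_one hK]
  have h2 := aeval_bijective (eB K) (fun κ => lenC (Ecls κ)) hl.two_le (eB_mul hK hl hlF)
    lenC_add h1 (fun n => Set.Finite.preimage (Ecls_bijective.1.injOn) (finite_len n))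
  -- rescaling
  let f : Cyc F → A := fun s => K (cls (gX (CM s) (CM_bij s)))
  let σ : MvPolynomial (Cyc F) ℚ →ₐ[ℚ] MvPolynomial (Cyc F) ℚ :=
    MvPolynomial.aeval fun s => MvPolynomial.C (ww {s} : ℚ) * MvPolynomial.X s
  let τ : MvPolynomial (Cyc F) ℚ →ₐ[ℚ] MvPolynomial (Cyc F) ℚ :=
    MvPolynomial.aeval fun s => MvPolynomial.C ((ww {s} : ℚ)⁻¹) * MvPolynomial.X s
  have hw : ∀ s : Cyc F, (ww {s} : ℚ) ≠ 0 := fun s => by exact_mod_cast (ww_pos {s}).ne'
  have hστ : ∀ p, σ (τ p) = p := by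
    intro p
    have : σ.comp τ = AlgHom.id ℚ _ := by
      apply MvPolynomial.algHom_ext
      intro s
      simp only [AlgHom.comp_apply, τ, σ, MvPolynomial.aeval_X, map_mul, MvPolynomial.aeval_C,
        MvPolynomial.algebraMap_eq, AlgHom.id_apply]
      rw [← mul_assoc, ← MvPolynomial.C_mul, inv_mul_cancel₀ (hw s), MvPolynomial.C_1, one_mul]
    exact AlgHom.congr_fun this p
  have hτσ : ∀ p, τ (σ p) = p := by
    intro p
    have : τ.comp σ = AlgHom.id ℚ _ := by
      apply MvPolynomial.algHom_ext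
      intro s
      simp only [AlgHom.comp_apply, τ, σ, MvPolynomial.aeval_X, map_mul, MvPolynomial.aeval_C,
        MvPolynomial.algebraMap_eq, AlgHom.id_apply]
      rw [← mul_assoc, ← MvPolynomial.C_mul, mul_inv_cancel₀ (hw s), MvPolynomial.C_1, one_mul]
    exact AlgHom.congr_fun this p
  have hfe : ∀ p, MvPolynomial.aeval (R := ℚ) f (σ p) =
      MvPolynomial.aeval (R := ℚ) (fun s : Cyc F => eB K {s}) p := by
    intro p
    have : (MvPolynomial.aeval (R := ℚ) f).comp σ =
        MvPolynomial.aeval (R := ℚ) (fun s : Cyc F => eB K {s}) := by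
      apply MvPolynomial.algHom_ext
      intro s
      simp only [AlgHom.comp_apply, σ, MvPolynomial.aeval_X, map_mul, MvPolynomial.aeval_C]
      rw [eB_apply, Ecls_singleton, Algebra.smul_def]
    exact AlgHom.congr_fun this p
  constructor
  · intro p q hpq
    have h3 : MvPolynomial.aeval (R := ℚ) (fun s : Cyc F => eB K {s}) (τ p) =
        MvPolynomial.aeval (R := ℚ) (fun s : Cyc F => eB K {s}) (τ q) := by
      rw [← hfe, ← hfe, hστ, hστ]
      exact hpq
    have h4 := h2.1 h3
    rw [← hστ p, ← hστ q, h4]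
  · intro a
    obtain ⟨p, hp⟩ := h2.2 a
    exact ⟨σ p, by rw [← hp]; exact hfe p⟩

end alg

end Pool.Agent.W446.SC
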