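import Pool.Agent.W446.SCMain

/-!
# Existence of the stable center; group rings of the finite groups `GL_n(F)`
-/

namespace Pool.Agent.W446.SC

open Module

variable {F : Type} [Field F]

/-- in a length-additive factorisation `x y = z`, the factors lie in every `GL_n` containing `z` -/
theorem factor_stage {x y z : GLInf F} (hxy : x * y = z) (hl : len x + len y = len z) {n : ℕ}
    (hz : z.1 ∈ stage F n) : x.1 ∈ stage F n ∧ y.1 ∈ stage F n := by
  obtain ⟨p1, i1, h1⟩ := exists_factor (Q := Fin (len x) → F) x (by simp)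
  obtain ⟨-, hi1⟩ := surj_inj h1 (by simp)
  obtain ⟨c, hc⟩ := exists_type h1 hi1
  obtain ⟨p2, i2, h2⟩ := exists_factor (Q := Fin (len y) → F) y (by simp)
  obtain ⟨-, hi2⟩ := surj_inj h2 (by simp)
  obtain ⟨d, hd⟩ := exists_type h2 hi2
  let t : Lhs c d z := ⟨((x, y), ((p1, i1), (p2, i2))), hxy, hc, hd⟩
  have ht := (toRhs c d z t).2
  have hzl : Module.finrank F ((Fin (len x) → F) × (Fin (len y) → F)) ≤ len z := by
    rw [Module.finrank_prod, ← hl]
    simp
  obtain ⟨hp, hi⟩ := surj_inj ht.a hzl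
  have hkill := ht.kill hi hz
  have hlow := ht.low hp hz
  have hk2 : Kill n p2 := fun j hj => congrArg Prod.snd (hkill j hj)
  have hk1 : Kill n p1 := fun j hj => by
    have h3 : p1 (Finsupp.single j 1) + p1 (i2 (p2 (Finsupp.single j 1))) = 0 :=
      congrArg Prod.fst (hkill j hj)
    rwa [hk2 j hj, map_zero, map_zero, add_zero] at h3
  have hl1 : Low n i1 := fun q j hj => by
    have h3 : (i1 q + i2 0) j = 0 := hlow (q, 0) j hj
    rwa [map_zero, add_zero] at h3
  have hl2 : Low n i2 := fun q j hj => by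
    have h3 : (i1 0 + i2 q) j = 0 := hlow (0, q) j hj
    rwa [map_zero, zero_add] at h3
  have ex : ∀ v, x.1 v = v + i1 (p1 v) := fun v => by rw [h1]; abel
  have ey : ∀ v, y.1 v = v + i2 (p2 v) := fun v => by rw [h2]; abel
  refine ⟨⟨fun j hj => ?_, fun v j hj => ?_⟩, ⟨fun j hj => ?_, fun v j hj => ?_⟩⟩
  · rw [ex, hk1 j hj, map_zero, add_zero]
  · rw [ex, Finsupp.add_apply, hl1 _ j hj, add_zero]
  · rw [ey, hk2 j hj, map_zero, add_zero]
  · rw [ey, Finsupp.add_apply, hl2 _ j hj, add_zero]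

instance finite_stage [Finite F] (n : ℕ) : Finite (stage F n) := by
  let m : stage F n → (Fin n → Fin n → F) := fun g i j => g.1 (Finsupp.single i 1) j
  refine Finite.of_injective m fun g g' h => ?_
  apply Subtype.ext
  apply LinearEquiv.toLinearMap_injective
  apply Finsupp.lhom_ext'
  intro i
  apply LinearMap.ext_ring
  change g.1 (Finsupp.single i 1) = g'.1 (Finsupp.single i 1)
  by_cases hi : i < n
  · ext j
    by_cases hj : j < n
    · exact congrFun (congrFun h ⟨i, hi⟩) ⟨j, hj⟩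
    · rw [g.2.2 _ j (not_lt.1 hj), g'.2.2 _ j (not_lt.1 hj)]
  · rw [g.2.1 i (not_lt.1 hi), g'.2.1 i (not_lt.1 hi)]

/-- the length-additive factorisations -/
def DD (z : GLInf F) : Set (GLInf F × GLInf F) := {p | p.1 * p.2 = z ∧ len p.1 + len p.2 = len z}

theorem finite_DD [Finite F] (z : GLInf F) : (DD z).Finite := by
  obtain ⟨n, hn⟩ := z.2
  have : Finite {x : GLInf F // x.1 ∈ stage F n} :=
    Finite.of_injective (fun x => (⟨x.1.1, x.2⟩ : stage F n)) fun x y h => by
      have h2 : x.1.1 = y.1.1 := congrArg (fun t : stage F n => t.1) h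
      exact Subtype.ext (Subtype.ext h2)
  have h1 : {x : GLInf F | x.1 ∈ stage F n}.Finite :=
    Set.finite_coe_iff.1 (show Finite ↑{x : GLInf F | x.1 ∈ stage F n} from this)
  refine (h1.prod h1).subset ?_
  rintro ⟨x, y⟩ ⟨hxy, hl⟩
  exact factor_stage hxy hl hn

/-- the length-additive factorisations, as a finite set -/
noncomputable def DF [Finite F] (z : GLInf F) : Finset (GLInf F × GLInf F) :=
  (finite_DD z).toFinset

theorem mem_DF [Finite F] {z : GLInf F} {p : GLInf F × GLInf F} :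
    p ∈ DF z ↔ p.1 * p.2 = z ∧ len p.1 + len p.2 = len z := (finite_DD z).mem_toFinset

theorem len_one : len (1 : GLInf F) = 0 := by
  have h1 := one_eq_Ecls (F := F)
  have h2 : lenC (ConjClasses.mk (1 : GLInf F)) = 0 := by
    rw [h1]
    have := lenC_add (F := F) 0 0
    rw [add_zero] at this
    omega
  exact h2

variable (F)

/-- functions on `GL_∞(F)`, to be multiplied by length-additive convolution -/
def Conv : Type := GLInf F → ℚ

variable {F}

noncomputable instance : AddCommGroup (Conv F) := inferInstanceAs (AddCommGroup (GLInf F → ℚ))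

noncomputable instance : Module ℚ (Conv F) := inferInstanceAs (Module ℚ (GLInf F → ℚ))

theorem Conv.add_apply (f g : Conv F) (z : GLInf F) : (f + g) z = f z + g z := rfl

theorem Conv.zero_apply (z : GLInf F) : (0 : Conv F) z = 0 := rfl

theorem Conv.smul_apply (a : ℚ) (f : Conv F) (z : GLInf F) : (a • f) z = a * f z := rfl

/-- length-additive convolution -/
noncomputable def Conv.mul [Finite F] (f g : Conv F) : Conv F :=
  fun z => ∑ p ∈ DF z, f p.1 * g p.2

/-- the unit -/
noncomputable def Conv.one : Conv F := fun z => open Classical in if z = 1 then 1 else 0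

theorem Conv.mul_assoc' [Finite F] (f g h : Conv F) :
    Conv.mul (Conv.mul f g) h = Conv.mul f (Conv.mul g h) := by
  funext w
  simp only [Conv.mul]
  simp only [Finset.sum_mul, Finset.mul_sum]
  rw [Finset.sum_sigma', Finset.sum_sigma']
  refine Finset.sum_bij' (fun a _ => ⟨(a.2.1, a.2.2 * a.1.2), (a.2.2, a.1.2)⟩)
    (fun a _ => ⟨(a.1.1 * a.2.1, a.2.2), (a.1.1, a.2.1)⟩) ?_ ?_ ?_ ?_ ?_
  · rintro ⟨⟨u, z⟩, ⟨x, y⟩⟩ h
    simp only [Finset.mem_sigma, mem_DF] at h ⊢
    obtain ⟨⟨h1, h2⟩, h3, h4⟩ := h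
    have h5 := len_mul_le y z
    have h6 := len_mul_le x (y * z)
    rw [← mul_assoc, h3, h1] at h6
    exact ⟨⟨by rw [← mul_assoc, h3, h1], by omega⟩, trivial, by omega⟩
  · rintro ⟨⟨x, v⟩, ⟨y, z⟩⟩ h
    simp only [Finset.mem_sigma, mem_DF] at h ⊢
    obtain ⟨⟨h1, h2⟩, h3, h4⟩ := h
    have h5 := len_mul_le x y
    have h6 := len_mul_le (x * y) z
    rw [mul_assoc, h3, h1] at h6
    exact ⟨⟨by rw [mul_assoc, h3, h1], by omega⟩, trivial, by omega⟩
  · rintro ⟨⟨u, z⟩, ⟨x, y⟩⟩ h
    simp only [Finset.mem_sigma, mem_DF] at h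
    obtain ⟨⟨h1, h2⟩, h3, h4⟩ := h
    rw [← h3]
  · rintro ⟨⟨x, v⟩, ⟨y, z⟩⟩ h
    simp only [Finset.mem_sigma, mem_DF] at h
    obtain ⟨⟨h1, h2⟩, h3, h4⟩ := h
    rw [← h3]
  · rintro ⟨⟨u, z⟩, ⟨x, y⟩⟩ h
    simp only
    ring

theorem Conv.one_mul' [Finite F] (f : Conv F) : Conv.mul Conv.one f = f := by
  classical
  funext z
  simp only [Conv.mul, Conv.one]
  rw [Finset.sum_eq_single (1, z)]
  · simp
  · rintro ⟨x, y⟩ hp hne
    rw [mem_DF] at hp
    simp only
    rw [if_neg, zero_mul]
    rintro rfl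
    apply hne
    rw [← hp.1, one_mul]
  · intro h
    exact absurd (mem_DF.2 ⟨one_mul z, by rw [len_one, zero_add]⟩) h

theorem Conv.mul_one' [Finite F] (f : Conv F) : Conv.mul f Conv.one = f := by
  classical
  funext z
  simp only [Conv.mul, Conv.one]
  rw [Finset.sum_eq_single (z, 1)]
  · simp
  · rintro ⟨x, y⟩ hp hne
    rw [mem_DF] at hp
    simp only
    rw [if_neg, mul_zero]
    rintro rfl
    apply hne
    rw [← hp.1, mul_one]
  · intro h
    exact absurd (mem_DF.2 ⟨mul_one z, by rw [len_one, add_zero]⟩) h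

noncomputable instance [Finite F] : Ring (Conv F) :=
  { (inferInstance : AddCommGroup (Conv F)) with
    mul := Conv.mul
    one := Conv.one
    left_distrib := fun f g h => by
      funext z
      change ∑ p ∈ DF z, f p.1 * (g + h) p.2 = (∑ p ∈ DF z, f p.1 * g p.2) +
        ∑ p ∈ DF z, f p.1 * h p.2
      simp only [Conv.add_apply, mul_add, Finset.sum_add_distrib]
    right_distrib := fun f g h => by
      funext z
      change ∑ p ∈ DF z, (f + g) p.1 * h p.2 = (∑ p ∈ DF z, f p.1 * h p.2) +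
        ∑ p ∈ DF z, g p.1 * h p.2
      simp only [Conv.add_apply, add_mul, Finset.sum_add_distrib]
    zero_mul := fun f => by
      funext z
      change ∑ p ∈ DF z, (0 : Conv F) p.1 * f p.2 = 0
      simp only [Conv.zero_apply, zero_mul, Finset.sum_const_zero]
    mul_zero := fun f => by
      funext z
      change ∑ p ∈ DF z, f p.1 * (0 : Conv F) p.2 = 0
      simp only [Conv.zero_apply, mul_zero, Finset.sum_const_zero]
    mul_assoc := Conv.mul_assoc'
    one_mul := Conv.one_mul'
    mul_one := Conv.mul_one' }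

theorem Conv.mul_apply [Finite F] (f g : Conv F) (z : GLInf F) :
    (f * g) z = ∑ p ∈ DF z, f p.1 * g p.2 := rfl

noncomputable instance [Finite F] : Algebra ℚ (Conv F) :=
  Algebra.ofModule
    (fun a f g => by
      funext z
      rw [Conv.mul_apply, Conv.smul_apply, Conv.mul_apply, Finset.mul_sum]
      refine Finset.sum_congr rfl fun p _ => ?_
      rw [Conv.smul_apply, mul_assoc])
    (fun a f g => by
      funext z
      rw [Conv.mul_apply, Conv.smul_apply, Conv.mul_apply, Finset.mul_sum]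
      refine Finset.sum_congr rfl fun p _ => ?_
      rw [Conv.smul_apply]
      ring)

/-- class functions -/
def IsClassFn (f : Conv F) : Prop := ∀ z k : GLInf F, f (k * z * k⁻¹) = f z

theorem IsClassFn.of_mk {f : Conv F} (h : IsClassFn f) {x y : GLInf F}
    (hxy : ConjClasses.mk x = ConjClasses.mk y) : f x = f y := by
  rw [ConjClasses.mk_eq_mk_iff_isConj, isConj_iff] at hxy
  obtain ⟨c, hc⟩ := hxy
  rw [← hc, h]

theorem IsClassFn.mul [Finite F] {f g : Conv F} (hf : IsClassFn f) (hg : IsClassFn g) :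
    IsClassFn (f * g) := by
  intro z k
  rw [Conv.mul_apply, Conv.mul_apply]
  refine Finset.sum_bij' (fun p _ => (k⁻¹ * p.1 * k, k⁻¹ * p.2 * k))
    (fun p _ => (k * p.1 * k⁻¹, k * p.2 * k⁻¹)) ?_ ?_ ?_ ?_ ?_
  · rintro ⟨x, y⟩ h
    rw [mem_DF] at h ⊢
    obtain ⟨h1, h2⟩ := h
    simp only at h1 h2 ⊢
    have e1 := len_conj x k⁻¹
    have e2 := len_conj y k⁻¹
    rw [inv_inv] at e1 e2
    refine ⟨?_, by rw [e1, e2, h2, len_conj]⟩
    have : k⁻¹ * x * k * (k⁻¹ * y * k) = k⁻¹ * (x * y) * k := by group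
    rw [this, h1]
    group
  · rintro ⟨x, y⟩ h
    rw [mem_DF] at h ⊢
    obtain ⟨h1, h2⟩ := h
    simp only at h1 h2 ⊢
    refine ⟨?_, by rw [len_conj, len_conj, len_conj, h2]⟩
    have : k * x * k⁻¹ * (k * y * k⁻¹) = k * (x * y) * k⁻¹ := by group
    rw [this, h1]
  · rintro ⟨x, y⟩ _
    simp only [Prod.mk.injEq]
    constructor <;> group
  · rintro ⟨x, y⟩ _
    simp only [Prod.mk.injEq]
    constructor <;> group
  · rintro ⟨x, y⟩ _
    have e1 := hf x k⁻¹
    have e2 := hg y k⁻¹
    rw [inv_inv] at e1 e2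
    simp only
    rw [e1, e2]

theorem IsClassFn.comm [Finite F] {f g : Conv F} (hf : IsClassFn f) : f * g = g * f := by
  funext z
  rw [Conv.mul_apply, Conv.mul_apply]
  refine Finset.sum_bij' (fun p _ => (p.2, p.2⁻¹ * p.1 * p.2))
    (fun p _ => (p.1 * p.2 * p.1⁻¹, p.1)) ?_ ?_ ?_ ?_ ?_
  · rintro ⟨x, y⟩ h
    rw [mem_DF] at h ⊢
    obtain ⟨h1, h2⟩ := h
    simp only at h1 h2 ⊢
    have e1 := len_conj x y⁻¹
    rw [inv_inv] at e1
    refine ⟨by rw [← h1]; group, by rw [e1, ← h2]; ring⟩
  · rintro ⟨x, y⟩ h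
    rw [mem_DF] at h ⊢
    obtain ⟨h1, h2⟩ := h
    simp only at h1 h2 ⊢
    refine ⟨by rw [← h1]; group, by rw [len_conj, ← h2]; ring⟩
  · rintro ⟨x, y⟩ _
    simp only [Prod.mk.injEq]
    constructor <;> group
  · rintro ⟨x, y⟩ _
    simp only [Prod.mk.injEq]
    constructor <;> group
  · rintro ⟨x, y⟩ _
    have e1 := hf x y⁻¹
    rw [inv_inv] at e1
    simp only
    rw [e1, mul_comm]

variable (F)

/-- class functions vanishing on all elements of large length -/
noncomputable def SCAlg [Finite F] : Subalgebra ℚ (Conv F) where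
  carrier := {f | IsClassFn f ∧ ∃ N, ∀ z, N < len z → f z = 0}
  mul_mem' := by
    rintro f g ⟨hf, N, hN⟩ ⟨hg, M, hM⟩
    refine ⟨hf.mul hg, N + M, fun z hz => ?_⟩
    rw [Conv.mul_apply]
    refine Finset.sum_eq_zero fun p hp => ?_
    rw [mem_DF] at hp
    by_cases h1 : N < len p.1
    · rw [hN _ h1, zero_mul]
    · rw [hM _ (by omega), mul_zero]
  add_mem' := by
    rintro f g ⟨hf, N, hN⟩ ⟨hg, M, hM⟩
    refine ⟨fun z k => ?_, max N M, fun z hz => ?_⟩
    · rw [Conv.add_apply, Conv.add_apply, hf, hg]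
    · rw [Conv.add_apply, hN z (by omega), hM z (by omega), add_zero]
  algebraMap_mem' := by
    intro r
    have h1 : algebraMap ℚ (Conv F) r = r • Conv.one := Algebra.algebraMap_eq_smul_one r
    rw [h1]
    refine ⟨fun z k => ?_, 0, fun z hz => ?_⟩
    · rw [Conv.smul_apply, Conv.smul_apply]
      congr 1
      have e : ∀ w : GLInf F, Conv.one w = (open Classical in if w = 1 then (1 : ℚ) else 0) :=
        fun w => rfl
      have h2 : k * z * k⁻¹ = 1 ↔ z = 1 := by
        rw [conj_eq_one_iff]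
      rw [e, e]
      by_cases h3 : z = 1
      · rw [if_pos h3, if_pos (h2.2 h3)]
      · rw [if_neg h3, if_neg (fun h => h3 (h2.1 h))]
    · rw [Conv.smul_apply]
      unfold Conv.one
      rw [if_neg, mul_zero]
      rintro rfl
      rw [len_one] at hz
      exact absurd hz (lt_irrefl 0)

noncomputable instance [Finite F] : CommRing (SCAlg F) :=
  { (inferInstance : Ring (SCAlg F)) with
    mul_comm := fun f g => Subtype.ext (IsClassFn.comm f.2.1) }

variable {F}

/-- the coordinates of a class function -/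
noncomputable def scRepr [Finite F] : SCAlg F ≃ₗ[ℚ] (ConjClasses (GLInf F) →₀ ℚ) where
  toFun f := Finsupp.ofSupportFinite (fun E => f.1 (Quotient.out E)) (by
    obtain ⟨N, hN⟩ := f.2.2
    refine ((Set.finite_Iic N).biUnion fun n _ => finite_len (F := F) n).subset ?_
    intro E hE
    rw [Set.mem_iUnion₂]
    refine ⟨lenC E, ?_, rfl⟩
    rw [Set.mem_Iic]
    by_contra h
    apply hE
    apply hN
    have h1 : ConjClasses.mk (Quotient.out E) = E := Quotient.out_eq _
    rw [← lenC_mk, h1]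
    omega)
  map_add' f g := by
    ext E
    rfl
  map_smul' a f := by
    ext E
    rfl
  invFun a := ⟨fun z => a (ConjClasses.mk z), by
    refine ⟨fun z k => ?_, a.support.sup lenC, fun z hz => ?_⟩
    · have : ConjClasses.mk (k * z * k⁻¹) = ConjClasses.mk z := by
        rw [ConjClasses.mk_eq_mk_iff_isConj, isConj_comm, isConj_iff]
        exact ⟨k, rfl⟩
      change a (ConjClasses.mk (k * z * k⁻¹)) = a (ConjClasses.mk z)
      rw [this]
    · by_contra h
      have h1 : lenC (ConjClasses.mk z) ≤ a.support.sup lenC :=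
        Finset.le_sup (Finsupp.mem_support_iff.2 h)
      rw [lenC_mk] at h1
      omega⟩
  left_inv f := by
    apply Subtype.ext
    funext z
    exact f.2.1.of_mk (Quotient.out_eq _)
  right_inv a := by
    ext E
    change a (ConjClasses.mk (Quotient.out E)) = a E
    have h1 : ConjClasses.mk (Quotient.out E) = E := Quotient.out_eq _
    rw [h1]

/-- the basis of indicator functions -/
noncomputable def scBasis [Finite F] : Basis (ConjClasses (GLInf F)) ℚ (SCAlg F) :=
  Basis.ofRepr scRepr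

theorem scBasis_apply [Finite F] (E : ConjClasses (GLInf F)) (z : GLInf F) :
    (scBasis E).1 z = open Classical in if ConjClasses.mk z = E then 1 else 0 := by
  classical
  have h1 : scBasis E = scRepr.symm (Finsupp.single E 1) := rfl
  rw [h1]
  change (Finsupp.single E 1) (ConjClasses.mk z) = _
  rw [Finsupp.single_apply]
  simp only [eq_comm]

theorem numFact_conj (C D : ConjClasses (GLInf F)) (z k : GLInf F) :
    numFact C D (k * z * k⁻¹) = numFact C D z := by
  unfold numFact
  have hc : ∀ x c : GLInf F, ConjClasses.mk (c * x * c⁻¹) = ConjClasses.mk x := by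
    intro x c
    rw [ConjClasses.mk_eq_mk_iff_isConj, isConj_comm, isConj_iff]
    exact ⟨c, rfl⟩
  refine Nat.card_congr
    { toFun := fun p => ⟨(k⁻¹ * p.1.1 * k, k⁻¹ * p.1.2 * k), ?_, ?_, ?_⟩
      invFun := fun p => ⟨(k * p.1.1 * k⁻¹, k * p.1.2 * k⁻¹), ?_, ?_, ?_⟩
      left_inv := fun p => ?_
      right_inv := fun p => ?_ }
  · have := hc p.1.1 k⁻¹
    rw [inv_inv] at this
    rw [this, p.2.1]
  · have := hc p.1.2 k⁻¹
    rw [inv_inv] at this
    rw [this, p.2.2.1]
  · have : k⁻¹ * p.1.1 * k * (k⁻¹ * p.1.2 * k) = k⁻¹ * (p.1.1 * p.1.2) * k := by group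
    rw [this, p.2.2.2]
    group
  · rw [hc, p.2.1]
  · rw [hc, p.2.2.1]
  · have : k * p.1.1 * k⁻¹ * (k * p.1.2 * k⁻¹) = k * (p.1.1 * p.1.2) * k⁻¹ := by group
    rw [this, p.2.2.2]
  · apply Subtype.ext
    refine Prod.ext ?_ ?_ <;> simp only <;> group
  · apply Subtype.ext
    refine Prod.ext ?_ ?_ <;> simp only <;> group

theorem structConst_mk (C D : ConjClasses (GLInf F)) (z : GLInf F) :
    structConst C D (ConjClasses.mk z) = numFact C D z := by
  unfold structConst
  have h1 : ConjClasses.mk (Quotient.out (ConjClasses.mk z)) = ConjClasses.mk z :=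
    Quotient.out_eq _
  rw [ConjClasses.mk_eq_mk_iff_isConj, isConj_comm, isConj_iff] at h1
  obtain ⟨c, hc⟩ := h1
  rw [← hc, numFact_conj]

theorem isStableCenter_scBasis [Finite F] : IsStableCenter (scBasis (F := F)) := by
  classical
  intro C D
  apply Subtype.ext
  funext z
  rw [finsum_mem_eq_finite_toFinset_sum _ (finite_len _)]
  have h1 : (scBasis C * scBasis D).1 z =
      ∑ p ∈ DF z, (scBasis C).1 p.1 * (scBasis D).1 p.2 := rfl
  rw [h1]
  have h2 : ∀ (s : Finset (ConjClasses (GLInf F))) (f : ConjClasses (GLInf F) → SCAlg F),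
      (∑ E ∈ s, f E).1 z = ∑ E ∈ s, (f E).1 z := by
    intro s f
    induction s using Finset.induction_on with
    | empty => rfl
    | insert a s ha ih =>
      rw [Finset.sum_insert ha, Finset.sum_insert ha, ← ih]
      rfl
  rw [h2]
  have h3 : ∀ E : ConjClasses (GLInf F), ((structConst C D E : ℚ) • scBasis E).1 z =
      if E = ConjClasses.mk z then (structConst C D E : ℚ) else 0 := by
    intro E
    have : ((structConst C D E : ℚ) • scBasis E).1 z =
      (structConst C D E : ℚ) * (scBasis E).1 z := rfl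
    rw [this, scBasis_apply]
    simp only [eq_comm (a := E)]
    split_ifs <;> simp
  simp only [h3]
  rw [Finset.sum_ite_eq']
  simp only [scBasis_apply, Set.Finite.mem_toFinset, Set.mem_ofPred_eq, lenC_mk]
  have h4 : ∀ p : GLInf F × GLInf F,
      (if ConjClasses.mk p.1 = C then (1 : ℚ) else 0) * (if ConjClasses.mk p.2 = D then 1 else 0) =
        if ConjClasses.mk p.1 = C ∧ ConjClasses.mk p.2 = D then 1 else 0 := by
    intro p
    by_cases h5 : ConjClasses.mk p.1 = C <;> by_cases h6 : ConjClasses.mk p.2 = D <;>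
      simp [h5, h6]
  simp only [h4]
  rw [← Finset.sum_filter, Finset.sum_const, nsmul_eq_mul, mul_one]
  split_ifs with h
  · rw [structConst_mk]
    congr 1
    unfold numFact
    symm
    apply Nat.subtype_card
    rintro ⟨x, y⟩
    rw [Finset.mem_filter, mem_DF]
    simp only
    constructor
    · rintro ⟨⟨h5, h6⟩, h7, h8⟩
      exact ⟨h7, h8, h5⟩
    · rintro ⟨h5, h6, h7⟩
      refine ⟨⟨h7, ?_⟩, h5, h6⟩
      rw [h, ← h5, ← h6, lenC_mk, lenC_mk]
  · rw [Nat.cast_eq_zero, Finset.card_eq_zero, Finset.filter_eq_empty_iff]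
    rintro ⟨x, y⟩ hp ⟨h5, h6⟩
    rw [mem_DF] at hp
    apply h
    simp only at h5 h6 hp
    rw [← hp.2, ← h5, ← h6, lenC_mk, lenC_mk]

end Pool.Agent.W446.SC
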