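import Pool.Agent.W446.SCType

/-!
# Every class has a type
-/

namespace Pool.Agent.W446.SC

open Polynomial

variable {F : Type} [Field F]

theorem exists_fam {Q : Type} [AddCommGroup Q] [Module F Q] [Module.Finite F Q]
    (g : Q ≃ₗ[F] Q) : ∃ (ι : Type) (_ : Fintype ι) (s : ι → Cyc F), cls g = cfam s := by
  classical
  have htors : Module.IsTorsion F[X] (Module.AEval' g.toLinearMap) :=
    Module.AEval.isTorsion_of_finiteDimensional F Q g.toLinearMap
  obtain ⟨ι, hι, p, hp, e, ⟨φ⟩⟩ := Module.equiv_directSum_of_isTorsion htors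
  let N : ι → Type := fun i => F[X] ⧸ (F[X] ∙ (p i ^ e i))
  let ψ := φ.trans (DirectSum.linearEquivFunOnFintype F[X] ι N)
  -- `X` acts injectively on every component
  have hX : ∀ x y : Module.AEval' g.toLinearMap, (X : F[X]) • x = (X : F[X]) • y → x = y := by
    intro x y hxy
    obtain ⟨x, rfl⟩ := (Module.AEval'.of g.toLinearMap).surjective x
    obtain ⟨y, rfl⟩ := (Module.AEval'.of g.toLinearMap).surjective y
    rw [Module.AEval'.X_smul_of, Module.AEval'.X_smul_of] at hxy
    have h1 := (Module.AEval'.of g.toLinearMap).injective hxy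
    rw [g.injective h1]
  have hXi : ∀ i (x : N i), (X : F[X]) • x = 0 → x = 0 := by
    intro i x hx
    have h1 : (X : F[X]) • (ψ.symm (Pi.single i x)) = (X : F[X]) • (0 : Module.AEval' _) := by
      rw [← map_smul, ← Pi.single_smul, hx, Pi.single_zero, map_zero, smul_zero]
    have h2 := hX _ _ h1
    rw [LinearEquiv.map_eq_zero_iff] at h2
    exact Pi.single_eq_zero_iff.1 h2
  have hne : ∀ i, e i ≠ 0 → normalize (p i) ≠ X := by
    intro i hi h
    have h0 : Ideal.span {p i ^ e i} = Ideal.span {(X : F[X]) ^ e i} := by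
      rw [Ideal.span_singleton_eq_span_singleton, ← h]
      exact Associated.pow_pow (normalize_associated (p i)).symm
    have h1 : (X : F[X]) • (Submodule.Quotient.mk (X ^ (e i - 1)) : N i) = 0 := by
      rw [← Submodule.Quotient.mk_smul, Submodule.Quotient.mk_eq_zero, smul_eq_mul, ← pow_succ']
      have h2 : e i - 1 + 1 = e i := by omega
      rw [h2]
      change X ^ e i ∈ Ideal.span {p i ^ e i}
      rw [h0]
      exact Ideal.mem_span_singleton_self _
    have h2 := hXi i _ h1
    rw [Submodule.Quotient.mk_eq_zero] at h2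
    change X ^ (e i - 1) ∈ Ideal.span {p i ^ e i} at h2
    rw [h0, Ideal.mem_span_singleton] at h2
    have h3 := Polynomial.natDegree_le_of_dvd h2 (pow_ne_zero _ X_ne_zero)
    rw [natDegree_X_pow, natDegree_X_pow] at h3
    omega
  let s : {i // e i ≠ 0} → Cyc F := fun j =>
    { f := normalize (p j.1)
      r := e j.1
      monic := monic_normalize (hp j.1).ne_zero
      irred := (normalize_associated (p j.1)).symm.irreducible (hp j.1)
      ne_X := hne j.1 j.2
      pos := Nat.one_le_iff_ne_zero.2 j.2 }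
  have hspan : ∀ j : {i // e i ≠ 0}, (F[X] ∙ (p j.1 ^ e j.1)) =
      Ideal.span {(s j).f ^ (s j).r} := by
    intro j
    change Ideal.span {p j.1 ^ e j.1} = _
    rw [Ideal.span_singleton_eq_span_singleton]
    exact Associated.pow_pow (normalize_associated (p j.1)).symm
  let χ : (∀ i, N i) →ₗ[F[X]] MM s := LinearMap.pi fun j =>
    (Submodule.quotEquivOfEq _ _ (hspan j)).toLinearMap ∘ₗ LinearMap.proj j.1
  have hχ : Function.Bijective χ := by
    constructor
    · intro x y hxy
      funext i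
      by_cases hi : e i = 0
      · obtain ⟨a, ha⟩ := Submodule.Quotient.mk_surjective _ (x i)
        obtain ⟨b, hb⟩ := Submodule.Quotient.mk_surjective _ (y i)
        rw [← ha, ← hb, Submodule.Quotient.eq, hi, pow_zero]
        change _ ∈ Ideal.span {(1 : F[X])}
        rw [Ideal.span_singleton_one]
        exact Submodule.mem_top
      · have h1 := congrFun hxy ⟨i, hi⟩
        exact (Submodule.quotEquivOfEq _ _ (hspan ⟨i, hi⟩)).injective h1
    · intro y
      refine ⟨fun i => if h : e i ≠ 0 then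
        (Submodule.quotEquivOfEq _ _ (hspan ⟨i, h⟩)).symm (y ⟨i, h⟩) else 0, ?_⟩
      funext j
      simp only [χ, LinearMap.pi_apply, LinearMap.comp_apply, LinearMap.proj_apply,
        LinearEquiv.coe_coe]
      rw [dif_pos j.2, LinearEquiv.apply_symm_apply]
  have hfin : ∀ (κ : Type) [Fintype κ] (s : κ → Cyc F), Module.Finite F (MM s) := by
    intro κ _ s
    infer_instance
  have := hfin _ s
  exact ⟨{i // e i ≠ 0}, inferInstance, s,
    cls_eq_gX (ψ.trans (LinearEquiv.ofBijective χ hχ))⟩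

theorem exists_ab (s : Cyc F) : ∃ (a : (F[X] ⧸ Ideal.span {s.h}) →ₗ[F[X]] CM s)
    (b : CM s →ₗ[F[X]] (F[X] ⧸ Ideal.span {s.h})), Function.Surjective a ∧
      Function.Injective b ∧ (∀ m, b (a m) = (X - 1 : F[X]) • m) ∧
      ∀ q, a (b q) = (X - 1 : F[X]) • q := by
  classical
  by_cases hf : s.f = X - 1
  · have hh : s.h = (X - 1) ^ (s.r + 1) := by
      unfold Cyc.h
      rw [if_pos hf]
    have hc : s.f ^ s.r = (X - 1) ^ s.r := by rw [hf]
    unfold CM
    rw [hh, hc]
    have hle : Ideal.span {(X - 1 : F[X]) ^ (s.r + 1)} ≤ Ideal.span {(X - 1 : F[X]) ^ s.r} := by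
      rw [Ideal.span_singleton_le_span_singleton]
      exact pow_dvd_pow _ (Nat.le_succ _)
    have hX1 : (X - 1 : F[X]) ≠ 0 := by
      have := Polynomial.X_sub_C_ne_zero (1 : F)
      rwa [map_one] at this
    let b0 : F[X] →ₗ[F[X]] F[X] := (X - 1 : F[X]) • LinearMap.id
    have hle2 : Ideal.span {(X - 1 : F[X]) ^ s.r} ≤
        Submodule.comap b0 (Ideal.span {(X - 1 : F[X]) ^ (s.r + 1)}) := by
      intro x hx
      rw [Ideal.mem_span_singleton] at hx
      change (X - 1 : F[X]) • x ∈ Ideal.span {(X - 1 : F[X]) ^ (s.r + 1)}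
      rw [Ideal.mem_span_singleton, smul_eq_mul, pow_succ']
      exact mul_dvd_mul_left _ hx
    refine ⟨Submodule.factor hle, Submodule.mapQ _ _ b0 hle2, Submodule.factor_surjective hle,
      ?_, ?_, ?_⟩
    · rw [injective_iff_map_eq_zero]
      intro q hq
      obtain ⟨q, rfl⟩ := Submodule.Quotient.mk_surjective _ q
      rw [Submodule.mapQ_apply, Submodule.Quotient.mk_eq_zero] at hq
      change (X - 1 : F[X]) * q ∈ Ideal.span {(X - 1 : F[X]) ^ (s.r + 1)} at hq
      rw [Ideal.mem_span_singleton, pow_succ', mul_dvd_mul_iff_left hX1] at hq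
      rw [Submodule.Quotient.mk_eq_zero]
      exact Ideal.mem_span_singleton.2 hq
    · intro m
      obtain ⟨m, rfl⟩ := Submodule.Quotient.mk_surjective _ m
      rfl
    · intro m
      obtain ⟨m, rfl⟩ := Submodule.Quotient.mk_surjective _ m
      rfl
  · have hh : s.h = s.f ^ s.r := by
      unfold Cyc.h
      rw [if_neg hf]
    rw [hh]
    refine ⟨LinearMap.id, (X - 1 : F[X]) • LinearMap.id, Function.surjective_id, ?_,
      fun m => rfl, fun m => rfl⟩
    have hcop : IsCoprime (X - 1 : F[X]) (s.f ^ s.r) := by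
      apply IsCoprime.pow_right
      have hirr : Irreducible (X - 1 : F[X]) := by
        have := Polynomial.irreducible_X_sub_C (1 : F)
        rwa [map_one] at this
      have hmon : (X - 1 : F[X]).Monic := by
        have := Polynomial.monic_X_sub_C (1 : F)
        rwa [map_one] at this
      rw [Irreducible.coprime_iff_not_dvd hirr]
      intro h
      have h1 := (hirr.dvd_irreducible_iff_associated s.irred).1 h
      exact hf (eq_of_monic_of_associated s.monic hmon h1.symm)
    exact (coprime_bij hcop).1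

theorem mk_of_isCycle {s : Cyc F} {z : GLInf F} (h : IsCycle s z) :
    ConjClasses.mk z = cls (gX (CM s) (CM_bij s)) := by
  obtain ⟨φ⟩ := h
  obtain ⟨a, b, ha, hb, hba, hab⟩ := exists_ab s
  let o := Module.AEval'.of (z.1 : (ℕ →₀ F) →ₗ[F] (ℕ →₀ F))
  let p : V F →ₗ[F] CM s := (a.restrictScalars F) ∘ₗ
    (LinearMap.fst F _ (Module.AEval' (LinearMap.id : (ℕ →₀ F) →ₗ[F] (ℕ →₀ F)))) ∘ₗ
      (φ.restrictScalars F).toLinearMap ∘ₗ o.toLinearMap
  let i : CM s →ₗ[F] V F := o.symm.toLinearMap ∘ₗ (φ.symm.restrictScalars F).toLinearMap ∘ₗ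
    (LinearMap.inl F _ (Module.AEval' (LinearMap.id : (ℕ →₀ F) →ₗ[F] (ℕ →₀ F)))) ∘ₗ
      (b.restrictScalars F)
  have hp : ∀ v, p v = a (φ (o v)).1 := fun v => rfl
  have hi : ∀ q, i q = o.symm (φ.symm (b q, 0)) := fun v => rfl
  have hfr : Framed z (gX (CM s) (CM_bij s)) p i := by
    refine ⟨fun v => ?_, fun q => ?_⟩
    · rw [hi, hp, hba]
      apply o.injective
      rw [LinearEquiv.apply_symm_apply, map_sub]
      have h1 : o (z.1 v) = (X : F[X]) • o v := (Module.AEval'.X_smul_of _ v).symm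
      rw [h1]
      apply φ.injective
      rw [LinearEquiv.apply_symm_apply, map_sub, map_smul, sub_smul, one_smul]
      ext1
      · rfl
      · obtain ⟨w, hw⟩ := (Module.AEval'.of
          (LinearMap.id : (ℕ →₀ F) →ₗ[F] (ℕ →₀ F))).surjective (φ (o v)).2
        have h2 : ((X : F[X]) • φ (o v) - φ (o v)).2 = (X : F[X]) • (φ (o v)).2 - (φ (o v)).2 :=
          rfl
        rw [h2, ← hw, Module.AEval'.X_smul_of]
        exact (sub_self _).symm
    · rw [hp, hi, LinearEquiv.apply_symm_apply, LinearEquiv.apply_symm_apply, hab, gX_apply,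
        sub_smul, one_smul]
  have hps : Function.Surjective p := by
    intro q
    obtain ⟨m, rfl⟩ := ha q
    refine ⟨o.symm (φ.symm (m, 0)), ?_⟩
    rw [hp, LinearEquiv.apply_symm_apply, LinearEquiv.apply_symm_apply]
  have hii : Function.Injective i := by
    intro x y hxy
    rw [hi, hi] at hxy
    have h1 := φ.symm.injective (o.symm.injective hxy)
    exact hb (congrArg Prod.fst h1)
  exact mk_eq_cls_iff.2 ⟨len_eq_of_surj_inj hfr.a hps hii, p, i, hfr⟩

theorem IsCycle.conj {s : Cyc F} {z : GLInf F} (h : IsCycle s z) (k : GLInf F) :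
    IsCycle s (k * z * k⁻¹) := by
  obtain ⟨φ⟩ := h
  have hlin : ∀ m, (k.1.symm.trans (Module.AEval'.of (z.1 : V F →ₗ[F] V F)))
      (((k * z * k⁻¹).1 : V F →ₗ[F] V F) • m) =
      (X : F[X]) • (k.1.symm.trans (Module.AEval'.of (z.1 : V F →ₗ[F] V F))) m := by
    intro m
    have h1 : (((k * z * k⁻¹).1 : V F →ₗ[F] V F)) • m = k.1 (z.1 (k.1.symm m)) := rfl
    rw [h1, LinearEquiv.trans_apply, LinearEquiv.symm_apply_apply]
    exact (Module.AEval'.X_smul_of _ _).symm
  exact ⟨(LinearEquiv.ofAEval _ _ hlin).trans φ⟩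

theorem exists_isCycle (s : Cyc F) : ∃ z : GLInf F, IsCycle s z := by
  classical
  have hhpow : ∃ n, s.h = s.f ^ n := by
    by_cases hf : s.f = X - 1
    · exact ⟨s.r + 1, by unfold Cyc.h; rw [if_pos hf, hf]⟩
    · exact ⟨s.r, by unfold Cyc.h; rw [if_neg hf]⟩
  obtain ⟨n, hn⟩ := hhpow
  have hmon : s.h.Monic := by rw [hn]; exact s.monic.pow n
  have hcop : IsCoprime (X : F[X]) s.h := by
    rw [hn]
    apply IsCoprime.pow_right
    rw [Irreducible.coprime_iff_not_dvd irreducible_X]
    intro h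
    have h1 := (irreducible_X.dvd_irreducible_iff_associated s.irred).1 h
    exact s.ne_X (eq_of_monic_of_associated s.monic monic_X h1.symm)
  have := hmon.finite_quotient
  have hX := coprime_bij hcop
  set M := F[X] ⧸ Ideal.span {s.h} with hM
  set N := Module.finrank F M with hN
  let b : Module.Basis (Fin N) F M := Module.finBasis F M
  let Φ : (M × V F) ≃ₗ[F] V F :=
    ((b.repr.prodCongr (LinearEquiv.refl F (V F))).trans
      (Finsupp.sumFinsuppLEquivProdFinsupp F).symm).trans
        (Finsupp.domLCongr (finSumNatEquiv N))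
  have hΦ1 : ∀ (m : M) (w : V F) (k : ℕ), Φ (m, w) (N + k) = w k := by
    intro m w k
    have h1 : (finSumNatEquiv N).symm (N + k) = Sum.inr k := by
      rw [Equiv.symm_apply_eq]
      rfl
    simp [Φ, Finsupp.domLCongr_apply, h1]
  have hΦ2 : ∀ (w : V F) (k : ℕ), k < N → Φ (0, w) k = 0 := by
    intro w k hk
    have h1 : (finSumNatEquiv N).symm k = Sum.inl ⟨k, hk⟩ := by
      rw [Equiv.symm_apply_eq]
      rfl
    simp [Φ, Finsupp.domLCongr_apply, h1]
  let z0 : V F ≃ₗ[F] V F :=
    Φ.symm.trans (((gX M hX).prodCongr (LinearEquiv.refl F (V F))).trans Φ)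
  have hz0 : ∀ v, z0 v = Φ ((X : F[X]) • (Φ.symm v).1, (Φ.symm v).2) := fun v => rfl
  have hstage : z0 ∈ stage F N := by
    refine ⟨fun j hj => ?_, fun v j hj => ?_⟩
    · have h1 : Finsupp.single j 1 = Φ (0, Finsupp.single (j - N) 1) := by
        ext k
        by_cases hk : k < N
        · rw [hΦ2 _ k hk, Finsupp.single_eq_of_ne (by omega)]
        · obtain ⟨k, rfl⟩ := Nat.exists_eq_add_of_le (not_lt.1 hk)
          obtain ⟨j, rfl⟩ := Nat.exists_eq_add_of_le hj
          rw [hΦ1, Nat.add_sub_cancel_left, Finsupp.single_apply, Finsupp.single_apply]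
          simp
      rw [hz0, h1, LinearEquiv.symm_apply_apply, smul_zero]
    · obtain ⟨k, rfl⟩ := Nat.exists_eq_add_of_le hj
      rw [hz0, hΦ1]
      conv_rhs => rw [← Φ.apply_symm_apply v]
      have h2 : Φ.symm v = ((Φ.symm v).1, (Φ.symm v).2) := rfl
      rw [h2, hΦ1]
  refine ⟨⟨z0, N, hstage⟩, ⟨?_⟩⟩
  refine LinearEquiv.ofAEval _ (Φ.symm.trans ((LinearEquiv.refl F M).prodCongr
    (Module.AEval'.of (LinearMap.id : V F →ₗ[F] V F)))) (fun m => ?_)
  have h1 : ((z0 : V F →ₗ[F] V F)) • m = z0 m := rfl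
  rw [h1, LinearEquiv.trans_apply, hz0, LinearEquiv.symm_apply_apply, LinearEquiv.trans_apply]
  ext1
  · rfl
  · exact (Module.AEval'.X_smul_of (LinearMap.id : V F →ₗ[F] V F) _).symm

theorem isCycle_iff {s : Cyc F} {z : GLInf F} :
    IsCycle s z ↔ ConjClasses.mk z = cls (gX (CM s) (CM_bij s)) := by
  refine ⟨mk_of_isCycle, fun h => ?_⟩
  obtain ⟨z0, h0⟩ := exists_isCycle s
  rw [← mk_of_isCycle h0, ConjClasses.mk_eq_mk_iff_isConj, isConj_comm, isConj_iff] at h
  obtain ⟨c, hc⟩ := h
  rw [← hc]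
  exact h0.conj c

end Pool.Agent.W446.SC
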