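import Pool.Agent.W446.SCCount

/-!
# Types of classes: multisets of prime powers
-/

namespace Pool.Agent.W446.SC

open Polynomial

variable {F : Type} [Field F]

section gx

variable {M : Type} [AddCommGroup M] [Module F M] [Module F[X] M] [IsScalarTower F F[X] M]
variable {M' : Type} [AddCommGroup M'] [Module F M'] [Module F[X] M'] [IsScalarTower F F[X] M']
variable {Q : Type} [AddCommGroup Q] [Module F Q]

/-- the linear automorphism given by the action of `X` -/
noncomputable def gX (M : Type) [AddCommGroup M] [Module F M] [Module F[X] M]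
    [IsScalarTower F F[X] M] (h : Function.Bijective (fun m : M => (X : F[X]) • m)) :
    M ≃ₗ[F] M :=
  LinearEquiv.ofBijective
    ({ toFun := fun m => (X : F[X]) • m
       map_add' := fun a b => smul_add _ a b
       map_smul' := fun a m => smul_comm (X : F[X]) a m } : M →ₗ[F] M) h

theorem gX_apply (h : Function.Bijective (fun m : M => (X : F[X]) • m)) (m : M) :
    gX M h m = (X : F[X]) • m := rfl

theorem C_smul' (a : F) (m : M) : (C a : F[X]) • m = a • m := by
  rw [← Polynomial.algebraMap_eq, algebraMap_smul]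

theorem comm_poly (k : M →ₗ[F] M') (hk : ∀ m, k ((X : F[X]) • m) = (X : F[X]) • k m)
    (p : F[X]) (m : M) : k (p • m) = p • k m := by
  induction p using Polynomial.induction_on with
  | C a => rw [C_smul', C_smul', map_smul]
  | add p q hp hq => rw [add_smul, add_smul, map_add, hp, hq]
  | monomial n a h =>
    rw [pow_succ, ← mul_assoc, mul_comm _ (X : F[X]), mul_smul, hk, h, ← mul_smul]

variable [Module.Finite F M] [Module.Finite F M'] [Module.Finite F Q]

theorem cls_gX_eq {h : Function.Bijective (fun m : M => (X : F[X]) • m)}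
    {h' : Function.Bijective (fun m : M' => (X : F[X]) • m)} (e : M ≃ₗ[F[X]] M') :
    cls (gX M h) = cls (gX M' h') := by
  rw [cls_eq_iff]
  refine ⟨e.restrictScalars F, fun q => ?_⟩
  rw [gX_apply, gX_apply]
  exact map_smul e _ _

theorem nonempty_of_cls_gX_eq {h : Function.Bijective (fun m : M => (X : F[X]) • m)}
    {h' : Function.Bijective (fun m : M' => (X : F[X]) • m)}
    (e : cls (gX M h) = cls (gX M' h')) : Nonempty (M ≃ₗ[F[X]] M') := by
  rw [cls_eq_iff] at e
  obtain ⟨k, hk⟩ := e
  exact ⟨{ k with map_smul' := fun p m => comm_poly k.toLinearMap hk p m }⟩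

theorem cls_eq_gX {g : Q ≃ₗ[F] Q} {h : Function.Bijective (fun m : M => (X : F[X]) • m)}
    (e : Module.AEval' g.toLinearMap ≃ₗ[F[X]] M) : cls g = cls (gX M h) := by
  rw [cls_eq_iff]
  refine ⟨(Module.AEval'.of g.toLinearMap).trans (e.restrictScalars F), fun q => ?_⟩
  rw [gX_apply]
  have h1 : (Module.AEval'.of g.toLinearMap) (g q) =
      (X : F[X]) • (Module.AEval'.of g.toLinearMap) q :=
    (Module.AEval'.X_smul_of g.toLinearMap q).symm
  rw [LinearEquiv.trans_apply, h1, LinearEquiv.trans_apply]
  exact map_smul e _ _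

end gx

/-- the indecomposable module `F[t]/(f^r)` -/
abbrev CM (s : Cyc F) : Type := F[X] ⧸ Ideal.span {s.f ^ s.r}

theorem coprime_bij {u p : F[X]} (h : IsCoprime u p) :
    Function.Bijective (fun m : F[X] ⧸ Ideal.span {p} => u • m) := by
  obtain ⟨a, b, hab⟩ := h
  have key : ∀ m : F[X] ⧸ Ideal.span {p}, (a * u) • m = m := by
    intro m
    obtain ⟨m, rfl⟩ := Ideal.Quotient.mk_surjective m
    have h1 : (a * u) • (Ideal.Quotient.mk (Ideal.span {p}) m) =
        Ideal.Quotient.mk (Ideal.span {p}) ((a * u) * m) := rfl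
    rw [h1, Ideal.Quotient.eq, Ideal.mem_span_singleton]
    refine ⟨-(b * m), ?_⟩
    have : a * u = 1 - b * p := by rw [← hab]; ring
    rw [this]
    ring
  constructor
  · intro x y hxy
    have h1 : a • (u • x) = a • (u • y) := by rw [show u • x = u • y from hxy]
    rw [← mul_smul, ← mul_smul, key, key] at h1
    exact h1
  · intro y
    refine ⟨a • y, ?_⟩
    simp only
    rw [← mul_smul, mul_comm, key]

theorem Cyc.coprime_X (s : Cyc F) : IsCoprime (X : F[X]) (s.f ^ s.r) := by
  apply IsCoprime.pow_right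
  rw [Irreducible.coprime_iff_not_dvd irreducible_X]
  intro h
  have h1 := (irreducible_X.dvd_irreducible_iff_associated s.irred).1 h
  exact s.ne_X (eq_of_monic_of_associated s.monic monic_X h1.symm)

theorem CM_bij (s : Cyc F) : Function.Bijective (fun m : CM s => (X : F[X]) • m) :=
  coprime_bij s.coprime_X

instance CM_finite (s : Cyc F) : Module.Finite F (CM s) := (s.monic.pow s.r).finite_quotient

section fam

variable {ι : Type} [Fintype ι] (s : ι → Cyc F)

/-- the direct sum of the modules `F[t]/(f_i^{r_i})` -/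
abbrev MM : Type := ∀ i, CM (s i)

omit [Fintype ι] in
theorem MM_bij : Function.Bijective (fun m : MM s => (X : F[X]) • m) := by
  constructor
  · intro x y hxy
    funext i
    exact (CM_bij (s i)).1 (congrFun hxy i)
  · intro y
    choose x hx using fun i => (CM_bij (s i)).2 (y i)
    exact ⟨x, funext hx⟩

/-- the class of type `s` -/
noncomputable def cfam : ConjClasses (GLInf F) := cls (gX (MM s) (MM_bij s))

end fam

theorem cfam_sum {ι κ : Type} [Fintype ι] [Fintype κ] (s : ι → Cyc F) (s' : κ → Cyc F) :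
    cls ((gX (MM s) (MM_bij s)).prodCongr (gX (MM s') (MM_bij s'))) =
      cfam (Sum.elim s s') := by
  unfold cfam
  rw [cls_eq_iff]
  refine ⟨((LinearEquiv.sumPiEquivProdPi F[X] ι κ
    (fun i => CM (Sum.elim s s' i))).symm.restrictScalars F), fun q => ?_⟩
  rw [gX_apply]
  obtain ⟨x, y⟩ := q
  rw [LinearEquiv.prodCongr_apply, gX_apply, gX_apply]
  exact map_smul (LinearEquiv.sumPiEquivProdPi F[X] ι κ
    (fun i => CM (Sum.elim s s' i))).symm (X : F[X]) (x, y)

theorem exists_equiv_of_map_eq {α ι κ : Type} [Fintype ι] [Fintype κ] {s : ι → α} {s' : κ → α}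
    (h : Multiset.map s Finset.univ.val = Multiset.map s' Finset.univ.val) :
    ∃ e : ι ≃ κ, ∀ i, s' (e i) = s i := by
  classical
  have hc : ∀ t, Nat.card {i // s i = t} = Nat.card {i // s' i = t} := by
    intro t
    have := congrArg (Multiset.count t) h
    rw [Multiset.count_map, Multiset.count_map] at this
    rw [Nat.card_eq_fintype_card, Nat.card_eq_fintype_card, Fintype.card_subtype,
      Fintype.card_subtype]
    simpa [Finset.card, eq_comm] using this
  have he : ∀ t, Nonempty ({i // s i = t} ≃ {i // s' i = t}) := fun t =>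
    ⟨(Finite.equivFin _).trans ((finCongr (hc t)).trans (Finite.equivFin _).symm)⟩
  let f := fun t => Classical.choice (he t)
  refine ⟨(Equiv.sigmaFiberEquiv s).symm.trans
    ((Equiv.sigmaCongrRight f).trans (Equiv.sigmaFiberEquiv s')), fun i => ?_⟩
  exact (f (s i) ⟨i, rfl⟩).2

theorem cfam_congr {ι κ : Type} [Fintype ι] [Fintype κ] {s : ι → Cyc F} {s' : κ → Cyc F}
    (h : Multiset.map s Finset.univ.val = Multiset.map s' Finset.univ.val) :
    cfam s = cfam s' := by
  obtain ⟨e, he⟩ := exists_equiv_of_map_eq h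
  have hs : s = fun i => s' (e i) := funext fun i => (he i).symm
  subst hs
  exact cls_gX_eq (LinearEquiv.piCongrLeft F[X] (fun j => CM (s' j)) e)

section kc

/-- the number of elements of `M` killed by `u` -/
noncomputable def kc (M : Type) [AddCommGroup M] [Module F[X] M] (u : F[X]) : ℕ :=
  Nat.card {m : M // u • m = 0}

theorem kc_congr {M M' : Type} [AddCommGroup M] [Module F[X] M] [AddCommGroup M']
    [Module F[X] M'] (e : M ≃ₗ[F[X]] M') (u : F[X]) : kc M u = kc M' u := by
  refine Nat.card_congr (e.toEquiv.subtypeEquiv fun m => ?_)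
  have h1 : e.toEquiv m = e m := rfl
  rw [h1, ← map_smul, LinearEquiv.map_eq_zero_iff]

theorem kc_pi {ι : Type} [Fintype ι] (M : ι → Type) [∀ i, AddCommGroup (M i)]
    [∀ i, Module F[X] (M i)] (u : F[X]) : kc (∀ i, M i) u = ∏ i, kc (M i) u := by
  unfold kc
  rw [← Nat.card_pi]
  refine Nat.card_congr
    { toFun := fun m i => ⟨m.1 i, congrFun m.2 i⟩
      invFun := fun m => ⟨fun i => (m i).1, funext fun i => (m i).2⟩
      left_inv := fun _ => rfl
      right_inv := fun _ => rfl }

theorem kc_coprime {u p : F[X]} (h : IsCoprime u p) : kc (F[X] ⧸ Ideal.span {p}) u = 1 := by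
  unfold kc
  rw [Nat.card_eq_one_iff_unique]
  refine ⟨⟨fun a b => Subtype.ext ?_⟩, ⟨⟨0, smul_zero _⟩⟩⟩
  exact (coprime_bij h).1 (by simp only; rw [a.2, b.2])

theorem card_quot {p : F[X]} (hp : p.Monic) :
    Nat.card (F[X] ⧸ Ideal.span {p}) = Nat.card F ^ p.natDegree := by
  have := hp.finite_quotient
  rw [Module.natCard_eq_pow_finrank (K := F), finrank_quotient_span_eq_natDegree]

theorem kc_pow [Finite F] {f : F[X]} (hf : f.Monic) (r k : ℕ) :
    kc (F[X] ⧸ Ideal.span {f ^ r}) (f ^ k) = (Nat.card F ^ f.natDegree) ^ (min r k) := by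
  rcases le_total r k with h | h
  · rw [min_eq_left h]
    have h1 : ∀ m : F[X] ⧸ Ideal.span {f ^ r}, f ^ k • m = 0 := by
      intro m
      obtain ⟨m, rfl⟩ := Ideal.Quotient.mk_surjective m
      have h1 : f ^ k • (Ideal.Quotient.mk (Ideal.span {f ^ r}) m) =
        Ideal.Quotient.mk (Ideal.span {f ^ r}) (f ^ k * m) := rfl
      rw [h1, Ideal.Quotient.eq_zero_iff_mem, Ideal.mem_span_singleton]
      exact Dvd.dvd.mul_right (pow_dvd_pow f h) m
    unfold kc
    rw [Nat.card_congr (Equiv.subtypeUnivEquiv h1), card_quot (hf.pow r), hf.natDegree_pow,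
      ← pow_mul, mul_comm]
  · rw [min_eq_right h]
    have hle : Ideal.span {f ^ r} ≤ Ideal.span {f ^ (r - k)} := by
      rw [Ideal.span_singleton_le_span_singleton]
      exact pow_dvd_pow f (Nat.sub_le r k)
    let φ : (F[X] ⧸ Ideal.span {f ^ r}) →+ (F[X] ⧸ Ideal.span {f ^ (r - k)}) :=
      (Ideal.Quotient.factor hle).toAddMonoidHom
    have hsurj : Function.Surjective φ := Ideal.Quotient.factor_surjective hle
    have hker : ∀ m, m ∈ φ.ker ↔ f ^ k • m = 0 := by
      intro m
      obtain ⟨m, rfl⟩ := Ideal.Quotient.mk_surjective m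
      have h1 : f ^ k • (Ideal.Quotient.mk (Ideal.span {f ^ r}) m) =
        Ideal.Quotient.mk (Ideal.span {f ^ r}) (f ^ k * m) := rfl
      have h2 : φ (Ideal.Quotient.mk (Ideal.span {f ^ r}) m) =
        Ideal.Quotient.mk (Ideal.span {f ^ (r - k)}) m := rfl
      rw [h1, AddMonoidHom.mem_ker, h2, Ideal.Quotient.eq_zero_iff_mem,
        Ideal.Quotient.eq_zero_iff_mem, Ideal.mem_span_singleton, Ideal.mem_span_singleton]
      have h3 : f ^ r = f ^ k * f ^ (r - k) := by rw [← pow_add]; congr 1; omega
      rw [h3]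
      exact (mul_dvd_mul_iff_left (pow_ne_zero k hf.ne_zero)).symm
    have h4 : kc (F[X] ⧸ Ideal.span {f ^ r}) (f ^ k) = Nat.card φ.ker :=
      Nat.card_congr (Equiv.subtypeEquivRight fun m => (hker m).symm)
    have h5 : Nat.card (F[X] ⧸ Ideal.span {f ^ r}) =
        Nat.card (F[X] ⧸ Ideal.span {f ^ (r - k)}) * Nat.card φ.ker := by
      rw [AddSubgroup.card_eq_card_quotient_mul_card_addSubgroup φ.ker]
      congr 1
      exact Nat.card_congr (QuotientAddGroup.quotientKerEquivOfSurjective φ hsurj).toEquiv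
    rw [card_quot (hf.pow r), card_quot (hf.pow _), hf.natDegree_pow, hf.natDegree_pow] at h5
    have hpos : 0 < Nat.card F ^ ((r - k) * f.natDegree) := Nat.pow_pos Nat.card_pos
    rw [h4]
    apply Nat.eq_of_mul_eq_mul_left hpos
    rw [← h5, ← pow_mul, ← pow_add]
    congr 1
    have h6 : r = (r - k) + k := by omega
    conv_lhs => rw [h6]
    ring

end kc

theorem Cyc.ext' {s t : Cyc F} (h1 : s.f = t.f) (h2 : s.r = t.r) : s = t := by
  cases s
  cases t
  simp only at h1 h2
  subst h1 h2
  rfl

theorem kc_CM [Finite F] (s t : Cyc F) (k : ℕ) :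
    kc (CM s) (t.f ^ k) =
      (Nat.card F ^ t.f.natDegree) ^ (open Classical in if s.f = t.f then min s.r k else 0) := by
  split_ifs with h
  · unfold CM
    rw [h, kc_pow t.monic]
  · rw [pow_zero]
    apply kc_coprime
    apply IsCoprime.pow
    rw [Irreducible.coprime_iff_not_dvd t.irred]
    intro h1
    have h2 := (t.irred.dvd_irreducible_iff_associated s.irred).1 h1
    exact h (eq_of_monic_of_associated s.monic t.monic h2.symm)

theorem sum_eq_of_iso [Finite F] {ι κ : Type} [Fintype ι] [Fintype κ] {s : ι → Cyc F}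
    {s' : κ → Cyc F} (e : MM s ≃ₗ[F[X]] MM s') (t : Cyc F) (k : ℕ) :
    (∑ i, open Classical in if (s i).f = t.f then min (s i).r k else 0) =
      ∑ i, open Classical in if (s' i).f = t.f then min (s' i).r k else 0 := by
  have h1 := kc_congr e (t.f ^ k)
  rw [kc_pi, kc_pi, Finset.prod_congr rfl (fun i _ => kc_CM (s i) t k),
    Finset.prod_congr rfl (fun i _ => kc_CM (s' i) t k), Finset.prod_pow_eq_pow_sum,
    Finset.prod_pow_eq_pow_sum] at h1
  have hdeg : t.f.natDegree ≠ 0 := (Irreducible.natDegree_pos t.irred).ne'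
  exact Nat.pow_right_injective (Nat.one_lt_pow hdeg (Finite.one_lt_card)) h1

theorem count_eq {ι : Type} [Fintype ι] (s : ι → Cyc F) (t : Cyc F) :
    (∑ i, open Classical in if (s i).f = t.f then min (s i).r (t.r - 1) else 0) +
      (∑ i, open Classical in if (s i).f = t.f then min (s i).r (t.r + 1) else 0) +
      (open Classical in Multiset.count t (Multiset.map s Finset.univ.val)) =
      2 * ∑ i, open Classical in if (s i).f = t.f then min (s i).r t.r else 0 := by
  classical
  have h1 : Multiset.count t (Multiset.map s Finset.univ.val) =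
      ∑ i, if s i = t then 1 else 0 := by
    rw [Multiset.count_map, Finset.sum_ite, Finset.sum_const_zero, add_zero, Finset.sum_const,
      smul_eq_mul, mul_one]
    simp [Finset.card, eq_comm, Finset.filter]
  rw [h1, Finset.mul_sum, ← Finset.sum_add_distrib, ← Finset.sum_add_distrib]
  refine Finset.sum_congr rfl fun i _ => ?_
  have ht := t.pos
  by_cases h2 : (s i).f = t.f
  · rw [if_pos h2, if_pos h2, if_pos h2]
    by_cases h3 : (s i).r = t.r
    · rw [if_pos (Cyc.ext' h2 h3), h3]
      have e1 : min t.r (t.r - 1) = t.r - 1 := min_eq_right (by omega)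
      have e2 : min t.r (t.r + 1) = t.r := min_eq_left (by omega)
      have e3 : min t.r t.r = t.r := min_self _
      omega
    · rw [if_neg (fun h => h3 (by rw [h]))]
      omega
  · rw [if_neg h2, if_neg h2, if_neg h2, if_neg (fun h => h2 (by rw [h]))]
    rfl

theorem cfam_inj [Finite F] {ι κ : Type} [Fintype ι] [Fintype κ] {s : ι → Cyc F}
    {s' : κ → Cyc F} (h : cfam s = cfam s') :
    Multiset.map s Finset.univ.val = Multiset.map s' Finset.univ.val := by
  classical
  obtain ⟨e⟩ := nonempty_of_cls_gX_eq h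
  ext t
  have h1 := count_eq s t
  have h2 := count_eq s' t
  rw [sum_eq_of_iso e, sum_eq_of_iso e, sum_eq_of_iso e] at h1
  omega

end Pool.Agent.W446.SC
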